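import Pool.Agent.Lib.MP_305fdd_al.To.ST.PSLTop

/-!
# MP_305fdd_al, torsion room (ST), Part E: the form `Disc`, `Coc` of the hypotheses
-/

set_option autoImplicit false

namespace Pool.Agent.ToST

open Matrix Topology Filter

/-- the matrices of `SL(2, ℝ)` near `1` form an open set -/
theorem isOpen_near_one (ε : ℝ) :
    IsOpen {A : SpecialLinearGroup (Fin 2) ℝ |
      ∀ i j, |A.1 i j - (1 : Matrix (Fin 2) (Fin 2) ℝ) i j| < ε} := by
  have e : {A : SpecialLinearGroup (Fin 2) ℝ |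
      ∀ i j, |A.1 i j - (1 : Matrix (Fin 2) (Fin 2) ℝ) i j| < ε} =
      ⋂ i, ⋂ j, {A : SpecialLinearGroup (Fin 2) ℝ |
        |A.1 i j - (1 : Matrix (Fin 2) (Fin 2) ℝ) i j| < ε} := by
    ext A
    simp only [Set.mem_ofPred_eq, Set.mem_iInter]
  rw [e]
  refine isOpen_iInter_of_finite fun i => isOpen_iInter_of_finite fun j => ?_
  apply isOpen_lt _ continuous_const
  have h1 : Continuous fun A : SpecialLinearGroup (Fin 2) ℝ => A i :=
    Matrix.SpecialLinearGroup.continuous_apply id continuous_id i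
  exact (((continuous_apply j).comp h1).sub continuous_const).abs

/-- the condition `Disc`: no elements near `1` ==> discrete image -/
theorem isDiscrete_of_near {G : Type} [Group G] (R : G →* PSL2R)
    (hd : ∃ ε : ℝ, 0 < ε ∧ ∀ (g : G) (A : SpecialLinearGroup (Fin 2) ℝ), (A : PSL2R) = R g →
      (∀ i j, |A.1 i j - (1 : Matrix (Fin 2) (Fin 2) ℝ) i j| < ε) → g = 1) :
    IsDiscrete (R.range : Set PSL2R) := by
  rw [isDiscrete_iff_discreteTopology]
  change DiscreteTopology R.range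
  obtain ⟨ε, h0, h⟩ := hd
  apply discreteTopology_of_isOpen_singleton_one
  let U : Set PSL2R := (fun A : SpecialLinearGroup (Fin 2) ℝ => (A : PSL2R)) ''
    {A | ∀ i j, |A.1 i j - (1 : Matrix (Fin 2) (Fin 2) ℝ) i j| < ε}
  have hU : IsOpen U := QuotientGroup.isOpenMap_coe _ (isOpen_near_one ε)
  have e : ({1} : Set R.range) = Subtype.val ⁻¹' U := by
    ext x
    simp only [Set.mem_singleton_iff, Set.mem_preimage]
    constructor
    · rintro rfl
      refine ⟨1, ?_, rfl⟩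
      intro i j
      show |(1 : Matrix (Fin 2) (Fin 2) ℝ) i j - (1 : Matrix (Fin 2) (Fin 2) ℝ) i j| < ε
      rw [sub_self, abs_zero]
      exact h0
    · rintro ⟨A, hA, hAx⟩
      obtain ⟨y, g, rfl⟩ := x
      have h1 := h g A hAx hA
      apply Subtype.ext
      show R g = 1
      rw [h1, map_one]
  rw [e]
  exact hU.preimage continuous_subtype_val

/-- **Part E, form of block N** -/
theorem Lat.of_disc_coc {G : Type} [Group G] (R : G →* PSL2R) (hR : Function.Injective R)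
    (hd : ∃ ε : ℝ, 0 < ε ∧ ∀ (g : G) (A : SpecialLinearGroup (Fin 2) ℝ), (A : PSL2R) = R g →
      (∀ i j, |A.1 i j - (1 : Matrix (Fin 2) (Fin 2) ℝ) i j| < ε) → g = 1)
    (hc : ∃ C : ℝ, ∀ h : SpecialLinearGroup (Fin 2) ℝ, ∃ (g : G)
      (A : SpecialLinearGroup (Fin 2) ℝ), (A : PSL2R) = R g ∧ ∀ i j, |(A * h).1 i j| ≤ C) :
    Nonempty (Lat G) := by
  apply Lat.of_PSL R hR (fin_of_discrete R hR (isDiscrete_of_near R hd))
  obtain ⟨C, hC⟩ := hc
  refine ⟨C, fun A₀ => ?_⟩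
  obtain ⟨g, A, hA, hb⟩ := hC A₀
  refine ⟨g⁻¹, A⁻¹, ?_, ?_⟩
  · rw [QuotientGroup.mk_inv, hA, map_inv]
  · have h1 : A₀⁻¹ * A⁻¹ = (A * A₀)⁻¹ := by group
    rw [h1]
    exact entries_inv (A * A₀) C hb

end Pool.Agent.ToST
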