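import Mathlib.GroupTheory.Perm.Cycle.Basic
import Mathlib.Dynamics.PeriodicPts.Lemmas
import Mathlib.Algebra.Group.Subgroup.Lattice

/-!
# MP_305fdd_al, discrete cocompact groups of `PSL(2, ℝ)`: the combinatorial package

`Cmb S`: the sides `S` of a fundamental polygon with the side pairing `ι`, the vertex cycles (the
cycles of `F`) and their orders `m`.  `Prs C G y`: the group `G` is presented by the side pairing
transformations `y e`, with the relations `y (ι e) = (y e)⁻¹` and the vertex cycle relations.
-/

set_option autoImplicit false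

namespace Pool.Agent.ToST

/-- `x e * x (F e) * ⋯ * x (F^(n-1) e)`, `n` the length of the cycle of `F` through `e` -/
noncomputable def cyc {S H : Type} [Monoid H] (F : Equiv.Perm S) (x : S → H) (e : S) : H :=
  ((List.range (Function.minimalPeriod F e)).map fun i => x ((F^[i]) e)).prod

/-- sides, side pairing, vertex cycles and their orders -/
structure Cmb (S : Type) where
  ι : S → S
  F : Equiv.Perm S
  m : S → ℕ
  ii : ∀ e, ι (ι e) = e
  m_pos : ∀ e, 0 < m e
  m_F : ∀ e, m (F e) = m e
  mono : ∀ c : S → Prop, (∀ e, c (ι e) ↔ c (F e)) → ∀ e e', c e → c e'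

/-- `G` is presented by the `y e` -/
structure Prs {S : Type} (C : Cmb S) (G : Type) [Group G] (y : S → G) : Prop where
  inv : ∀ e, y (C.ι e) = (y e)⁻¹
  rel : ∀ e, cyc C.F y e ^ C.m e = 1
  univ : ∀ (H : Type) [Group H] (x : S → H), (∀ e, x (C.ι e) = (x e)⁻¹) →
    (∀ e, cyc C.F x e ^ C.m e = 1) → ∃ φ : G →* H, ∀ e, φ (y e) = x e
  gen : Subgroup.closure (Set.range y) = ⊤

end Pool.Agent.ToST
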