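import Mathlib.GroupTheory.Perm.Cycle.Basic
import Mathlib.Algebra.BigOperators.Group.List.Basic
import Mathlib.Algebra.Group.Subgroup.Basic

/-!
# MP_305fdd_al, torsion room (ST): finite cyclic orders
-/

set_option autoImplicit false

namespace Pool.Agent.ToST

/-- cyclic order on the set `s` -/
structure CO {G : Type} (s : Set G) (R : G → G → G → Prop) : Prop where
  rot : ∀ a b c, R a b c → R b c a
  asym : ∀ a b c, R a b c → ¬ R a c b
  trans : ∀ a ∈ s, ∀ b ∈ s, ∀ c ∈ s, ∀ d ∈ s, R a b c → R a c d → R a b d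
  total : ∀ a ∈ s, ∀ b ∈ s, ∀ c ∈ s, a ≠ b → b ≠ c → a ≠ c → R a b c ∨ R a c b

/-- `b` is the successor of `a` -/
def IsSc {G : Type} (s : Set G) (R : G → G → G → Prop) (a b : G) : Prop :=
  a ∈ s ∧ b ∈ s ∧ a ≠ b ∧ ∀ y ∈ s, y ≠ a → y ≠ b → R a b y

namespace CO

variable {G : Type} {s : Set G} {R : G → G → G → Prop}

theorem rev (h : CO s R) : CO s (fun a b c => R a c b) where
  rot := fun _ _ _ H => h.rot _ _ _ (h.rot _ _ _ H)
  asym := fun _ _ _ H => h.asym _ _ _ H
  trans := fun a ha b hb c hc d hd H1 H2 => h.trans a ha d hd c hc b hb H2 H1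
  total := fun a ha b hb c hc h1 h2 h3 => (h.total a ha b hb c hc h1 h2 h3).symm

theorem exists_min (h : CO s R) {a : G} (ha : a ∈ s) (F : Finset G) (hF : F.Nonempty)
    (hs : ∀ z ∈ F, z ∈ s ∧ z ≠ a) : ∃ b ∈ F, ∀ y ∈ F, y ≠ b → R a b y := by
  classical
  induction hF using Finset.Nonempty.cons_induction with
  | singleton x =>
    refine ⟨x, Finset.mem_singleton_self x, ?_⟩
    intro y hy hne
    exact absurd (Finset.mem_singleton.mp hy) hne
  | cons x F hx hne ih =>
    obtain ⟨b, hb, hmin⟩ := ih fun z hz => hs z (Finset.mem_cons_of_mem hz)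
    have hb' := hs b (Finset.mem_cons_of_mem hb)
    have hx' := hs x (Finset.mem_cons_self x F)
    have hxb : x ≠ b := fun e => hx (e ▸ hb)
    rcases h.total a ha b hb'.1 x hx'.1 hb'.2.symm hxb.symm hx'.2.symm with h1 | h1
    · refine ⟨b, Finset.mem_cons_of_mem hb, ?_⟩
      intro y hy hyb
      rcases Finset.mem_cons.mp hy with rfl | hy
      · exact h1
      · exact hmin y hy hyb
    · refine ⟨x, Finset.mem_cons_self x F, ?_⟩
      intro y hy hyx
      rcases Finset.mem_cons.mp hy with e | hy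
      · exact absurd e hyx
      · by_cases hyb : y = b
        · rw [hyb]; exact h1
        · exact h.trans a ha x hx'.1 b hb'.1 y (hs y (Finset.mem_cons_of_mem hy)).1 h1
            (hmin y hy hyb)

theorem exists_sc (h : CO s R) (hs : s.Finite) {a : G} (ha : a ∈ s) (hne : ∃ b ∈ s, b ≠ a) :
    ∃ b, IsSc s R a b := by
  classical
  set F : Finset G := hs.toFinset.erase a with hF
  obtain ⟨b0, hb0, hb0'⟩ := hne
  obtain ⟨b, hb, hmin⟩ := h.exists_min ha F ⟨b0, by
    rw [hF, Finset.mem_erase, Set.Finite.mem_toFinset]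
    exact ⟨hb0', hb0⟩⟩ (by
    intro z hz
    rw [hF, Finset.mem_erase, Set.Finite.mem_toFinset] at hz
    exact ⟨hz.2, hz.1⟩)
  rw [hF, Finset.mem_erase, Set.Finite.mem_toFinset] at hb
  refine ⟨b, ha, hb.2, hb.1.symm, ?_⟩
  intro y hy hya hyb
  exact hmin y (by
    rw [hF, Finset.mem_erase, Set.Finite.mem_toFinset]
    exact ⟨hya, hy⟩) hyb

theorem sc_rev (h : CO s R) {a b : G} (H : IsSc s (fun a b c => R a c b) a b) : IsSc s R b a := by
  refine ⟨H.2.1, H.1, H.2.2.1.symm, ?_⟩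
  intro y hy hyb hya
  exact h.rot _ _ _ (h.rot _ _ _ (H.2.2.2 y hy hya hyb))

theorem exists_pr (h : CO s R) (hs : s.Finite) {b : G} (hb : b ∈ s) (hne : ∃ a ∈ s, a ≠ b) :
    ∃ a, IsSc s R a b := by
  obtain ⟨a, ha⟩ := h.rev.exists_sc hs hb hne
  exact ⟨a, h.sc_rev ha⟩

theorem sc_unique (h : CO s R) {a b b' : G} (H : IsSc s R a b) (H' : IsSc s R a b') : b = b' := by
  by_contra hne
  have h1 := H.2.2.2 b' H'.2.1 H'.2.2.1.symm fun e => hne e.symm
  have h2 := H'.2.2.2 b H.2.1 H.2.2.1.symm hne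
  exact h.asym _ _ _ h1 h2

theorem pr_unique (h : CO s R) {a a' b : G} (H : IsSc s R a b) (H' : IsSc s R a' b) : a = a' := by
  by_contra hne
  have h1 := H.2.2.2 a' H'.1 (fun e => hne e.symm) H'.2.2.1
  have h2 := H'.2.2.2 a H.1 hne H.2.2.1
  exact h.asym _ _ _ (h.rot _ _ _ h1) (h.rot _ _ _ (h.rot _ _ _ (h.rot _ _ _ (h.rot _ _ _ h2))))

/-- an invariant colouring is constant -/
theorem const (h : CO s R) (hs : s.Finite) {c : G → Prop} (hc : ∀ a b, IsSc s R a b → c a → c b)
    {a b : G} (ha : a ∈ s) (hb : b ∈ s) (hca : c a) : c b := by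
  classical
  by_contra hcb
  set F : Finset G := hs.toFinset.filter fun z => ¬ c z with hF
  have hbF : b ∈ F := by
    rw [hF, Finset.mem_filter, Set.Finite.mem_toFinset]
    exact ⟨hb, hcb⟩
  obtain ⟨y, hy, hmin⟩ := h.exists_min ha F ⟨b, hbF⟩ (by
    intro z hz
    rw [hF, Finset.mem_filter, Set.Finite.mem_toFinset] at hz
    refine ⟨hz.1, ?_⟩
    rintro rfl
    exact hz.2 hca)
  rw [hF, Finset.mem_filter, Set.Finite.mem_toFinset] at hy
  have hya : y ≠ a := by
    rintro rfl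
    exact hy.2 hca
  obtain ⟨p, hp⟩ := h.exists_pr hs hy.1 ⟨a, ha, hya.symm⟩
  have hcp : ¬ c p := fun hcp => hy.2 (hc _ _ hp hcp)
  have hpa : p ≠ a := by
    rintro rfl
    exact hcp hca
  have h1 := hmin p (by
    rw [hF, Finset.mem_filter, Set.Finite.mem_toFinset]
    exact ⟨hp.1, hcp⟩) hp.2.2.1
  have h2 := hp.2.2.2 a ha hpa.symm hya.symm
  exact h.asym _ _ _ h1 (h.rot _ _ _ (h.rot _ _ _ h2))

/-- the successor permutation -/
theorem exists_perm (h : CO s R) (hs : s.Finite) (hn : s.Nontrivial) :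
    ∃ σ : Equiv.Perm s, (∀ a : s, IsSc s R a (σ a)) ∧ σ.IsCycleOn Set.univ := by
  classical
  have hne : ∀ a : G, ∃ b ∈ s, b ≠ a := fun a => hn.exists_ne a
  have hex : ∀ a : s, ∃ b : s, IsSc s R a b := fun a => by
    obtain ⟨b, hb⟩ := h.exists_sc hs a.2 (hne a)
    exact ⟨⟨b, hb.2.1⟩, hb⟩
  choose f hf using hex
  have : Finite s := hs
  have hinj : Function.Injective f := by
    intro a b hab
    apply Subtype.ext
    have h1 := hf b
    rw [← hab] at h1
    exact h.pr_unique (hf a) h1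
  let σ : Equiv.Perm s := Equiv.ofBijective f ⟨hinj, Finite.surjective_of_injective hinj⟩
  have hσ : ∀ a : s, IsSc s R a (σ a) := hf
  refine ⟨σ, hσ, ?_⟩
  refine ⟨?_, ?_⟩
  · rw [Set.bijOn_univ]
    exact σ.bijective
  · intro x _ y _
    have := h.const hs (c := fun z => ∃ hz : z ∈ s, σ.SameCycle x ⟨z, hz⟩) (by
      rintro a b hab ⟨ha, hab'⟩
      refine ⟨hab.2.1, ?_⟩
      have e : (⟨b, hab.2.1⟩ : s) = σ ⟨a, ha⟩ := by
        apply Subtype.ext
        exact h.sc_unique hab (hσ ⟨a, ha⟩)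
      rw [e]
      exact hab'.apply_right) x.2 y.2 ⟨x.2, by exact Equiv.Perm.SameCycle.refl _ _⟩
    obtain ⟨_, h2⟩ := this
    exact h2

end CO

/-- `x e * x (F e) * ⋯ * x (F^(k-1) e)` -/
def wk {S H : Type} [Monoid H] (F : S → S) (x : S → H) (e : S) (k : ℕ) : H :=
  ((List.range k).map fun i => x (F^[i] e)).prod

section wk

variable {S H : Type} [Monoid H] (F : S → S) (x : S → H) (e : S)

theorem wk_zero : wk F x e 0 = 1 := by simp [wk]

theorem wk_succ (k : ℕ) : wk F x e (k + 1) = wk F x e k * x (F^[k] e) := by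
  simp [wk, List.range_succ]

theorem wk_add (k l : ℕ) : wk F x e (k + l) = wk F x e k * wk F x (F^[k] e) l := by
  induction l with
  | zero => simp [wk_zero]
  | succ l ih =>
    rw [← add_assoc, wk_succ, ih, wk_succ, mul_assoc, ← Function.iterate_add_apply,
      Nat.add_comm l k]

theorem wk_mul {n : ℕ} (hn : F^[n] e = e) (q : ℕ) : wk F x e (n * q) = wk F x e n ^ q := by
  induction q with
  | zero => simp [wk_zero]
  | succ q ih =>
    rw [Nat.mul_succ, wk_add, ih, pow_succ]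
    congr 2
    clear ih
    induction q with
    | zero => rfl
    | succ q ih => rw [Nat.mul_succ, Function.iterate_add_apply, hn, ih]

theorem map_wk {K : Type} [Monoid K] (φ : H →* K) (k : ℕ) :
    φ (wk F x e k) = wk F (fun s => φ (x s)) e k := by
  induction k with
  | zero => simp [wk_zero]
  | succ k ih => rw [wk_succ, wk_succ, map_mul, ih]

end wk

/-- a potential on a cycle -/
theorem exists_pot {T H : Type} [Fintype T] [Group H] (σ : Equiv.Perm T)
    (hσ : σ.IsCycleOn Set.univ) (f : T → H) (a0 : T)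
    (h : wk σ f a0 (Fintype.card T) = 1) : ∃ p : T → H, ∀ a, p (σ a) = p a * f a := by
  classical
  have hσ' : σ.IsCycleOn (Finset.univ : Finset T) := by
    rw [Finset.coe_univ]
    exact hσ
  have hN : (σ^[Fintype.card T]) a0 = a0 := by
    rw [← Equiv.Perm.coe_pow]
    exact hσ'.pow_card_apply (Finset.mem_univ a0)
  have hadd : ∀ k q, wk σ f a0 (k + Fintype.card T * q) = wk σ f a0 k := by
    intro k q
    rw [add_comm, wk_add, wk_mul σ f a0 hN, h, one_pow, one_mul]
    congr 1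
    rw [Function.iterate_mul]
    exact Function.iterate_fixed hN q
  have hmod : ∀ k l, (σ^[k]) a0 = (σ^[l]) a0 → wk σ f a0 k = wk σ f a0 l := by
    intro k l hkl
    rw [← Equiv.Perm.coe_pow, ← Equiv.Perm.coe_pow,
      hσ'.pow_apply_eq_pow_apply (Finset.mem_univ a0), Finset.card_univ] at hkl
    have e1 := hadd (k % Fintype.card T) (k / Fintype.card T)
    have e2 := hadd (l % Fintype.card T) (l / Fintype.card T)
    rw [Nat.mod_add_div] at e1 e2
    rw [e1, e2]
    unfold Nat.ModEq at hkl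
    rw [hkl]
  have hex : ∀ a, ∃ k, (σ^[k]) a0 = a := by
    intro a
    obtain ⟨k, _, hk⟩ := hσ'.exists_pow_eq (Finset.mem_univ a0) (Finset.mem_univ a)
    exact ⟨k, by rw [← Equiv.Perm.coe_pow]; exact hk⟩
  choose κ hκ using hex
  refine ⟨fun a => wk σ f a0 (κ a), ?_⟩
  intro a
  have e1 : (σ^[κ (σ a)]) a0 = (σ^[κ a + 1]) a0 := by
    rw [hκ, Function.iterate_succ_apply', hκ]
  change wk σ f a0 (κ (σ a)) = wk σ f a0 (κ a) * f a
  rw [hmod _ _ e1, wk_succ, hκ]

end Pool.Agent.ToST
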