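import Pool.Agent.Lib.MP_305fdd_al.To.ST.Lor

/-!
# MP_305fdd_al, torsion room (ST): discrete cocompact actions on the hyperbolic plane

`Lat G`: the group `G` acts on Minkowski space (hyperboloid model of the hyperbolic plane),
discretely and cocompactly, by orientation preserving isometries; `P` is a base point with trivial
stabiliser.
-/

set_option autoImplicit false

namespace Pool.Agent.ToST

/-- a discrete cocompact action on the hyperbolic plane with a base point with trivial stabiliser -/
structure Lat (G : Type) [Group G] where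
  act : G →* (V →ₗ[ℝ] V)
  B_act : ∀ (g : G) (u v : V), B (act g u) (act g v) = B u v
  det_act : ∀ (g : G) (u v w : V), det3 (act g u) (act g v) (act g w) = det3 u v w
  Om_act : ∀ (g : G), ∀ Z ∈ Om, act g Z ∈ Om
  P : V
  P_mem : P ∈ Om
  P_one : B P P = 1
  free : ∀ g : G, act g P = P → g = 1
  fin : ∀ r : ℝ, {g : G | B P (act g P) ≤ r}.Finite
  coc : ∃ R : ℝ, ∀ Z ∈ Om, ∃ g : G, (B Z (act g P)) ^ 2 ≤ R * B Z Z

end Pool.Agent.ToST
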