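import Pool.Agent.Lib.MP_305fdd_al.To.ST.Tile
import Pool.Agent.Lib.MP_305fdd_al.To.ST.Cyc

/-!
# MP_305fdd_al, torsion room (ST): the cyclic order of the nearest orbit points; sides; vertices
-/

set_option autoImplicit false

namespace Pool.Agent.ToST

open Filter Topology

/-! ### linear algebra -/

theorem eq_of_crs {Z u v : V} (h : crs u v = 0) (h1 : B Z u = B Z v) (h2 : B Z u ≠ 0) : u = v := by
  have e0 := congrFun h 0
  have e1 := congrFun h 1
  have e2 := congrFun h 2
  simp [crs] at e0 e1 e2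
  have key : ∀ i, B Z u * v i = B Z v * u i := by
    intro i
    unfold B
    fin_cases i
    · simp only [Fin.zero_eta]
      linear_combination (-Z 1) * e2 + (Z 2) * e1
    · simp only [Fin.mk_one]
      linear_combination (Z 0) * e2 * (-1) + (Z 2) * e0
    · simp only [Fin.reduceFinMk]
      linear_combination (Z 0) * e1 - (Z 1) * e0
  ext i
  have := key i
  rw [← h1] at this
  exact (mul_left_cancel₀ h2 this).symm

/-- three different points of the hyperboloid in a plane are linearly independent -/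
theorem det_ne_zero {Z a b c : V} (hb : b ∈ Om) (hc : c ∈ Om)
    (h1 : B a a = 1) (h2 : B b b = 1) (h3 : B c c = 1) (hab : a ≠ b) (hbc : b ≠ c) (hac : a ≠ c)
    (ha : B Z a ≠ 0) (e1 : B Z a = B Z b) (e2 : B Z b = B Z c) : det3 a b c ≠ 0 := by
  intro h0
  have hcr : crs b c ≠ 0 := by
    intro h
    exact hbc (eq_of_crs h e2 (by rw [← e1]; exact ha))
  obtain ⟨d, hd⟩ : ∃ d, det3 b c d ≠ 0 := by
    by_contra hn
    push Not at hn
    apply hcr
    apply B_nondeg
    intro v
    rw [B_crs]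
    exact hn v
  have hC := cramer a b c d
  rw [h0, zero_smul, sub_zero] at hC
  set x := det3 b c d
  set y := det3 a c d
  set z := det3 a b d
  have hs : (x - y + z) * B Z a = 0 := by
    have := congrArg (B Z) hC
    rw [B_add_right, B_sub_right, B_smul_right, B_smul_right, B_smul_right, B_zero_right,
      ← e2, ← e1] at this
    linear_combination this
  have hs' : x - y + z = 0 := by
    rcases mul_eq_zero.mp hs with h | h
    · exact h
    · exact absurd h ha
  have hxa : x • a = y • b - z • c := by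
    rw [← sub_eq_zero]
    rw [← hC]
    abel
  have h4 := one_lt_B hb hc h2 h3 hbc
  have h5 : x ^ 2 = y ^ 2 + z ^ 2 - 2 * (y * z) * B b c := by
    have e3 : B (x • a) (x • a) = x ^ 2 := by
      rw [B_smul_left, B_smul_right, h1]; ring
    rw [← e3, hxa]
    simp only [B_sub_left, B_sub_right, B_smul_left, B_smul_right, h2, h3, B_comm c b]
    ring
  have hyz : y * z = 0 := by
    have e4 : x = y - z := by linarith
    rw [e4] at h5
    have e5 : (y * z) * (B b c - 1) = 0 := by linarith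
    rcases mul_eq_zero.mp e5 with h | h
    · exact h
    · linarith
  rcases mul_eq_zero.mp hyz with h | h
  · rw [h, zero_smul, zero_sub] at hxa
    have e4 : x = -z := by linarith
    rw [e4, neg_smul, neg_inj] at hxa
    have hz : z ≠ 0 := by
      intro h'
      exact hd (by rw [e4, h', neg_zero])
    exact hac (smul_right_injective V hz hxa)
  · rw [h, zero_smul, sub_zero] at hxa
    have e4 : x = y := by linarith
    rw [e4] at hxa
    have hy : y ≠ 0 := by
      intro h'
      exact hd (by rw [e4, h'])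
    exact hab (smul_right_injective V hy hxa)

/-- transitivity of the cyclic order -/
theorem det_trans {Z a b c d : V} (hb : b ∈ Om) (hc : c ∈ Om) (hd : d ∈ Om)
    (h1 : B a a = 1) (h2 : B b b = 1) (h3 : B c c = 1) (h4 : B d d = 1)
    (hab : a ≠ b) (hbc : b ≠ c) (hbd : b ≠ d) (had : a ≠ d)
    (ha : B Z a ≠ 0) (e1 : B Z a = B Z b) (e2 : B Z a = B Z c) (e3 : B Z a = B Z d)
    (p1 : 0 < det3 a b c) (p2 : 0 < det3 a c d) : 0 < det3 a b d := by
  by_contra hn
  have hne := det_ne_zero hb hd h1 h2 h4 hab hbd had ha e1 (by rw [← e1, e3])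
  have hlt : det3 a b d < 0 := lt_of_le_of_ne (not_lt.mp hn) hne
  have hC := cramer a b c d
  set x := det3 b c d
  set y := det3 a c d
  set z := det3 a b d
  set w := det3 a b c
  have hs : (x - y + z - w) * B Z a = 0 := by
    have := congrArg (B Z) hC
    rw [B_sub_right, B_add_right, B_sub_right, B_smul_right, B_smul_right, B_smul_right,
      B_smul_right, B_zero_right, ← e1, ← e2, ← e3] at this
    linear_combination this
  have hs' : x - y + z - w = 0 := by
    rcases mul_eq_zero.mp hs with h | h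
    · exact h
    · exact absurd h ha
  have hx : 0 < x := by linarith
  have hxa : a = (y / x) • b + (-z / x) • c + (w / x) • d := by
    have e4 : x • a = y • b + (-z) • c + w • d := by
      rw [← sub_eq_zero, ← hC, neg_smul]
      abel
    have e5 : a = x⁻¹ • (x • a) := by
      rw [smul_smul, inv_mul_cancel₀ hx.ne', one_smul]
    rw [e5, e4, smul_add, smul_add, smul_smul, smul_smul, smul_smul]
    simp only [div_eq_inv_mul]
  exact no_comb hb hc hd h1 h2 h3 h4 hbc (div_pos p2 hx) (div_pos (by linarith) hx)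
    (div_pos p1 hx).le (by field_simp; linarith) hxa

/-- a vector orthogonal to `a` and `b` is a multiple of `crs a b` -/
theorem exists_mul_crs {a b U : V} (hw : crs a b ≠ 0) (h1 : B U a = 0) (h2 : B U b = 0) :
    ∃ t : ℝ, U = t • crs a b := by
  set w := crs a b with hwd
  have w0 : w 0 = a 1 * b 2 - a 2 * b 1 := by simp [hwd, crs]
  have w1 : w 1 = a 0 * b 2 - a 2 * b 0 := by simp [hwd, crs]
  have w2 : w 2 = -(a 0 * b 1 - a 1 * b 0) := by simp [hwd, crs]
  unfold B at h1 h2
  have m01 : U 0 * w 1 = U 1 * w 0 := by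
    rw [w0, w1]
    linear_combination (b 2) * h1 - (a 2) * h2
  have m02 : U 0 * w 2 = U 2 * w 0 := by
    rw [w0, w2]
    linear_combination (-b 1) * h1 + (a 1) * h2
  have m12 : U 1 * w 2 = U 2 * w 1 := by
    rw [w1, w2]
    linear_combination (-b 0) * h1 + (a 0) * h2
  have hne : ∃ i, w i ≠ 0 := by
    by_contra hn
    push Not at hn
    exact hw (funext hn)
  have hm : ∀ i j, U i * w j = U j * w i := by
    intro i j
    fin_cases i <;> fin_cases j <;>
      simp only [Fin.zero_eta, Fin.mk_one, Fin.reduceFinMk] <;>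
      first
        | exact m01
        | exact m02
        | exact m12
        | exact m01.symm
        | exact m02.symm
        | exact m12.symm
  obtain ⟨i, hi⟩ := hne
  refine ⟨U i / w i, ?_⟩
  ext j
  rw [Pi.smul_apply, smul_eq_mul, div_mul_eq_mul_div, eq_div_iff hi]
  exact hm j i

namespace Lat

variable {G : Type} [Group G] (L : Lat G)

/-- orientation of three orbit points -/
def Rr (a b c : G) : Prop := 0 < det3 (L.pt a) (L.pt b) (L.pt c)

theorem co {Z : V} (hZ : Z ∈ Om) : CO (L.T Z) L.Rr where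
  rot := by
    intro a b c h
    unfold Rr at *
    rw [← det3_rot]
    exact h
  asym := by
    intro a b c h h'
    unfold Rr at *
    rw [det3_swap'] at h'
    linarith
  trans := by
    intro a ha b hb c hc d hd h1 h2
    have hcomm : ∀ g, B Z (L.pt g) = L.lam g Z := fun g => B_comm _ _
    have hne : ∀ {x y z : G}, L.Rr x y z → x ≠ y ∧ y ≠ z ∧ x ≠ z := by
      intro x y z h
      unfold Rr at h
      refine ⟨?_, ?_, ?_⟩
      · rintro rfl
        rw [det3_self] at h
        exact lt_irrefl _ h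
      · rintro rfl
        rw [det3_self''] at h
        exact lt_irrefl _ h
      · rintro rfl
        rw [det3_self'] at h
        exact lt_irrefl _ h
    have n1 := hne h1
    have n2 := hne h2
    have hbd : b ≠ d := by
      rintro rfl
      unfold Rr at h1 h2
      rw [det3_swap'] at h2
      linarith
    have hinj := L.pt_injective
    exact det_trans (Z := Z) (L.pt_mem b) (L.pt_mem c) (L.pt_mem d) (L.B_pt a) (L.B_pt b)
      (L.B_pt c) (L.B_pt d) (hinj.ne n1.1) (hinj.ne n1.2.1) (hinj.ne hbd) (hinj.ne n2.2.2)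
      (by rw [hcomm]; exact (L.lam_pos a hZ).ne') (by rw [hcomm, hcomm]; exact L.T_eq ha hb)
      (by rw [hcomm, hcomm]; exact L.T_eq ha hc) (by rw [hcomm, hcomm]; exact L.T_eq ha hd) h1 h2
  total := by
    intro a ha b hb c hc hab hbc hac
    have hcomm : ∀ g, B Z (L.pt g) = L.lam g Z := fun g => B_comm _ _
    have hinj := L.pt_injective
    have := det_ne_zero (Z := Z) (L.pt_mem b) (L.pt_mem c) (L.B_pt a) (L.B_pt b) (L.B_pt c)
      (hinj.ne hab) (hinj.ne hbc) (hinj.ne hac)
      (by rw [hcomm]; exact (L.lam_pos a hZ).ne') (by rw [hcomm, hcomm]; exact L.T_eq ha hb)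
      (by rw [hcomm, hcomm]; exact L.T_eq hb hc)
    unfold Rr
    rcases lt_or_gt_of_ne this with h | h
    · right
      rw [det3_swap']
      linarith
    · left
      exact h

/-- `b` is the successor of `a` at `Z` -/
def Sc (Z : V) (a b : G) : Prop := IsSc (L.T Z) L.Rr a b

theorem Sc_act {Z : V} {g a b : G} : L.Sc (L.act g Z) (g * a) (g * b) ↔ L.Sc Z a b := by
  unfold Sc IsSc
  rw [L.mem_T_act, L.mem_T_act]
  have hR : ∀ c, L.Rr (g * a) (g * b) (g * c) ↔ L.Rr a b c := by
    intro c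
    unfold Rr
    rw [← L.act_pt, ← L.act_pt, ← L.act_pt, L.det_act]
  constructor
  · rintro ⟨h1, h2, h3, h4⟩
    refine ⟨h1, h2, fun e => h3 (by rw [e]), ?_⟩
    intro y hy hya hyb
    rw [← hR]
    exact h4 _ (L.mem_T_act.mpr hy) (fun e => hya (mul_left_cancel e))
      (fun e => hyb (mul_left_cancel e))
  · rintro ⟨h1, h2, h3, h4⟩
    refine ⟨h1, h2, fun e => h3 (mul_left_cancel e), ?_⟩
    intro y hy hya hyb
    obtain ⟨z, rfl⟩ : ∃ z, y = g * z := ⟨g⁻¹ * y, by rw [mul_inv_cancel_left]⟩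
    rw [hR]
    exact h4 z (L.mem_T_act.mp hy) (fun e => hya (by rw [e])) (fun e => hyb (by rw [e]))

theorem Sc_smul {Z : V} {c : ℝ} (hc : 0 < c) {a b : G} : L.Sc (c • Z) a b ↔ L.Sc Z a b := by
  unfold Sc
  rw [L.T_smul hc]

/-- `{a, b}` is a side -/
def IsSide (a b : G) : Prop := a ≠ b ∧ ∃ Z ∈ Om, L.T Z = {a, b}

theorem IsSide.symm {a b : G} (h : L.IsSide a b) : L.IsSide b a := by
  obtain ⟨h1, Z, hZ, h2⟩ := h
  exact ⟨h1.symm, Z, hZ, by rw [h2, Set.pair_comm]⟩

theorem isSide_act {g a b : G} : L.IsSide (g * a) (g * b) ↔ L.IsSide a b := by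
  have key : ∀ (k x y : G), L.IsSide x y → L.IsSide (k * x) (k * y) := by
    rintro k x y ⟨h1, Z, hZ, h2⟩
    refine ⟨fun e => h1 (mul_left_cancel e), L.act k Z, L.Om_act _ _ hZ, ?_⟩
    ext z
    obtain ⟨w, rfl⟩ : ∃ w, z = k * w := ⟨k⁻¹ * z, by rw [mul_inv_cancel_left]⟩
    rw [L.mem_T_act, h2]
    simp
  constructor
  · intro h
    have := key g⁻¹ _ _ h
    rwa [inv_mul_cancel_left, inv_mul_cancel_left] at this
  · exact key g a b

/-- the side letters -/
def Sd (e : G) : Prop := L.IsSide 1 e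

theorem Sd_iff {a b : G} : L.Sd (a⁻¹ * b) ↔ L.IsSide a b := by
  unfold Sd
  rw [← L.isSide_act (g := a), mul_one, mul_inv_cancel_left]

theorem Sd_inv {e : G} (h : L.Sd e) : L.Sd e⁻¹ := by
  have := L.Sd_iff.mpr h.symm
  rwa [mul_one] at this

theorem Sd_ne {e : G} (h : L.Sd e) : e ≠ 1 := h.1.symm

theorem Sd_Nb {e : G} (h : L.Sd e) : e ∈ L.Nb := by
  obtain ⟨-, Z, hZ, h2⟩ := h
  refine ⟨Z, hZ, ?_, ?_⟩
  · rw [h2]; exact Set.mem_insert _ _
  · rw [h2]; exact Set.mem_insert_of_mem _ rfl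

/-- perturbation of `Z` in the direction of `w` -/
theorem perturb {Z w : V} (hZ : Z ∈ Om) : ∃ ε : ℝ, 0 < ε ∧ Z + ε • w ∈ Om ∧
    L.T (Z + ε • w) ⊆ L.T Z := by
  have h1 : Tendsto (fun ε : ℝ => Z + ε • w) (𝓝 0) (𝓝 Z) := by
    have : Continuous fun ε : ℝ => Z + ε • w := by fun_prop
    have h2 := this.tendsto 0
    simpa using h2
  have h2 := h1.eventually (L.T_local hZ)
  have h3 : ∀ᶠ ε in 𝓝[>] (0 : ℝ), Z + ε • w ∈ Om ∧ L.T (Z + ε • w) ⊆ L.T Z :=
    nhdsWithin_le_nhds h2
  have h4 : ∀ᶠ c in 𝓝[>] (0 : ℝ), 0 < c := self_mem_nhdsWithin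
  obtain ⟨ε, h5, h6⟩ := (h3.and h4).exists
  exact ⟨ε, h6, h5.1, h5.2⟩

theorem lam_crs_left (a b : G) : L.lam a (crs (L.pt a) (L.pt b)) = 0 := by
  unfold lam
  rw [B_comm, B_crs, det3_self']

theorem lam_crs_right (a b : G) : L.lam b (crs (L.pt a) (L.pt b)) = 0 := by
  unfold lam
  rw [B_comm, B_crs, det3_self'']

theorem lam_crs (a b y : G) : L.lam y (crs (L.pt a) (L.pt b)) =
    det3 (L.pt a) (L.pt b) (L.pt y) := by
  unfold lam
  rw [B_comm, B_crs]

/-- consecutive elements are sides -/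
theorem side_of_Sc {Z : V} (hZ : Z ∈ Om) {a b : G} (h : L.Sc Z a b) : L.IsSide a b := by
  refine ⟨h.2.2.1, ?_⟩
  obtain ⟨ε, hε, h1, h2⟩ := L.perturb (w := crs (L.pt a) (L.pt b)) hZ
  refine ⟨_, h1, ?_⟩
  have key : ∀ y, L.lam y (Z + ε • crs (L.pt a) (L.pt b)) =
      L.lam y Z + ε * det3 (L.pt a) (L.pt b) (L.pt y) := by
    intro y
    rw [L.lam_add, L.lam_smul, L.lam_crs]
  have ka : L.lam a (Z + ε • crs (L.pt a) (L.pt b)) = L.lam a Z := by
    rw [key, det3_self', mul_zero, add_zero]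
  have kb : L.lam b (Z + ε • crs (L.pt a) (L.pt b)) = L.lam a Z := by
    rw [key, det3_self'', mul_zero, add_zero, L.T_eq h.2.1 h.1]
  have hlow : ∀ y, y ∈ L.T (Z + ε • crs (L.pt a) (L.pt b)) → y = a ∨ y = b := by
    intro y hy
    by_contra hn
    push Not at hn
    have h3 := h.2.2.2 y (h2 hy) hn.1 hn.2
    have h4 := hy a
    rw [ka, key, L.T_eq (h2 hy) h.1] at h4
    have h5 : 0 < ε * det3 (L.pt a) (L.pt b) (L.pt y) := mul_pos hε h3
    linarith
  obtain ⟨y0, hy0⟩ := L.T_nonempty h1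
  have hmin : L.lam y0 (Z + ε • crs (L.pt a) (L.pt b)) = L.lam a Z := by
    rcases hlow y0 hy0 with e | e
    · rw [e]; exact ka
    · rw [e]; exact kb
  ext y
  simp only [Set.mem_insert_iff, Set.mem_singleton_iff]
  constructor
  · exact hlow y
  · rintro (rfl | rfl)
    · exact L.mem_T_of_eq hy0 (by rw [hmin, ka])
    · exact L.mem_T_of_eq hy0 (by rw [hmin, kb])

theorem Sd_of_Sc {Z : V} (hZ : Z ∈ Om) {a b : G} (h : L.Sc Z a b) : L.Sd (a⁻¹ * b) :=
  L.Sd_iff.mpr (L.side_of_Sc hZ h)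

/-- two points of the same wall -/
theorem wall {Z W : V} (hZ : Z ∈ Om) (hW : W ∈ Om) {a b : G} (hab : a ≠ b)
    (ha : a ∈ L.T Z) (hb : b ∈ L.T Z) (ha' : a ∈ L.T W) (hb' : b ∈ L.T W) :
    ∃ (c t : ℝ), 0 < c ∧ W = c • Z + t • crs (L.pt a) (L.pt b) := by
  have hk : 0 < L.lam a Z := L.lam_pos a hZ
  have hk' : 0 < L.lam a W := L.lam_pos a hW
  have hw : crs (L.pt a) (L.pt b) ≠ 0 := by
    intro h
    apply hab
    apply L.pt_injective
    have e1 : B Z (L.pt a) = L.lam a Z := B_comm _ _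
    have e2 : B Z (L.pt b) = L.lam b Z := B_comm _ _
    apply eq_of_crs (Z := Z) h
    · rw [e1, e2, L.T_eq ha hb]
    · rw [e1]; exact hk.ne'
  have h1 : B (W - (L.lam a W / L.lam a Z) • Z) (L.pt a) = 0 := by
    rw [B_sub_left, B_smul_left, B_comm W, B_comm Z]
    change L.lam a W - L.lam a W / L.lam a Z * L.lam a Z = 0
    rw [div_mul_cancel₀ _ hk.ne', sub_self]
  have h2 : B (W - (L.lam a W / L.lam a Z) • Z) (L.pt b) = 0 := by
    rw [B_sub_left, B_smul_left, B_comm W, B_comm Z]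
    change L.lam b W - L.lam a W / L.lam a Z * L.lam b Z = 0
    rw [← L.T_eq ha hb, ← L.T_eq ha' hb', div_mul_cancel₀ _ hk.ne', sub_self]
  obtain ⟨t, ht⟩ := exists_mul_crs hw h1 h2
  refine ⟨L.lam a W / L.lam a Z, t, div_pos hk' hk, ?_⟩
  rw [← ht]
  abel

/-- a side is consecutive at each of its points -/
theorem Sc_of_side {Z : V} (hZ : Z ∈ Om) {a b : G} (h : L.IsSide a b) (ha : a ∈ L.T Z)
    (hb : b ∈ L.T Z) : L.Sc Z a b ∨ L.Sc Z b a := by
  obtain ⟨hab, W, hW, hT⟩ := h
  have ha' : a ∈ L.T W := by rw [hT]; exact Set.mem_insert _ _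
  have hb' : b ∈ L.T W := by rw [hT]; exact Set.mem_insert_of_mem _ rfl
  obtain ⟨c, t, hc, e⟩ := L.wall hZ hW hab ha hb ha' hb'
  have key : ∀ y, L.lam y W = c * L.lam y Z + t * det3 (L.pt a) (L.pt b) (L.pt y) := by
    intro y
    rw [e, L.lam_add, L.lam_smul, L.lam_smul, L.lam_crs]
  have hlt : ∀ y ∈ L.T Z, y ≠ a → y ≠ b → 0 < t * det3 (L.pt a) (L.pt b) (L.pt y) := by
    intro y hy hya hyb
    have h1 : y ∉ L.T W := by
      rw [hT]
      simp [hya, hyb]
    have h2 := L.lt_of_not_mem ha' h1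
    rw [key, key, det3_self', mul_zero, add_zero, L.T_eq hy ha] at h2
    linarith
  rcases le_or_gt t 0 with ht | ht
  · right
    refine ⟨hb, ha, hab.symm, ?_⟩
    intro y hy hyb hya
    have h1 := hlt y hy hya hyb
    unfold Rr
    rw [det3_swap]
    by_contra hn
    push Not at hn
    nlinarith
  · left
    refine ⟨ha, hb, hab, ?_⟩
    intro y hy hya hyb
    have h1 := hlt y hy hya hyb
    unfold Rr
    exact (mul_pos_iff_of_pos_left ht).mp h1

end Lat

end Pool.Agent.ToST
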