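import Mathlib.Analysis.InnerProductSpace.Basic
import Mathlib.Analysis.Normed.Module.FiniteDimension
import Mathlib.Tactic.Linarith
import Mathlib.Tactic.FieldSimp

/-!
# MP_305fdd_al, torsion room (ST): Minkowski space of dimension 3
-/

set_option autoImplicit false

namespace Pool.Agent.ToST

/-- the underlying space -/
abbrev V : Type := Fin 3 → ℝ

/-- the Minkowski form -/
def B (u v : V) : ℝ := u 0 * v 0 - u 1 * v 1 - u 2 * v 2

/-- the determinant -/
def det3 (u v w : V) : ℝ :=
  u 0 * (v 1 * w 2 - v 2 * w 1) - u 1 * (v 0 * w 2 - v 2 * w 0) + u 2 * (v 0 * w 1 - v 1 * w 0)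

/-- the open cone of future directed timelike vectors -/
def Om : Set V := {Z | 0 < B Z Z ∧ 0 < Z 0}

theorem B_comm (u v : V) : B u v = B v u := by unfold B; ring

theorem B_add_left (u v w : V) : B (u + v) w = B u w + B v w := by
  simp only [B, Pi.add_apply]; ring

theorem B_add_right (u v w : V) : B w (u + v) = B w u + B w v := by
  simp only [B, Pi.add_apply]; ring

theorem B_sub_left (u v w : V) : B (u - v) w = B u w - B v w := by
  simp only [B, Pi.sub_apply]; ring

theorem B_sub_right (u v w : V) : B w (u - v) = B w u - B w v := by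
  simp only [B, Pi.sub_apply]; ring

theorem B_smul_left (c : ℝ) (u v : V) : B (c • u) v = c * B u v := by
  simp only [B, Pi.smul_apply, smul_eq_mul]; ring

theorem B_smul_right (c : ℝ) (u v : V) : B u (c • v) = c * B u v := by
  simp only [B, Pi.smul_apply, smul_eq_mul]; ring

theorem B_neg_left (u v : V) : B (-u) v = - B u v := by
  simp only [B, Pi.neg_apply]; ring

theorem B_neg_right (u v : V) : B u (-v) = - B u v := by
  simp only [B, Pi.neg_apply]; ring

theorem B_zero_left (v : V) : B 0 v = 0 := by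
  simp [B]

theorem B_zero_right (v : V) : B v 0 = 0 := by
  simp [B]

theorem B_nondeg {u : V} (h : ∀ v, B u v = 0) : u = 0 := by
  have h0 := h ![1, 0, 0]
  have h1 := h ![0, 1, 0]
  have h2 := h ![0, 0, 1]
  simp [B] at h0 h1 h2
  ext i
  fin_cases i
  · simpa using h0
  · simpa using h1
  · simpa using h2

theorem continuous_B_right (u : V) : Continuous fun v => B u v := by
  unfold B
  fun_prop

theorem continuous_B_left (u : V) : Continuous fun v => B v u := by
  unfold B
  fun_prop

theorem continuous_B_self : Continuous fun v => B v v := by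
  unfold B
  fun_prop

/-! ### determinants -/

theorem det3_rot (u v w : V) : det3 u v w = det3 v w u := by unfold det3; ring

theorem det3_swap (u v w : V) : det3 u v w = - det3 v u w := by unfold det3; ring

theorem det3_swap' (u v w : V) : det3 u v w = - det3 u w v := by unfold det3; ring

theorem det3_self (u v : V) : det3 u u v = 0 := by unfold det3; ring

theorem det3_self' (u v : V) : det3 u v u = 0 := by unfold det3; ring

theorem det3_self'' (u v : V) : det3 v u u = 0 := by unfold det3; ring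

/-- the Cramer identity -/
theorem cramer (a b c d : V) :
    det3 b c d • a - det3 a c d • b + det3 a b d • c - det3 a b c • d = 0 := by
  ext i
  fin_cases i <;>
    simp only [det3, Pi.add_apply, Pi.sub_apply, Pi.smul_apply, smul_eq_mul, Pi.zero_apply,
      Fin.zero_eta, Fin.mk_one, Fin.reduceFinMk] <;> ring

/-- the vector representing `det3 u v ·` -/
def crs (u v : V) : V :=
  ![u 1 * v 2 - u 2 * v 1, u 0 * v 2 - u 2 * v 0, -(u 0 * v 1 - u 1 * v 0)]

theorem B_crs (u v w : V) : B (crs u v) w = det3 u v w := by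
  simp [B, crs, det3]
  ring

/-! ### the cone -/

theorem Om_open : IsOpen Om := by
  apply IsOpen.inter
  · exact isOpen_lt continuous_const continuous_B_self
  · exact isOpen_lt continuous_const (continuous_apply 0)

theorem Om_smul {c : ℝ} (hc : 0 < c) {Z : V} (hZ : Z ∈ Om) : c • Z ∈ Om := by
  refine ⟨?_, ?_⟩
  · rw [B_smul_left, B_smul_right]
    exact mul_pos hc (mul_pos hc hZ.1)
  · simpa using mul_pos hc hZ.2

/-- the main estimate: two vectors of `Om` have positive product (also with the boundary) -/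
theorem B_pos' {Z W : V} (hZ : Z ∈ Om) (hW : 0 ≤ B W W) (hW0 : 0 < W 0) : 0 < B Z W := by
  obtain ⟨h1, h2⟩ := hZ
  unfold B at *
  have h3 : (Z 1 * W 1 + Z 2 * W 2) ^ 2 ≤ (Z 1 ^ 2 + Z 2 ^ 2) * (W 1 ^ 2 + W 2 ^ 2) := by
    nlinarith [sq_nonneg (Z 1 * W 2 - Z 2 * W 1)]
  have h4 : (Z 1 * W 1 + Z 2 * W 2) ^ 2 < (Z 0 * W 0) ^ 2 := by
    have h5 : Z 1 ^ 2 + Z 2 ^ 2 < Z 0 ^ 2 := by nlinarith
    have h6 : W 1 ^ 2 + W 2 ^ 2 ≤ W 0 ^ 2 := by nlinarith
    have h7 : 0 < W 0 ^ 2 := by positivity
    calc (Z 1 * W 1 + Z 2 * W 2) ^ 2 ≤ (Z 1 ^ 2 + Z 2 ^ 2) * (W 1 ^ 2 + W 2 ^ 2) := h3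
      _ ≤ (Z 1 ^ 2 + Z 2 ^ 2) * W 0 ^ 2 := by
          apply mul_le_mul_of_nonneg_left h6
          positivity
      _ < Z 0 ^ 2 * W 0 ^ 2 := by
          apply mul_lt_mul_of_pos_right h5 h7
      _ = (Z 0 * W 0) ^ 2 := by ring
  have h8 : Z 1 * W 1 + Z 2 * W 2 < Z 0 * W 0 :=
    lt_of_pow_lt_pow_left₀ 2 (by positivity) h4
  linarith

theorem B_pos {Z W : V} (hZ : Z ∈ Om) (hW : W ∈ Om) : 0 < B Z W :=
  B_pos' hZ hW.1.le hW.2

theorem Om_add {Z W : V} (hZ : Z ∈ Om) (hW : W ∈ Om) : Z + W ∈ Om := by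
  refine ⟨?_, ?_⟩
  · rw [B_add_left, B_add_right, B_add_right, B_comm W Z]
    have := B_pos hZ hW
    have := hZ.1
    have := hW.1
    linarith
  · simpa using add_pos hZ.2 hW.2

theorem Om_convex : Convex ℝ Om := by
  intro x hx y hy a b ha hb hab
  rcases ha.eq_or_lt with h | h
  · subst h
    have : b = 1 := by linarith
    subst this
    simpa using hy
  · rcases hb.eq_or_lt with h' | h'
    · subst h'
      have : a = 1 := by linarith
      subst this
      simpa using hx
    · exact Om_add (Om_smul h hx) (Om_smul h' hy)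

/-- a timelike vector with positive product with a vector of `Om` is in `Om` -/
theorem mem_Om_of {Z W : V} (hZ : Z ∈ Om) (hW : 0 < B W W) (h : 0 < B Z W) : W ∈ Om := by
  refine ⟨hW, ?_⟩
  by_contra hn
  have hW0 : W 0 ≠ 0 := by
    intro h0
    unfold B at hW
    rw [h0] at hW
    nlinarith [sq_nonneg (W 1), sq_nonneg (W 2)]
  have hlt : 0 < (-W) 0 := by
    have : W 0 < 0 := lt_of_le_of_ne (not_lt.mp hn) hW0
    simpa using this
  have h1 : 0 < B Z (-W) := B_pos' hZ (by rw [B_neg_left, B_neg_right]; linarith) hlt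
  rw [B_neg_right] at h1
  linarith

/-- a vector orthogonal to a vector of `Om` is spacelike -/
theorem B_neg_of_orth {Z v : V} (hZ : Z ∈ Om) (hv : B Z v = 0) (hne : v ≠ 0) : B v v < 0 := by
  by_contra hn
  push Not at hn
  by_cases h0 : v 0 = 0
  · apply hne
    have h1 : v 1 ^ 2 + v 2 ^ 2 ≤ 0 := by
      unfold B at hn
      rw [h0] at hn
      nlinarith
    have h2 : v 1 = 0 := by nlinarith [sq_nonneg (v 1), sq_nonneg (v 2)]
    have h3 : v 2 = 0 := by nlinarith [sq_nonneg (v 1), sq_nonneg (v 2)]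
    ext i
    fin_cases i
    · simpa using h0
    · simpa using h2
    · simpa using h3
  · rcases lt_or_gt_of_ne h0 with h | h
    · have h1 : 0 < B Z (-v) := B_pos' hZ (by rw [B_neg_left, B_neg_right]; linarith)
        (by simpa using h)
      rw [B_neg_right, hv] at h1
      simp at h1
    · have h1 : 0 < B Z v := B_pos' hZ hn h
      rw [hv] at h1
      exact lt_irrefl _ h1

/-- reversed Cauchy-Schwarz with equality case, normalised -/
theorem one_le_B {Z W : V} (hZ : Z ∈ Om) (hW : W ∈ Om) (h1 : B Z Z = 1) (h2 : B W W = 1) :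
    1 ≤ B Z W := by
  by_contra hn
  push Not at hn
  have h3 : B Z (W - B Z W • Z) = 0 := by
    rw [B_sub_right, B_smul_right, h1]; ring
  by_cases h4 : W - B Z W • Z = 0
  · have h5 : W = B Z W • Z := by
      rw [sub_eq_zero] at h4
      exact h4
    have h6 : B W W = (B Z W) ^ 2 := by
      have h7 : B W W = B (B Z W • Z) (B Z W • Z) := by rw [← h5]
      rw [h7, B_smul_left, B_smul_right, h1]
      ring
    have h8 := B_pos hZ hW
    nlinarith
  · have h5 := B_neg_of_orth hZ h3 h4
    simp only [B_sub_left, B_sub_right, B_smul_left, B_smul_right, h1, h2, B_comm W Z] at h5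
    have h8 := B_pos hZ hW
    nlinarith

theorem eq_of_B_eq_one {Z W : V} (hZ : Z ∈ Om) (h1 : B Z Z = 1) (h2 : B W W = 1)
    (h : B Z W = 1) : Z = W := by
  by_contra hn
  have h3 : B Z (W - Z) = 0 := by
    rw [B_sub_right, h1, h]; ring
  have h4 := B_neg_of_orth hZ h3 (by
    intro h0
    apply hn
    rw [sub_eq_zero] at h0
    exact h0.symm)
  rw [B_sub_left, B_sub_right, B_sub_right, h1, h2, B_comm W Z, h] at h4
  linarith

theorem one_lt_B {Z W : V} (hZ : Z ∈ Om) (hW : W ∈ Om) (h1 : B Z Z = 1) (h2 : B W W = 1)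
    (hne : Z ≠ W) : 1 < B Z W := by
  rcases (one_le_B hZ hW h1 h2).lt_or_eq with h | h
  · exact h
  · exact absurd (eq_of_B_eq_one hZ h1 h2 h.symm) hne

/-- strict convexity: a point of the hyperboloid is not a convex combination of three others -/
theorem no_comb {a b c d : V} (hb : b ∈ Om) (hc : c ∈ Om) (hd : d ∈ Om)
    (h1 : B a a = 1) (h2 : B b b = 1) (h3 : B c c = 1) (h4 : B d d = 1) (hbc : b ≠ c)
    {x y z : ℝ} (hx : 0 < x) (hy : 0 < y) (hz : 0 ≤ z) (hs : x + y + z = 1)
    (h : a = x • b + y • c + z • d) : False := by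
  have e1 := one_lt_B hb hc h2 h3 hbc
  have e2 := one_le_B hb hd h2 h4
  have e3 := one_le_B hc hd h3 h4
  have h5 : B a a = x ^ 2 + y ^ 2 + z ^ 2 + 2 * (x * y) * B b c + 2 * (x * z) * B b d +
      2 * (y * z) * B c d := by
    rw [h]
    simp only [B_add_left, B_add_right, B_smul_left, B_smul_right, h2, h3, h4]
    rw [B_comm c b, B_comm d b, B_comm d c]
    ring
  rw [h1] at h5
  have h6 : (x + y + z) ^ 2 = 1 := by rw [hs]; ring
  have h7 : x * y < (x * y) * B b c := by
    have : 0 < x * y := mul_pos hx hy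
    nlinarith
  have h8 : x * z ≤ (x * z) * B b d := by
    have : 0 ≤ x * z := mul_nonneg hx.le hz
    nlinarith
  have h9 : y * z ≤ (y * z) * B c d := by
    have : 0 ≤ y * z := mul_nonneg hy.le hz
    nlinarith
  nlinarith

end Pool.Agent.ToST
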