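import Pool.Agent.Lib.MP_305fdd_al.To.ST.Tile
import Mathlib.Analysis.Convex.Topology

/-!
# MP_305fdd_al, torsion room (ST): the presentation of a group acting on the tiles (Macbeath)

If `x : G → H` satisfies `x g * x h = x (g * h)` whenever the tiles of `1`, `g`, `g h` have a
common point, then there is a homomorphism `G →* H` which agrees with `x` on the neighbours.
-/

set_option autoImplicit false

namespace Pool.Agent.ToST

open Filter Topology

/-- finite closed covers of connected spaces -/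
theorem cover_const {X : Type*} [TopologicalSpace X] [PreconnectedSpace X] {ι β : Type*}
    (I : Set ι) (hI : I.Finite) (A : ι → Set X) (hA : ∀ i ∈ I, IsClosed (A i))
    (hcov : ∀ x, ∃ i ∈ I, x ∈ A i) (a : ι → β)
    (h : ∀ i ∈ I, ∀ j ∈ I, ∀ x, x ∈ A i → x ∈ A j → a i = a j) :
    ∀ i ∈ I, ∀ j ∈ I, (A i).Nonempty → (A j).Nonempty → a i = a j := by
  rintro i hi j hj ⟨x, hx⟩ ⟨y, hy⟩
  by_contra hne
  set U : Set X := ⋃ k ∈ {k | k ∈ I ∧ a k = a i}, A k with hU
  set U' : Set X := ⋃ k ∈ {k | k ∈ I ∧ a k ≠ a i}, A k with hU'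
  have c1 : IsClosed U := by
    apply Set.Finite.isClosed_biUnion (hI.subset fun k hk => hk.1)
    intro k hk
    exact hA k hk.1
  have c2 : IsClosed U' := by
    apply Set.Finite.isClosed_biUnion (hI.subset fun k hk => hk.1)
    intro k hk
    exact hA k hk.1
  have hx' : x ∈ U := Set.mem_iUnion₂.mpr ⟨i, ⟨hi, rfl⟩, hx⟩
  have hy' : y ∈ U' := Set.mem_iUnion₂.mpr ⟨j, ⟨hj, fun e => hne e.symm⟩, hy⟩
  have e1 : U' = Uᶜ := by
    ext z
    constructor
    · intro hz hz'
      obtain ⟨k, hk, hk'⟩ := Set.mem_iUnion₂.mp hz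
      obtain ⟨l, hl, hl'⟩ := Set.mem_iUnion₂.mp hz'
      have e2 := h k hk.1 l hl.1 z hk' hl'
      exact hk.2 (e2.trans hl.2)
    · intro hz
      obtain ⟨k, hk, hk'⟩ := hcov z
      by_cases hki : a k = a i
      · exact absurd (Set.mem_iUnion₂.mpr ⟨k, ⟨hk, hki⟩, hk'⟩) hz
      · exact Set.mem_iUnion₂.mpr ⟨k, ⟨hk, hki⟩, hk'⟩
  have c3 : IsClopen U := by
    refine ⟨c1, ?_⟩
    rw [← isClosed_compl_iff, ← e1]
    exact c2
  rcases isClopen_iff.mp c3 with h0 | h0
  · rw [h0] at hx'
    exact hx'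
  · rw [e1, h0] at hy'
    simp at hy'

namespace Lat

variable {G : Type} [Group G] (L : Lat G)

/-- two tiles have a common point -/
def nb (g h : G) : Prop := ∃ Z ∈ Om, g ∈ L.T Z ∧ h ∈ L.T Z

theorem nb_symm {g h : G} (H : L.nb g h) : L.nb h g := by
  obtain ⟨Z, hZ, h1, h2⟩ := H
  exact ⟨Z, hZ, h2, h1⟩

/-- the parameter of the first point of the tile of `g` behind the wall of `g` and `d` -/
noncomputable def tt (g d : G) (q : V) : ℝ :=
  (L.ht g - L.ht d) / ((L.ht g - L.ht d) + (L.lam d q - L.lam g q))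

/-- the first points on the segments from `P` -/
theorem first_point {g d : G} {q : V} (hq : q ∈ Om) (hg : g ∈ L.T q) (hd : L.ht d < L.ht g)
    (hmax : ∀ h, L.ht h < L.ht g → L.tt g h q ≤ L.tt g d q) :
    ∃ y ∈ Om, y = L.P + L.tt g d q • (q - L.P) ∧ g ∈ L.T y ∧ d ∈ L.T y := by
  set t := L.tt g d q with htt
  have ha : ∀ h, L.ht h < L.ht g → 0 < L.ht g - L.ht h := fun h hh => by linarith
  have hb : ∀ h, 0 ≤ L.lam h q - L.lam g q := fun h => by
    have := hg h
    linarith
  have hden : ∀ h, L.ht h < L.ht g → 0 < (L.ht g - L.ht h) + (L.lam h q - L.lam g q) :=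
    fun h hh => by
      have := ha h hh
      have := hb h
      linarith
  have ht0 : 0 < t := div_pos (ha d hd) (hden d hd)
  have ht1 : t ≤ 1 := by
    rw [htt]
    unfold tt
    rw [div_le_one (hden d hd)]
    have := hb d
    linarith
  have hlam : ∀ h, L.lam h (L.P + t • (q - L.P)) = (1 - t) * L.ht h + t * L.lam h q := by
    intro h
    rw [L.lam_add, L.lam_smul, L.lam_sub]
    change L.ht h + t * (L.lam h q - L.ht h) = _
    ring
  have hyOm : L.P + t • (q - L.P) ∈ Om := by
    have e : L.P + t • (q - L.P) = (1 - t) • L.P + t • q := by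
      rw [smul_sub, sub_smul, one_smul]
      abel
    rw [e]
    exact Om_convex L.P_mem hq (by linarith) ht0.le (by ring)
  have hgy : g ∈ L.T (L.P + t • (q - L.P)) := by
    intro h
    rw [hlam, hlam]
    by_cases hh : L.ht h < L.ht g
    · have h1 : L.tt g h q ≤ t := hmax h hh
      unfold tt at h1
      rw [div_le_iff₀ (hden h hh)] at h1
      nlinarith
    · have h1 : L.ht g ≤ L.ht h := not_lt.mp hh
      have h2 := hg h
      have h3 := mul_le_mul_of_nonneg_left h1 (by linarith : 0 ≤ 1 - t)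
      have h4 := mul_le_mul_of_nonneg_left h2 ht0.le
      linarith
  refine ⟨_, hyOm, rfl, hgy, ?_⟩
  apply L.mem_T_of_eq hgy
  rw [hlam, hlam]
  have h1 : t * ((L.ht g - L.ht d) + (L.lam d q - L.lam g q)) = L.ht g - L.ht d := by
    rw [htt]
    unfold tt
    rw [div_mul_cancel₀]
    exact (hden d hd).ne'
  nlinarith

theorem same_ht {g h : G} {q : V} (hq : L.lam g q = L.lam h q) (hh : L.ht g = L.ht h) (t : ℝ) :
    L.lam g (L.P + t • (q - L.P)) = L.lam h (L.P + t • (q - L.P)) := by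
  rw [L.lam_add, L.lam_smul, L.lam_sub, L.lam_add, L.lam_smul, L.lam_sub, hq]
  change L.ht g + t * (_ - L.ht g) = L.ht h + t * (_ - L.ht h)
  rw [hh]

theorem exists_first {g : G} (h1 : g ≠ 1) (q : V) :
    ∃ d, L.ht d < L.ht g ∧ ∀ h, L.ht h < L.ht g → L.tt g h q ≤ L.tt g d q := by
  have hf : {h : G | L.ht h < L.ht g}.Finite := (L.ht_fin (L.ht g)).subset fun h hh => by
    change L.ht h < L.ht g at hh
    exact hh.le
  obtain ⟨d, hd, hmax⟩ := Set.exists_max_image _ (fun h => L.tt g h q) hf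
    ⟨1, by
      change L.ht 1 < L.ht g
      rw [L.ht_one]
      exact L.one_lt_ht h1⟩
  exact ⟨d, hd, hmax⟩

/-- there is always a lower neighbour -/
theorem exists_lower {g : G} (h1 : g ≠ 1) : ∃ d, L.ht d < L.ht g ∧ L.nb d g := by
  have h2 : g ∈ L.T (L.pt g) := by
    have := (L.mem_T_act (Z := L.P) (g := g) (h := 1)).mpr L.one_mem_T_P
    rwa [mul_one] at this
  obtain ⟨d, hd, hmax⟩ := L.exists_first h1 (L.pt g)
  obtain ⟨y, hy, -, hy1, hy2⟩ := L.first_point (L.pt_mem g) h2 hd hmax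
  exact ⟨d, hd, y, hy, hy2, hy1⟩

/-- the number of the elements below `g` -/
noncomputable def num (g : G) : ℕ := Nat.card {h : G // L.ht h < L.ht g}

theorem num_lt {g h : G} (hh : L.ht h < L.ht g) : L.num h < L.num g := by
  have f1 : {k : G | L.ht k < L.ht g}.Finite := (L.ht_fin (L.ht g)).subset fun k hk => by
    change L.ht k < L.ht g at hk
    exact hk.le
  have e1 : L.num h = {k : G | L.ht k < L.ht h}.ncard := rfl
  have e2 : L.num g = {k : G | L.ht k < L.ht g}.ncard := rfl
  rw [e1, e2]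
  apply Set.ncard_lt_ncard _ f1
  refine ⟨fun k hk => lt_trans hk hh, fun hs => ?_⟩
  have h1 : L.ht h < L.ht h := hs (show h ∈ {k : G | L.ht k < L.ht g} from hh)
  exact lt_irrefl _ h1

variable {H : Type} [Group H] (x : G → H)

open Classical in
/-- the candidate for the homomorphism -/
noncomputable def sig (g : G) : H :=
  if h : ∃ d, L.ht d < L.ht g ∧ L.nb d g then sig h.choose * x (h.choose⁻¹ * g) else 1
termination_by L.num g
decreasing_by exact L.num_lt h.choose_spec.1

theorem sig_one : L.sig x 1 = 1 := by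
  rw [sig, dif_neg]
  rintro ⟨d, hd, -⟩
  rw [L.ht_one] at hd
  have := L.one_le_ht d
  linarith

theorem sig_eq {g : G} (hg : g ≠ 1) : ∃ d, L.ht d < L.ht g ∧ L.nb d g ∧
    L.sig x g = L.sig x d * x (d⁻¹ * g) := by
  have h := L.exists_lower hg
  refine ⟨h.choose, h.choose_spec.1, h.choose_spec.2, ?_⟩
  rw [sig, dif_pos h]

variable {x}

/-- the cocycle property -/
def Coc (x : G → H) : Prop :=
  ∀ Z ∈ Om, ∀ a ∈ L.T Z, ∀ b ∈ L.T Z, ∀ c ∈ L.T Z, x (a⁻¹ * b) * x (b⁻¹ * c) = x (a⁻¹ * c)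

theorem coc_of (hx : ∀ g h, (∃ Z ∈ Om, 1 ∈ L.T Z ∧ g ∈ L.T Z ∧ g * h ∈ L.T Z) →
    x g * x h = x (g * h)) : L.Coc x := by
  intro Z hZ a ha b hb c hc
  have := hx (a⁻¹ * b) (b⁻¹ * c) ⟨L.act a⁻¹ Z, L.Om_act _ _ hZ, ?_, ?_, ?_⟩
  · rw [this]
    congr 1
    group
  · rw [mem_T_act']
    simpa using ha
  · rw [mem_T_act']
    simpa using hb
  · rw [mem_T_act']
    simpa [mul_assoc] using hc

variable (hx : L.Coc x)

include hx

theorem x_one : x 1 = 1 := by
  have h := hx L.P L.P_mem 1 L.one_mem_T_P 1 L.one_mem_T_P 1 L.one_mem_T_P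
  simpa using h

theorem x_inv {Z : V} (hZ : Z ∈ Om) {a b : G} (ha : a ∈ L.T Z) (hb : b ∈ L.T Z) :
    x (a⁻¹ * b) * x (b⁻¹ * a) = 1 := by
  rw [hx Z hZ a ha b hb a ha, inv_mul_cancel, L.x_one hx]

/-- the main step: lower neighbours -/
theorem step_lower {g : G} (IH : ∀ a b, L.ht a < L.ht g → L.ht b < L.ht g → L.nb a b →
      L.sig x b = L.sig x a * x (a⁻¹ * b)) {d : G} (hd : L.ht d < L.ht g) (hn : L.nb d g) :
    L.sig x g = L.sig x d * x (d⁻¹ * g) := by
  have hg1 : g ≠ 1 := by
    rintro rfl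
    rw [L.ht_one] at hd
    have := L.one_le_ht d
    linarith
  obtain ⟨d0, hd0, hn0, e0⟩ := L.sig_eq x hg1
  rw [e0]
  set I : Set G := {h | L.ht h < L.ht g} with hI
  have hIf : I.Finite := (L.ht_fin (L.ht g)).subset fun h hh => by
    change L.ht h < L.ht g at hh
    exact hh.le
  let X : Set V := L.Cl g ∩ Om
  have hX : Convex ℝ X := (L.Cl_convex g).inter Om_convex
  have : PreconnectedSpace X := Subtype.preconnectedSpace hX.isPreconnected
  let A : G → Set X := fun h => {q | ∀ k ∈ I, L.tt g k q ≤ L.tt g h q}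
  have hcont : ∀ h ∈ I, Continuous fun q : X => L.tt g h q := by
    intro h hh
    unfold tt
    apply Continuous.div
    · exact continuous_const
    · apply Continuous.add continuous_const
      apply Continuous.sub
      · exact (L.continuous_lam h).comp continuous_subtype_val
      · exact (L.continuous_lam g).comp continuous_subtype_val
    · intro q
      have h1 : L.lam g q ≤ L.lam h q := q.2.1 h
      have h2 : L.ht h < L.ht g := hh
      have : 0 < (L.ht g - L.ht h) + (L.lam h q - L.lam g q) := by linarith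
      exact this.ne'
  have hA : ∀ h ∈ I, IsClosed (A h) := by
    intro h hh
    have e : A h = ⋂ k ∈ I, {q : X | L.tt g k q ≤ L.tt g h q} := by
      ext q
      simp [A]
    rw [e]
    apply isClosed_biInter
    intro k hk
    exact isClosed_le (hcont k hk) (hcont h hh)
  have hcov : ∀ q : X, ∃ h ∈ I, q ∈ A h := by
    intro q
    obtain ⟨h, hh, hmax⟩ := L.exists_first hg1 (q : V)
    exact ⟨h, hh, hmax⟩
  have hag : ∀ i ∈ I, ∀ j ∈ I, ∀ q, q ∈ A i → q ∈ A j →
      L.sig x i * x (i⁻¹ * g) = L.sig x j * x (j⁻¹ * g) := by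
    intro i hi j hj q hqi hqj
    have et : L.tt g i q = L.tt g j q := le_antisymm (hqj i hi) (hqi j hj)
    obtain ⟨y, hy, ey, hgy, hiy⟩ := L.first_point q.2.2 q.2.1 hi hqi
    obtain ⟨y', hy', ey', hgy', hjy⟩ := L.first_point q.2.2 q.2.1 hj hqj
    have : y' = y := by rw [ey', ey, et]
    rw [this] at hjy
    have h1 := IH i j hi hj ⟨y, hy, hiy, hjy⟩
    rw [h1, mul_assoc, hx y hy i hiy j hjy g hgy]
  have hne : ∀ h ∈ I, L.nb h g → (A h).Nonempty := by
    rintro h hh ⟨Z, hZ, hhZ, hgZ⟩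
    refine ⟨⟨Z, hgZ, hZ⟩, ?_⟩
    intro k hk
    change L.tt g k Z ≤ L.tt g h Z
    have e1 : L.tt g h Z = 1 := by
      unfold tt
      rw [L.T_eq hhZ hgZ, sub_self, add_zero, div_self]
      have : L.ht h < L.ht g := hh
      linarith
    rw [e1]
    unfold tt
    have h2 : L.ht k < L.ht g := hk
    have h3 : L.lam g Z ≤ L.lam k Z := hgZ k
    rw [div_le_one (by linarith)]
    linarith
  exact cover_const I hIf A hA hcov (fun h => L.sig x h * x (h⁻¹ * g)) hag d0 hd0 d hd
    (hne d0 hd0 hn0) (hne d hd hn)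

theorem step (n : ℕ) : ∀ a b, L.num a < n → L.num b < n → L.nb a b →
    L.sig x b = L.sig x a * x (a⁻¹ * b) := by
  induction n with
  | zero => intro a b h; omega
  | succ n ih =>
    have low : ∀ g, L.num g < n + 1 → ∀ d, L.ht d < L.ht g → L.nb d g →
        L.sig x g = L.sig x d * x (d⁻¹ * g) := by
      intro g hg d hd hn
      apply L.step_lower hx _ hd hn
      intro a b ha hb hab
      exact ih a b (lt_of_lt_of_le (L.num_lt ha) (by omega))
        (lt_of_lt_of_le (L.num_lt hb) (by omega)) hab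
    intro a b ha hb hab
    rcases lt_trichotomy (L.ht a) (L.ht b) with h | h | h
    · exact low b hb a h hab
    · by_cases hb1 : b = 1
      · have ha1 : a = 1 := by
          by_contra hn
          have := L.one_lt_ht hn
          rw [hb1, L.ht_one] at h
          linarith
        rw [ha1, hb1]
        simp [L.x_one hx]
      · obtain ⟨Z, hZ, haZ, hbZ⟩ := hab
        obtain ⟨d, hd, hmax⟩ := L.exists_first hb1 Z
        obtain ⟨y, hy, ey, hby, hdy⟩ := L.first_point hZ hbZ hd hmax
        have hay : a ∈ L.T y := by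
          apply L.mem_T_of_eq hby
          rw [ey]
          exact (L.same_ht (L.T_eq haZ hbZ) h _).le
        have e1 := low b hb d hd ⟨y, hy, hdy, hby⟩
        have e2 := low a ha d (by rw [h]; exact hd) ⟨y, hy, hdy, hay⟩
        rw [e1, e2, mul_assoc, hx y hy d hdy a hay b hby]
    · have e1 := low a ha b h (L.nb_symm hab)
      obtain ⟨Z, hZ, haZ, hbZ⟩ := hab
      have e2 := L.x_inv hx hZ hbZ haZ
      rw [e1, mul_assoc, e2, mul_one]

theorem sig_nb {a b : G} (h : L.nb a b) : L.sig x b = L.sig x a * x (a⁻¹ * b) :=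
  L.step hx (max (L.num a) (L.num b) + 1) a b
    (lt_of_le_of_lt (le_max_left _ _) (Nat.lt_succ_self _))
    (lt_of_le_of_lt (le_max_right _ _) (Nat.lt_succ_self _)) h

omit hx in
theorem nb_left {a b : G} (c : G) (h : L.nb a b) : L.nb (c * a) (c * b) := by
  obtain ⟨Z, hZ, h1, h2⟩ := h
  exact ⟨L.act c Z, L.Om_act _ _ hZ, L.mem_T_act.mpr h1, L.mem_T_act.mpr h2⟩

omit hx in
/-- the neighbours of `1` generate -/
theorem closure_Nb : Subgroup.closure L.Nb = ⊤ := by
  rw [eq_top_iff]
  suffices h : ∀ n : ℕ, ∀ g : G, L.num g < n → g ∈ Subgroup.closure L.Nb from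
    fun g _ => h (L.num g + 1) g (Nat.lt_succ_self _)
  intro n
  induction n with
  | zero => intro g h; omega
  | succ n ih =>
    intro g hg
    by_cases h1 : g = 1
    · rw [h1]
      exact Subgroup.one_mem _
    · obtain ⟨d, hd, Z, hZ, hdZ, hgZ⟩ := L.exists_lower h1
      have h2 : d ∈ Subgroup.closure L.Nb := ih d (lt_of_lt_of_le (L.num_lt hd) (by omega))
      have h3 : d⁻¹ * g ∈ Subgroup.closure L.Nb :=
        Subgroup.subset_closure (L.Nb_of_T hZ hdZ hgZ)
      have := Subgroup.mul_mem _ h2 h3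
      rwa [mul_inv_cancel_left] at this

theorem sig_mul (g h : G) : L.sig x (g * h) = L.sig x g * L.sig x h := by
  have key : ∀ s ∈ L.Nb, ∀ g, L.sig x (g * s) = L.sig x g * x s := by
    intro s hs g
    have h1 : L.nb 1 s := hs
    have h2 := L.nb_left g h1
    rw [mul_one] at h2
    have := L.sig_nb hx h2
    rwa [inv_mul_cancel_left] at this
  have key1 : ∀ s ∈ L.Nb, L.sig x s = x s := by
    intro s hs
    have := key s hs 1
    rwa [one_mul, L.sig_one, one_mul] at this
  have hh : h ∈ Subgroup.closure L.Nb := by rw [L.closure_Nb]; exact Subgroup.mem_top _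
  revert g
  induction hh using Subgroup.closure_induction with
  | mem s hs =>
    intro g
    rw [key s hs, key1 s hs]
  | one =>
    intro g
    rw [mul_one, L.sig_one, mul_one]
  | mul a b _ _ iha ihb =>
    intro g
    rw [← mul_assoc, ihb, iha, ihb, mul_assoc]
  | inv a _ iha =>
    intro g
    have h1 := iha a⁻¹
    rw [inv_mul_cancel, L.sig_one] at h1
    have h2 := iha (g * a⁻¹)
    rw [inv_mul_cancel_right] at h2
    rw [h2, mul_assoc]
    have h3 : L.sig x a * L.sig x a⁻¹ = 1 := mul_eq_one_comm.mp h1.symm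
    rw [h3, mul_one]

/-- THEOREM B (Macbeath) -/
theorem exists_hom : ∃ φ : G →* H, ∀ g ∈ L.Nb, φ g = x g := by
  refine ⟨MonoidHom.mk' (L.sig x) (L.sig_mul hx), ?_⟩
  intro g hg
  have h1 : L.nb 1 g := hg
  have := L.sig_nb hx h1
  rw [L.sig_one, one_mul, inv_one, one_mul] at this
  exact this

end Lat

end Pool.Agent.ToST
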