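import Pool.Agent.Lib.MP_305fdd_al.To.ST.Loc
import Pool.Agent.Lib.MP_305fdd_al.To.ST.Mac
import Mathlib.Analysis.Convex.Topology
import Mathlib.Analysis.Normed.Module.Connected

/-!
# MP_305fdd_al, torsion room (ST): the boundary of a tile is connected
-/

set_option autoImplicit false

namespace Pool.Agent.ToST

open Filter Topology

namespace Lat

variable {G : Type} [Group G] (L : Lat G)

/-- the tile of `1` is cut out by its neighbours -/
theorem cut {Z : V} (hZ : Z ∈ Om) (h : ∀ k ∈ L.Nb, L.lam 1 Z ≤ L.lam k Z) : 1 ∈ L.T Z := by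
  by_contra hn
  -- the last point of the tile on the segment from `P` to `Z`
  set γ : ℝ → V := fun s => L.P + s • (Z - L.P) with hγ
  have hγc : Continuous γ := by fun_prop
  have hγOm : ∀ s, 0 ≤ s → s ≤ 1 → γ s ∈ Om := by
    intro s h0 h1
    have e : γ s = (1 - s) • L.P + s • Z := by
      rw [hγ]
      simp only [smul_sub, sub_smul, one_smul]
      abel
    rw [e]
    exact Om_convex L.P_mem hZ (by linarith) h0 (by ring)
  have hlam : ∀ k s, L.lam k (γ s) = (1 - s) * L.ht k + s * L.lam k Z := by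
    intro k s
    rw [hγ]
    simp only []
    rw [L.lam_add, L.lam_smul, L.lam_sub]
    change L.ht k + s * (L.lam k Z - L.ht k) = _
    ring
  set A : Set ℝ := Set.Icc 0 1 ∩ γ ⁻¹' L.Cl 1 with hA
  have hAc : IsClosed A := isClosed_Icc.inter ((L.Cl_closed 1).preimage hγc)
  have hA0 : (0 : ℝ) ∈ A := by
    refine ⟨⟨le_refl _, zero_le_one⟩, ?_⟩
    change γ 0 ∈ L.Cl 1
    have : γ 0 = L.P := by simp [hγ]
    rw [this]
    exact L.one_mem_T_P
  have hbd : BddAbove A := ⟨1, fun s hs => hs.1.2⟩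
  set s1 := sSup A with hs1
  have hs1A : s1 ∈ A := hAc.csSup_mem ⟨0, hA0⟩ hbd
  have hs1lt : s1 < 1 := by
    rcases hs1A.1.2.lt_or_eq with h1 | h1
    · exact h1
    · exfalso
      apply hn
      have h2 : γ s1 ∈ L.Cl 1 := hs1A.2
      have h3 : γ s1 = Z := by rw [h1]; simp [hγ]
      rw [h3] at h2
      exact h2
  have h1 : Tendsto γ (𝓝 s1) (𝓝 (γ s1)) := hγc.tendsto s1
  have h2 := h1.eventually (L.T_local (hγOm s1 hs1A.1.1 hs1lt.le))
  have h3 : ∀ᶠ s in 𝓝[>] s1, γ s ∈ Om ∧ L.T (γ s) ⊆ L.T (γ s1) := nhdsWithin_le_nhds h2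
  have h4 : ∀ᶠ s in 𝓝[>] s1, s ∈ Set.Ioo s1 1 := Ioo_mem_nhdsGT hs1lt
  obtain ⟨s, ⟨hs2, hs3⟩, hs4⟩ := (h3.and h4).exists
  obtain ⟨k, hk⟩ := L.T_nonempty hs2
  have hk1 : 1 ∉ L.T (γ s) := by
    intro h5
    have : s ≤ s1 := le_csSup hbd ⟨⟨by linarith [hs1A.1.1, hs4.1], hs4.2.le⟩, h5⟩
    linarith [hs4.1]
  have hkNb : k ∈ L.Nb := ⟨γ s1, hγOm s1 hs1A.1.1 hs1lt.le, hs1A.2, hs3 hk⟩
  have h5 := h k hkNb
  have h6 := L.lt_of_not_mem hk hk1
  have h7 := L.T_eq (hs3 hk) hs1A.2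
  rw [hlam, hlam] at h6 h7
  have h8 := hs1A.1.1
  have h9 := hs4.1
  have h10 := hs4.2
  -- `(ht k - ht 1)` and `(lam k Z - lam 1 Z)`
  set a := L.ht k - L.ht 1 with ha
  set b := L.lam k Z - L.lam 1 Z with hb
  have e1 : (1 - s1) * a + s1 * b = 0 := by
    rw [ha, hb]
    linarith
  have e2 : (1 - s) * a + s * b < 0 := by
    rw [ha, hb]
    linarith
  have hb0 : 0 ≤ b := by linarith
  have ha0 : a ≤ 0 := by
    by_contra hn
    push Not at hn
    have : 0 < (1 - s1) * a := mul_pos (by linarith) hn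
    have : 0 ≤ s1 * b := mul_nonneg h8 hb0
    linarith
  have ha1 : 0 ≤ a := by
    rw [ha, L.ht_one]
    linarith [L.one_le_ht k]
  have ha2 : a = 0 := le_antisymm ha0 ha1
  rw [ha2] at e2
  have : 0 ≤ s * b := mul_nonneg (by linarith) hb0
  linarith

/-- the slope at which the ray in direction `v` meets the wall of `h` -/
noncomputable def sl (h : G) (v : V) : ℝ := - L.lam h v / (L.ht h - 1)

theorem sl_cont (h : G) : Continuous (L.sl h) := by
  unfold sl
  exact (L.continuous_lam h).neg.div_const _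

/-- the points of the boundary of the tile -/
theorem wall_iff {v : V} (hv : L.lam 1 v = 0) {h : G} (hh : h ≠ 1) (t : ℝ) :
    (L.lam 1 (L.P + t • v) ≤ L.lam h (L.P + t • v) ↔ t * L.sl h v ≤ 1) ∧
      (L.lam 1 (L.P + t • v) = L.lam h (L.P + t • v) ↔ t * L.sl h v = 1) := by
  have h1 : 0 < L.ht h - 1 := by linarith [L.one_lt_ht hh]
  have e1 : L.lam 1 (L.P + t • v) = 1 := by
    rw [L.lam_add, L.lam_smul, hv, mul_zero, add_zero]
    exact L.ht_one
  have e2 : L.lam h (L.P + t • v) = L.ht h + t * L.lam h v := by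
    rw [L.lam_add, L.lam_smul]
    rfl
  have e3 : t * L.sl h v = (-(t * L.lam h v)) / (L.ht h - 1) := by
    unfold sl
    rw [neg_div, neg_div, mul_neg, mul_div_assoc]
  rw [e1, e2, e3, div_le_one h1, div_eq_one_iff_eq h1.ne']
  constructor
  · constructor <;> intro H <;> linarith
  · constructor <;> intro H <;> linarith

theorem sl_smul (h : G) (c : ℝ) (v : V) : L.sl h (c • v) = c * L.sl h v := by
  unfold sl
  rw [L.lam_smul]
  ring

/-- every ray leaves the tile -/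
theorem exists_sl {v : V} (hv : L.lam 1 v = 0) (hv0 : v ≠ 0) :
    ∃ h ∈ L.Nb, h ≠ 1 ∧ 0 < L.sl h v ∧ (∀ k ∈ L.Nb, k ≠ 1 → L.sl k v ≤ L.sl h v) ∧
      L.P + (L.sl h v)⁻¹ • v ∈ Om := by
  obtain ⟨R, hR1, hR⟩ := L.coc'
  have hPv : B L.P v = 0 := by
    unfold lam at hv
    rwa [L.pt_one] at hv
  have hvv : B v v < 0 := B_neg_of_orth L.P_mem hPv hv0
  set q := - B v v with hq
  have hq0 : 0 < q := by linarith
  have hB : ∀ t : ℝ, B (L.P + t • v) (L.P + t • v) = 1 - t ^ 2 * q := by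
    intro t
    simp only [B_add_left, B_add_right, B_smul_left, B_smul_right, L.P_one, B_comm v L.P, hPv, hq]
    ring
  have hOm : ∀ t : ℝ, 0 < 1 - t ^ 2 * q → L.P + t • v ∈ Om := by
    intro t ht
    apply mem_Om_of L.P_mem
    · rw [hB]; exact ht
    · rw [B_add_right, B_smul_right, L.P_one, hPv]
      norm_num
  -- a point on the ray, in `Om`, outside the tile
  obtain ⟨t0, ht0, ht0', ht0''⟩ : ∃ t0 : ℝ, 0 < t0 ∧ 0 < 1 - t0 ^ 2 * q ∧
      R * (1 - t0 ^ 2 * q) < 1 := by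
    refine ⟨Real.sqrt ((1 - 1 / (2 * R)) / q), ?_, ?_, ?_⟩
    · apply Real.sqrt_pos.mpr
      apply div_pos _ hq0
      have : 1 / (2 * R) ≤ 1 / 2 := by
        apply one_div_le_one_div_of_le <;> linarith
      linarith
    · rw [Real.sq_sqrt, div_mul_cancel₀ _ hq0.ne']
      · have : 0 < 1 / (2 * R) := by positivity
        linarith
      · apply div_nonneg _ hq0.le
        have : 1 / (2 * R) ≤ 1 / 2 := by
          apply one_div_le_one_div_of_le <;> linarith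
        linarith
    · rw [Real.sq_sqrt, div_mul_cancel₀ _ hq0.ne']
      · have : R * (1 - (1 - 1 / (2 * R))) = 1 / 2 := by
          field_simp
          ring
        rw [this]
        norm_num
      · apply div_nonneg _ hq0.le
        have : 1 / (2 * R) ≤ 1 / 2 := by
          apply one_div_le_one_div_of_le <;> linarith
        linarith
  have h1 : (1 : G) ∉ L.T (L.P + t0 • v) := by
    intro h
    have h2 := hR _ (hOm t0 ht0') h
    rw [hB] at h2
    have e1 : L.lam 1 (L.P + t0 • v) = 1 := by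
      rw [L.lam_add, L.lam_smul, hv, mul_zero, add_zero]
      exact L.ht_one
    rw [e1] at h2
    linarith
  have h2 : ∃ k ∈ L.Nb, L.lam k (L.P + t0 • v) < L.lam 1 (L.P + t0 • v) := by
    by_contra hn
    push Not at hn
    exact h1 (L.cut (hOm t0 ht0') hn)
  obtain ⟨k, hk, hk'⟩ := h2
  have hk1 : k ≠ 1 := by
    rintro rfl
    exact lt_irrefl _ hk'
  have hkt : 1 < t0 * L.sl k v := by
    by_contra hn
    push Not at hn
    have := (L.wall_iff hv hk1 t0).1.mpr hn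
    linarith
  have hfin : {h | h ∈ L.Nb ∧ h ≠ 1}.Finite := L.Nb_finite.subset fun h hh => hh.1
  obtain ⟨h, hh, hmax⟩ := Set.exists_max_image _ (fun h => L.sl h v) hfin ⟨k, hk, hk1⟩
  have h3 : L.sl k v ≤ L.sl h v := hmax k ⟨hk, hk1⟩
  have h4 : 1 < t0 * L.sl h v := lt_of_lt_of_le hkt (mul_le_mul_of_nonneg_left h3 ht0.le)
  have h5 : 0 < L.sl h v := by
    by_contra hn
    push Not at hn
    nlinarith
  refine ⟨h, hh.1, hh.2, h5, fun k hk hk1 => hmax k ⟨hk, hk1⟩, hOm _ ?_⟩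
  have h6 : (L.sl h v)⁻¹ < t0 := by
    rw [inv_lt_iff_one_lt_mul₀ h5]
    exact h4
  have h7 : ((L.sl h v)⁻¹) ^ 2 < t0 ^ 2 := by
    apply pow_lt_pow_left₀ h6 (inv_pos.mpr h5).le
    norm_num
  nlinarith

/-- the first point of the boundary in direction `v` -/
theorem bdry {v : V} (hv : L.lam 1 v = 0) {h : G} (hh1 : h ≠ 1) (hpos : 0 < L.sl h v)
    (hmax : ∀ k ∈ L.Nb, k ≠ 1 → L.sl k v ≤ L.sl h v) (hOm : L.P + (L.sl h v)⁻¹ • v ∈ Om) :
    1 ∈ L.T (L.P + (L.sl h v)⁻¹ • v) ∧ h ∈ L.T (L.P + (L.sl h v)⁻¹ • v) := by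
  have h1 : 1 ∈ L.T (L.P + (L.sl h v)⁻¹ • v) := by
    apply L.cut hOm
    intro k hk
    by_cases hk1 : k = 1
    · rw [hk1]
    · rw [(L.wall_iff hv hk1 _).1, inv_mul_le_iff₀ hpos, mul_one]
      exact hmax k hk hk1
  refine ⟨h1, L.mem_T_of_eq h1 (le_of_eq ?_)⟩
  symm
  rw [(L.wall_iff hv hh1 _).2]
  exact inv_mul_cancel₀ hpos.ne'

theorem agree {c : G → Prop}
    (hc : ∀ Z ∈ Om, 1 ∈ L.T Z → ∀ a b, L.Sc Z a 1 → L.Sc Z 1 b → (c a ↔ c b)) {Z : V}
    (hZ : Z ∈ Om) (h1 : 1 ∈ L.T Z) {i j : G} (hi : L.Sd i) (hj : L.Sd j) (hi' : i ∈ L.T Z)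
    (hj' : j ∈ L.T Z) : c i ↔ c j := by
  rcases L.Sc_of_side hZ hi h1 hi' with a | a <;> rcases L.Sc_of_side hZ hj h1 hj' with b | b
  · rw [(L.co hZ).sc_unique a b]
  · exact (hc Z hZ h1 j i b a).symm
  · exact hc Z hZ h1 i j a b
  · rw [(L.co hZ).pr_unique a b]

/-- the boundary of the tile of `1` is connected: colourings of the sides which agree at the
vertices are constant -/
theorem mono_geo (c : G → Prop)
    (hc : ∀ Z ∈ Om, 1 ∈ L.T Z → ∀ a b, L.Sc Z a 1 → L.Sc Z 1 b → (c a ↔ c b)) :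
    ∀ e e', L.Sd e → L.Sd e' → c e → c e' := by
  let X : Set (ℝ × ℝ) := {(0 : ℝ × ℝ)}ᶜ
  have hX : IsConnected X := by
    apply isConnected_compl_singleton_of_one_lt_rank
    rw [rank_prod', Module.rank_self]
    norm_num
  have : PreconnectedSpace X := Subtype.preconnectedSpace hX.isPreconnected
  have hP0 : L.P 0 ≠ 0 := L.P_mem.2.ne'
  let ψ : ℝ × ℝ → V := fun x => ![(L.P 1 * x.1 + L.P 2 * x.2) / L.P 0, x.1, x.2]
  have hψc : Continuous ψ := by
    apply continuous_pi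
    intro i
    fin_cases i <;> simp [ψ] <;> fun_prop
  have hψ : ∀ x, L.lam 1 (ψ x) = 0 := by
    intro x
    unfold lam
    rw [L.pt_one]
    simp only [B, ψ, Matrix.cons_val_zero, Matrix.cons_val_one, Matrix.cons_val]
    field_simp
    ring
  have hψ0 : ∀ x ∈ X, ψ x ≠ 0 := by
    intro x hx h
    apply hx
    have h1 := congrFun h 1
    have h2 := congrFun h 2
    simp [ψ] at h1 h2
    exact Prod.ext h1 h2
  let A : G → Set X := fun h => {x | ∀ k ∈ L.Nb, k ≠ 1 → L.sl k (ψ x) ≤ L.sl h (ψ x)}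
  have hcont : ∀ h, Continuous fun x : X => L.sl h (ψ x) := fun h =>
    (L.sl_cont h).comp (hψc.comp continuous_subtype_val)
  have hA : ∀ h ∈ {h | L.Sd h}, IsClosed (A h) := by
    intro h _
    have e : A h = ⋂ k ∈ {k | k ∈ L.Nb ∧ k ≠ 1}, {x : X | L.sl k (ψ x) ≤ L.sl h (ψ x)} := by
      ext x
      simp [A]
    rw [e]
    exact isClosed_biInter fun k _ => isClosed_le (hcont k) (hcont h)
  have hcov : ∀ x : X, ∃ h ∈ {h | L.Sd h}, x ∈ A h := by
    intro x
    obtain ⟨h, hh, hh1, hpos, hmax, hOm⟩ := L.exists_sl (hψ x) (hψ0 x x.2)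
    obtain ⟨m1, mh⟩ := L.bdry (hψ x) hh1 hpos hmax hOm
    obtain ⟨b, hb⟩ := (L.co hOm).exists_sc (L.T_finite hOm) m1 ⟨h, mh, hh1⟩
    have hSd : L.Sd b := by
      have := L.Sd_of_Sc hOm hb
      rwa [inv_one, one_mul] at this
    refine ⟨b, hSd, ?_⟩
    have hb1 : b ≠ 1 := hb.2.2.1.symm
    have h1 := (L.wall_iff (hψ x) hb1 _).2.mp (L.T_eq m1 hb.2.1)
    rw [inv_mul_eq_one₀ hpos.ne'] at h1
    intro k hk hk1
    rw [← h1]
    exact hmax k hk hk1
  have hag : ∀ i ∈ {h | L.Sd h}, ∀ j ∈ {h | L.Sd h}, ∀ x, x ∈ A i → x ∈ A j → c i = c j := by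
    intro i hi j hj x hxi hxj
    obtain ⟨h, hh, hh1, hpos, hmax, hOm⟩ := L.exists_sl (hψ x) (hψ0 x x.2)
    have hi1 : i ≠ 1 := L.Sd_ne hi
    have hj1 : j ≠ 1 := L.Sd_ne hj
    have e1 : L.sl h (ψ x) = L.sl i (ψ x) :=
      le_antisymm (hxi h hh hh1) (hmax i (L.Sd_Nb hi) hi1)
    have e2 : L.sl h (ψ x) = L.sl j (ψ x) :=
      le_antisymm (hxj h hh hh1) (hmax j (L.Sd_Nb hj) hj1)
    obtain ⟨m1, mi⟩ := L.bdry (hψ x) hi1 (by rw [← e1]; exact hpos) hxi
      (by rw [← e1]; exact hOm)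
    obtain ⟨-, mj⟩ := L.bdry (hψ x) hj1 (by rw [← e2]; exact hpos) hxj
      (by rw [← e2]; exact hOm)
    rw [← e1] at m1 mi
    rw [← e2] at mj
    exact propext (L.agree hc hOm m1 hi hj mi mj)
  have hne : ∀ e, L.Sd e → (A e).Nonempty := by
    intro e he
    have he1 : e ≠ 1 := L.Sd_ne he
    obtain ⟨-, Z, hZ, hT⟩ := he
    have hk : 0 < L.lam 1 Z := L.lam_pos 1 hZ
    set Z' := (L.lam 1 Z)⁻¹ • Z with hZ'
    have hTZ' : L.T Z' = {1, e} := by rw [hZ', L.T_smul (inv_pos.mpr hk), hT]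
    have m1 : (1 : G) ∈ L.T Z' := by rw [hTZ']; exact Set.mem_insert _ _
    have me : e ∈ L.T Z' := by rw [hTZ']; exact Set.mem_insert_of_mem _ rfl
    have hl : L.lam 1 Z' = 1 := by
      rw [hZ', L.lam_smul, inv_mul_cancel₀ hk.ne']
    set v := Z' - L.P with hv
    have hv1 : L.lam 1 v = 0 := by
      rw [hv, L.lam_sub, hl]
      change 1 - L.ht 1 = 0
      rw [L.ht_one, sub_self]
    have hZv : Z' = L.P + (1 : ℝ) • v := by
      rw [hv, one_smul]
      abel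
    have hv0 : v ≠ 0 := by
      intro h
      rw [h, smul_zero, add_zero] at hZv
      rw [hZv] at me
      have h1 : L.ht e ≤ L.ht 1 := me 1
      rw [L.ht_one] at h1
      linarith [L.one_lt_ht he1]
    have hvP : v 0 = (L.P 1 * v 1 + L.P 2 * v 2) / L.P 0 := by
      unfold lam at hv1
      rw [L.pt_one] at hv1
      unfold B at hv1
      rw [eq_div_iff hP0]
      linarith
    have hψv : ψ (v 1, v 2) = v := by
      ext i
      fin_cases i
      · simp only [ψ, Fin.zero_eta, Matrix.cons_val_zero]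
        exact hvP.symm
      · simp [ψ]
      · simp [ψ]
    have hx : ((v 1, v 2) : ℝ × ℝ) ∈ X := by
      intro h
      apply hv0
      rw [← hψv]
      have h' : ((v 1, v 2) : ℝ × ℝ) = 0 := h
      rw [h']
      ext i
      fin_cases i <;> simp [ψ]
    refine ⟨⟨(v 1, v 2), hx⟩, ?_⟩
    intro k _ hk1
    change L.sl k (ψ (v 1, v 2)) ≤ L.sl e (ψ (v 1, v 2))
    rw [hψv]
    have h1 : L.lam 1 (L.P + (1 : ℝ) • v) ≤ L.lam k (L.P + (1 : ℝ) • v) := by
      rw [← hZv]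
      exact m1 k
    have h2 : L.lam 1 (L.P + (1 : ℝ) • v) = L.lam e (L.P + (1 : ℝ) • v) := by
      rw [← hZv]
      exact L.T_eq m1 me
    rw [(L.wall_iff hv1 hk1 1).1, one_mul] at h1
    rw [(L.wall_iff hv1 he1 1).2, one_mul] at h2
    rw [h2]
    exact h1
  intro e e' he he' hce
  have := cover_const {h | L.Sd h} (L.Nb_finite.subset fun _ h => L.Sd_Nb h) A hA hcov c hag
    e he e' he' (hne e he) (hne e' he')
  rwa [← this]

end Lat

end Pool.Agent.ToST
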