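import Pool.Agent.Lib.MP_305fdd_al.To.ST.NF3
import Mathlib.Data.List.Cycle

/-!
# MP_305fdd_al, normal form of one-vertex presentations: the theorem

`normal_form`: a group presented by the combinatorial package `Cmb` is the group of a signature.
-/

set_option autoImplicit false

namespace Pool.Agent.ToST

section cyc

variable {S : Type} {F : Equiv.Perm S} {H : Type} [Group H]

theorem per_all [Finite S] (F : Equiv.Perm S) (e : S) : e ∈ Function.periodicPts F := by
  obtain ⟨n, hn, h⟩ := isOfFinOrder_iff_pow_eq_one.1 (isOfFinOrder_of_finite F)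
  refine Function.mk_mem_periodicPts hn ?_
  change (F^[n]) e = e
  rw [← Equiv.Perm.coe_pow, h]
  rfl

theorem cyc_succ [Finite S] (x : S → H) (e : S) : x e * cyc F x (F e) = cyc F x e * x e := by
  unfold cyc
  rw [Function.minimalPeriod_apply (per_all F e)]
  set n := Function.minimalPeriod F e with hn
  have h1 : x e * ((List.range n).map fun i => x ((F^[i]) (F e))).prod =
      ((List.range (n + 1)).map fun i => x ((F^[i]) e)).prod := by
    rw [List.range_succ_eq_map, List.map_cons, List.prod_cons, List.map_map]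
    rfl
  have h2 : ((List.range (n + 1)).map fun i => x ((F^[i]) e)).prod =
      ((List.range n).map fun i => x ((F^[i]) e)).prod * x e := by
    rw [List.range_succ, List.map_append, List.prod_append]
    simp only [List.map_cons, List.map_nil, List.prod_cons, List.prod_nil, mul_one]
    have h3 : (F^[n]) e = e := Function.iterate_minimalPeriod
    rw [h3]
  rw [h1, h2]

theorem cyc_pow_succ [Finite S] (x : S → H) (e : S) (n : ℕ) (h : cyc F x e ^ n = 1) :
    cyc F x (F e) ^ n = 1 := by
  have h1 : cyc F x (F e) = (x e)⁻¹ * cyc F x e * x e := by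
    rw [mul_assoc, ← cyc_succ]
    group
  rw [h1]
  have h2 : (x e)⁻¹ * cyc F x e * x e = (x e)⁻¹ * cyc F x e * (x e)⁻¹⁻¹ := by rw [inv_inv]
  rw [h2, conj_pow, h]
  group

theorem cyc_pow_all [Finite S] (C : Cmb S) (x : S → H) (r e : S) (hre : C.F.SameCycle r e)
    (h : cyc C.F x r ^ C.m r = 1) : cyc C.F x e ^ C.m e = 1 := by
  obtain ⟨i, rfl⟩ := hre.exists_nat_pow_eq
  induction i with
  | zero => simpa using h
  | succ i ih =>
    have h1 := ih ⟨i, by simp⟩
    rw [pow_succ', Equiv.Perm.mul_apply, C.m_F]
    exact cyc_pow_succ x _ _ h1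

/-- the cycle of `F` through `e` as a list -/
noncomputable def cl (F : Equiv.Perm S) (e : S) : List S :=
  (List.range (Function.minimalPeriod F e)).map fun i => (F^[i]) e

theorem mem_cl [Finite S] (r e : S) : e ∈ cl F r ↔ F.SameCycle r e := by
  have h1 : e ∈ cl F r ↔ e ∈ Function.periodicOrbit F r := by
    rw [Function.periodicOrbit_def, Cycle.mem_coe_iff]
    rfl
  rw [h1, Function.mem_periodicOrbit_iff (per_all F r)]
  constructor
  · rintro ⟨n, hn⟩
    refine ⟨n, ?_⟩
    rw [zpow_natCast, Equiv.Perm.coe_pow]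
    exact hn
  · intro h
    obtain ⟨i, hi⟩ := h.exists_nat_pow_eq
    exact ⟨i, by rw [← Equiv.Perm.coe_pow]; exact hi⟩

theorem cl_nodup (r : S) : (cl F r).Nodup := by
  have h := Function.nodup_periodicOrbit (f := F) (x := r)
  rw [Function.periodicOrbit_def, Cycle.nodup_coe_iff] at h
  exact h

theorem cl_map_prod (x : S → H) (r : S) : ((cl F r).map x).prod = cyc F x r := by
  unfold cl cyc
  rw [List.map_map]
  rfl

theorem Lk_range {X : Type} (ι : X → X) (c : X → Prop) (t : ℕ → X) (a : Prop) (n : ℕ) :
    ∀ b : Prop, 0 < n → Lk ι c a ((List.range n).map t) b → a = c (t 0) ∧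
      (∀ i, i + 1 < n → c (ι (t i)) = c (t (i + 1))) ∧ c (ι (t (n - 1))) = b := by
  induction n with
  | zero => intro b h; omega
  | succ n ih =>
    intro b _ h
    rw [List.range_succ, List.map_append] at h
    obtain ⟨d, h1, h2⟩ := (Lk_append _ _ _ _ _ _).1 h
    simp only [List.map_cons, List.map_nil, Lk] at h2
    rcases Nat.eq_zero_or_pos n with rfl | hn
    · simp only [List.range_zero, List.map_nil, Lk] at h1
      refine ⟨h1.trans h2.1, fun i hi => by omega, h2.2⟩
    · obtain ⟨g1, g2, g3⟩ := ih d hn h1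
      refine ⟨g1, fun i hi => ?_, h2.2⟩
      rcases Nat.lt_or_ge (i + 1) n with h3 | h3
      · exact g2 i h3
      · have h4 : i + 1 = n := by omega
        have h5 : i = n - 1 := by omega
        rw [h4, h5, g3]
        exact h2.1

end cyc

open Classical in
/-- the words of the vertex cycles, each with a cone token -/
theorem Prs.toSt1 {S : Type} [Finite S] (C : Cmb S) {G : Type} [Group G] (y : S → G)
    (h : Prs C G y) : ∃ ws : List (List (S ⊕ S)),
      St1 (Sum.map C.ι id) (Sum.elim (fun _ => 2) C.m) ws
        (Sum.elim y (fun e => (cyc C.F y e)⁻¹)) := by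
  set F := C.F with hF
  let Q := Quotient (Equiv.Perm.SameCycle.setoid F)
  have : Fintype Q := Fintype.ofFinite Q
  set wd : S → List (S ⊕ S) := fun r => (cl F r).map Sum.inl ++ [Sum.inr r] with hwd
  set reps : List S := (Finset.univ : Finset Q).toList.map (fun q => Quotient.out q) with hreps
  set ws : List (List (S ⊕ S)) := reps.map wd with hws
  have hrep : ∀ e : S, ∃ r ∈ reps, F.SameCycle r e := by
    intro e
    refine ⟨Quotient.out (Quotient.mk (Equiv.Perm.SameCycle.setoid F) e), ?_, ?_⟩
    · rw [hreps]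
      exact List.mem_map_of_mem (by simp)
    · exact Quotient.mk_out (s := Equiv.Perm.SameCycle.setoid F) e
  have mem_inl : ∀ e : S, (Sum.inl e : S ⊕ S) ∈ ws.flatten := by
    intro e
    obtain ⟨r, hr, hre⟩ := hrep e
    refine List.mem_flatten.2 ⟨wd r, List.mem_map_of_mem hr, ?_⟩
    rw [hwd]
    simp only [List.mem_append]
    exact Or.inl (List.mem_map_of_mem ((mem_cl r e).2 hre))
  have mem_inr : ∀ e : S, (Sum.inr e : S ⊕ S) ∈ ws.flatten → e ∈ reps := by
    intro e he
    obtain ⟨w, hw, hew⟩ := List.mem_flatten.1 he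
    obtain ⟨r, hr, rfl⟩ := List.mem_map.1 hw
    simp only [hwd, List.mem_append, List.mem_map, List.mem_singleton, Sum.inr.injEq, reduceCtorEq,
      and_false, exists_false, false_or] at hew
    rw [hew]
    exact hr
  have hprod : ∀ {H : Type} [Group H] (x : S ⊕ S → H) (r : S),
      ((wd r).map x).prod = cyc F (fun e => x (Sum.inl e)) r * x (Sum.inr r) := by
    intro H _ x r
    simp only [hwd, List.map_append, List.prod_append, List.map_cons, List.map_nil, List.prod_cons,
      List.prod_nil, mul_one, List.map_map]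
    rw [← cl_map_prod]
    rfl
  refine ⟨ws, ?_, ?_, ?_, ?_, ?_, ?_, ?_, ?_, ?_⟩
  · -- nodup
    rw [List.nodup_flatten]
    constructor
    · intro w hw
      obtain ⟨r, -, rfl⟩ := List.mem_map.1 hw
      simp only [hwd]
      rw [List.nodup_append']
      refine ⟨(cl_nodup r).map Sum.inl_injective, by simp, ?_⟩
      intro z hz hz'
      simp at hz'
      subst hz'
      simp at hz
    · rw [hws, hreps, List.map_map, List.pairwise_map]
      refine (Finset.nodup_toList (Finset.univ : Finset Q)).imp ?_
      intro q q' hqq z hz hz'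
      apply hqq
      simp only [Function.comp, hwd, List.mem_append, List.mem_map, List.mem_singleton] at hz hz'
      have key : F.SameCycle (Quotient.out q) (Quotient.out q') := by
        rcases hz with ⟨e, he, rfl⟩ | rfl
        · rcases hz' with ⟨e', he', h0⟩ | h0
          · have h1 : e' = e := Sum.inl_injective h0
            subst h1
            exact ((mem_cl _ _).1 he).trans ((mem_cl _ _).1 he').symm
          · simp at h0
        · rcases hz' with ⟨e', he', h0⟩ | h0
          · simp at h0
          · have h1 : Quotient.out q = Quotient.out q' := Sum.inr_injective h0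
            rw [h1]
      have h2 : Quotient.mk (Equiv.Perm.SameCycle.setoid F) (Quotient.out q) =
        Quotient.mk (Equiv.Perm.SameCycle.setoid F) (Quotient.out q') := Quotient.sound key
      rwa [Quotient.out_eq, Quotient.out_eq] at h2
  · -- cone tokens
    intro w hw
    obtain ⟨r, -, rfl⟩ := List.mem_map.1 hw
    exact ⟨Sum.inr r, by simp [hwd], rfl⟩
  · -- closed
    rintro (e | e) he
    · exact mem_inl _
    · exact he
  · -- inverses
    rintro (e | e) _ hne
    · exact h.inv e
    · exact absurd rfl hne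
  · -- powers
    rintro (e | e) _ hfix
    · have h1 : C.ι e = e := Sum.inl_injective hfix
      have h2 := h.inv e
      rw [h1] at h2
      change y e ^ 2 = 1
      rw [pow_two]
      nth_rewrite 1 [h2]
      simp
    · change ((cyc C.F y e)⁻¹) ^ C.m e = 1
      rw [inv_pow, h.rel e, inv_one]
  · -- relations
    intro w hw
    obtain ⟨r, -, rfl⟩ := List.mem_map.1 hw
    rw [hprod]
    change cyc F y r * (cyc C.F y r)⁻¹ = 1
    simp [hF]
  · -- the universal property
    intro H _ x h1 h2 h3
    obtain ⟨φ, hφ⟩ := h.univ H (fun e => x (Sum.inl e)) (by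
        intro e
        by_cases hfix : C.ι e = e
        · have := h2 (Sum.inl e) (mem_inl e) (by simp [hfix])
          change x (Sum.inl e) ^ 2 = 1 at this
          rw [hfix]
          rw [pow_two] at this
          exact eq_inv_of_mul_eq_one_left this
        · exact h1 (Sum.inl e) (mem_inl e) (by simp [hfix])) (by
        intro e
        obtain ⟨r, hr, hre⟩ := hrep e
        refine cyc_pow_all C _ r e hre ?_
        have h4 := h3 (wd r) (List.mem_map_of_mem hr)
        rw [hprod] at h4
        have h5 : cyc C.F (fun e => x (Sum.inl e)) r = (x (Sum.inr r))⁻¹ :=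
          eq_inv_of_mul_eq_one_left h4
        have h6 := h2 (Sum.inr r) (List.mem_flatten.2 ⟨wd r, List.mem_map_of_mem hr, by
          simp [hwd]⟩) rfl
        change x (Sum.inr r) ^ C.m r = 1 at h6
        rw [h5, inv_pow, h6, inv_one])
    refine ⟨φ, ?_⟩
    rintro (e | e) he
    · exact hφ e
    · have hr := mem_inr e he
      have h4 := h3 (wd e) (List.mem_map_of_mem hr)
      rw [hprod] at h4
      change φ ((cyc C.F y e)⁻¹) = x (Sum.inr e)
      rw [map_inv]
      have h5 : φ (cyc C.F y e) = cyc C.F (fun e => x (Sum.inl e)) e := by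
        rw [← cl_map_prod, ← cl_map_prod, map_list_prod, List.map_map]
        congr 1
        exact List.map_congr_left (fun z _ => hφ z)
      rw [h5]
      exact inv_eq_of_mul_eq_one_right h4
  · -- generation
    rw [eq_top_iff, ← h.gen, Subgroup.closure_le]
    rintro _ ⟨e, rfl⟩
    exact Subgroup.subset_closure ⟨Sum.inl e, mem_inl e, rfl⟩
  · -- one vertex
    intro c hc
    have key : ∀ r ∈ reps, (c (Sum.inr r) = c (Sum.inl r)) ∧ ∀ e, F.SameCycle r e →
        c (Sum.inl (C.ι e)) = c (Sum.inl (F e)) := by
      intro r hr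
      obtain ⟨a, ha⟩ := hc (wd r) (List.mem_map_of_mem hr)
      obtain ⟨d, g1, g2⟩ := (Lk_append _ _ _ _ _ _).1 ha
      have hn : 0 < Function.minimalPeriod F r :=
        Function.minimalPeriod_pos_of_mem_periodicPts (per_all F r)
      have g3 : (cl F r).map (Sum.inl : S → S ⊕ S) =
          (List.range (Function.minimalPeriod F r)).map (fun i => Sum.inl ((F^[i]) r)) := by
        unfold cl
        rw [List.map_map]
        rfl
      rw [g3] at g1
      obtain ⟨k1, k2, k3⟩ := Lk_range _ _ _ _ _ _ hn g1
      have g4 : d = c (Sum.inr r) ∧ c (Sum.inr r) = a := g2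
      have k1' : a = c (Sum.inl r) := k1
      refine ⟨g4.2.trans k1', fun e he => ?_⟩
      obtain ⟨i, hi, rfl⟩ := List.mem_map.1 ((mem_cl r e).2 he)
      have hi' : i < Function.minimalPeriod F r := List.mem_range.1 hi
      rcases Nat.lt_or_ge (i + 1) (Function.minimalPeriod F r) with h1 | h1
      · have := k2 i h1
        rw [Function.iterate_succ_apply'] at this
        exact this
      · have h2 : i = Function.minimalPeriod F r - 1 := by omega
        have h3 : c (Sum.inl (C.ι ((F^[i]) r))) = d := by
          rw [h2]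
          exact k3
        rw [h3, g4.1, g4.2, k1']
        have h4 : F ((F^[i]) r) = r := by
          rw [← Function.iterate_succ_apply' (f := F)]
          have h5 : i.succ = Function.minimalPeriod F r := by omega
          rw [h5]
          exact Function.iterate_minimalPeriod
        rw [h4]
    have hall : ∀ e e' : S, c (Sum.inl e) → c (Sum.inl e') := by
      apply C.mono
      intro e
      obtain ⟨r, hr, hre⟩ := hrep e
      rw [(key r hr).2 e hre]
    rintro (p | p) hp (q | q) hq hcp
    · exact hall _ _ hcp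
    · rw [(key q (mem_inr q hq)).1]
      exact hall _ _ hcp
    · rw [(key p (mem_inr p hp)).1] at hcp
      exact hall _ _ hcp
    · rw [(key p (mem_inr p hp)).1] at hcp
      rw [(key q (mem_inr q hq)).1]
      exact hall _ _ hcp

/-- **the normal form**, with the cone generators identified -/
theorem normal_form_aux {S : Type} [Finite S] (C : Cmb S) {G : Type} [Group G] (y : S → G)
    (h : Prs C G y) : ∃ (g k : ℕ) (m : Fin k → ℕ), (∀ j, 2 ≤ m j) ∧
      ∃ e : G ≃* Sg.SigGroup g k m, ∀ j,
        (∃ r, C.m r = m j ∧ e (cyc C.F y r)⁻¹ = Sg.xx j) ∨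
        (∃ r, C.ι r = r ∧ 2 = m j ∧ e (y r) = Sg.xx j) := by
  obtain ⟨ws, hws⟩ := h.toSt1
  have hι : ∀ p : S ⊕ S, Sum.map C.ι id (Sum.map C.ι id p) = p := by
    rintro (e | e)
    · simp [C.ii]
    · rfl
  obtain ⟨ws', hl, hws'⟩ := exists_single hι hws
  obtain ⟨g, k, m, hm, e, he⟩ := (hws'.toSt2 hl).final hι (by
    rintro (e | e)
    · simp
    · exact C.m_pos e)
  refine ⟨g, k, m, hm, e, fun j => ?_⟩
  obtain ⟨p, h1, h2, h3⟩ := he j
  rcases p with p | p
  · exact Or.inr ⟨p, Sum.inl_injective h1, h2, h3⟩
  · exact Or.inl ⟨p, h2, h3⟩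

/-- **the normal form**: a group presented by the combinatorial package is the group of a
signature -/
theorem normal_form {S : Type} [Finite S] (C : Cmb S) {G : Type} [Group G] (y : S → G)
    (h : Prs C G y) : ∃ (g k : ℕ) (m : Fin k → ℕ), (∀ j, 2 ≤ m j) ∧
      Nonempty (G ≃* Sg.SigGroup g k m) := by
  obtain ⟨g, k, m, hm, e, -⟩ := normal_form_aux C y h
  exact ⟨g, k, m, hm, ⟨e⟩⟩

/-- **the normal form with exact orders** -/
theorem normal_form_ord {S : Type} [Finite S] (C : Cmb S) {G : Type} [Group G] (y : S → G)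
    (h : Prs C G y) (hord : ∀ e, orderOf (cyc C.F y e) = C.m e)
    (hfix : ∀ e, C.ι e = e → y e ≠ 1) :
    ∃ (g k : ℕ) (m : Fin k → ℕ), (∀ j, 2 ≤ m j) ∧ ∃ _ : G ≃* Sg.SigGroup g k m,
      ∀ j, orderOf (Sg.xx j : Sg.SigGroup g k m) = m j := by
  obtain ⟨g, k, m, hm, e, he⟩ := normal_form_aux C y h
  refine ⟨g, k, m, hm, e, fun j => ?_⟩
  rcases he j with ⟨r, h1, h2⟩ | ⟨r, h1, h2, h3⟩
  · rw [← h2, MulEquiv.orderOf_eq, orderOf_inv, hord, h1]
  · rw [← h3, MulEquiv.orderOf_eq, ← h2]
    have h4 := h.inv r
    rw [h1] at h4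
    have h5 : y r ^ 2 = 1 := by
      rw [pow_two]
      nth_rewrite 1 [h4]
      simp
    exact orderOf_eq_prime h5 (hfix r h1)

end Pool.Agent.ToST
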