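import Pool.Agent.Lib.MP_305fdd_al.To.ST.Pres
import Pool.Agent.Lib.MP_305fdd_al.To.ST.Mono
import Pool.Agent.Lib.MP_305fdd_al.To.ST.NF
import Pool.Agent.Lib.MP_305fdd_al.Su.Surf

/-!
# MP_305fdd_al, torsion room (ST): the structure of the discrete cocompact groups of isometries of
the hyperbolic plane
-/

set_option autoImplicit false

namespace Pool.Agent.ToST

open scoped commutatorElement

namespace Lat

variable {G : Type} [Group G] (L : Lat G)

/-- the colouring property of the sides -/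
theorem mono (c : L.S → Prop) (hc : ∀ e, c (L.inv e) ↔ c (L.F e)) (e e' : L.S) (h : c e) :
    c e' := by
  have h1 := L.mono_geo (fun g => ∃ hg : L.Sd g, c ⟨g, hg⟩) ?_ e e' e.2 e'.2 ⟨e.2, h⟩
  · obtain ⟨_, h2⟩ := h1
    exact h2
  · intro Z hZ h1 a b ha hb
    have hSa : L.Sd a⁻¹ := by
      have := L.Sd_of_Sc hZ ha
      rwa [mul_one] at this
    have hSa' : L.Sd a := by
      have := L.Sd_inv hSa
      rwa [_root_.inv_inv] at this
    have hSb : L.Sd b := by
      have := L.Sd_of_Sc hZ hb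
      rwa [inv_one, one_mul] at this
    -- `b = F (a⁻¹)` or `b = a`
    by_cases hab : b = a
    · rw [hab]
    · have hV : L.Ver Z := L.ver_of hZ ha.1 h1 hb.2.1 ha.2.2.1 hb.2.2.1 (fun e => hab e.symm)
      have hNX : L.NX a⁻¹ b := by
        refine ⟨L.act a⁻¹ Z, L.Ver_act a⁻¹ hV, ?_, ?_⟩
        · have := (L.Sc_act (g := a⁻¹)).mpr ha
          rwa [inv_mul_cancel, mul_one] at this
        · have := (L.Sc_act (g := a⁻¹)).mpr hb
          rwa [mul_one] at this
      have hF : L.F ⟨a⁻¹, hSa⟩ = ⟨b, hSb⟩ :=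
        Subtype.ext (L.nx_unique (L.F_spec ⟨a⁻¹, hSa⟩) hNX)
      have hI : L.inv ⟨a⁻¹, hSa⟩ = ⟨a, hSa'⟩ := Subtype.ext (_root_.inv_inv a)
      have h2 := hc ⟨a⁻¹, hSa⟩
      rw [hF, hI] at h2
      constructor
      · rintro ⟨_, h3⟩
        exact ⟨hSb, h2.mp h3⟩
      · rintro ⟨_, h3⟩
        exact ⟨hSa', h2.mpr h3⟩

/-- the combinatorial package of the Dirichlet domain -/
noncomputable def cmb : Cmb L.S where
  ι := L.inv
  F := L.F
  m := L.mm
  ii := L.inv_inv
  m_pos := L.mm_pos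
  m_F := L.mm_F
  mono := L.mono

theorem prs : Prs L.cmb G L.yy where
  inv := fun _ => rfl
  rel := fun e => pow_orderOf_eq_one (wk L.F L.yy e (L.len e))
  univ := fun _ _ _ h1 h2 => L.univ h1 h2
  gen := L.gen

/-- **STRUCTURE THEOREM (ST)**: a group with a discrete cocompact action on the hyperbolic plane
by orientation preserving isometries is the group of a signature; the orders of the elliptic
generators are exact. -/
theorem structure_theorem (L : Lat G) : ∃ (g k : ℕ) (m : Fin k → ℕ), (∀ j, 2 ≤ m j) ∧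
    ∃ _ : G ≃* Sg.SigGroup g k m, ∀ j, orderOf (Sg.xx j : Sg.SigGroup g k m) = m j :=
  normal_form_ord L.cmb L.yy L.prs (fun _ => rfl) fun e _ => L.Sd_ne e.2

end Lat

/-- the group of the signature `(g; )` is the surface group -/
theorem sig_zero (g : ℕ) (m : Fin 0 → ℕ) :
    Nonempty (Sg.SigGroup g 0 m ≃* Su.SurfaceGroup g) := by
  have h1 : (List.ofFn fun i => ⁅Su.sa g i, Su.sb g i⁆).prod *
      (List.ofFn (fun j : Fin 0 => (1 : Su.SurfaceGroup g))).prod = 1 := by
    rw [List.ofFn_zero, List.prod_nil, mul_one]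
    exact Su.surf_rel g
  have h2 : (List.ofFn fun i : Fin g => (Sg.aa i : Sg.SigGroup g 0 m) * Sg.bb i * (Sg.aa i)⁻¹ *
      (Sg.bb i)⁻¹).prod = 1 := by
    have := Sg.long (g := g) (k := 0) (m := m)
    rw [List.ofFn_zero, List.prod_nil, mul_one] at this
    exact this
  let φ : Sg.SigGroup g 0 m →* Su.SurfaceGroup g :=
    Sg.lift (Su.sa g) (Su.sb g) (fun _ => 1) h1 (fun j => j.elim0)
  let ψ : Su.SurfaceGroup g →* Sg.SigGroup g 0 m := Su.surfLift Sg.aa Sg.bb h2
  have e1 : ψ.comp φ = MonoidHom.id _ := by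
    apply Sg.hom_ext
    · intro i
      change ψ (φ (Sg.aa i)) = Sg.aa i
      rw [Sg.lift_aa, Su.surfLift_sa]
    · intro i
      change ψ (φ (Sg.bb i)) = Sg.bb i
      rw [Sg.lift_bb, Su.surfLift_sb]
    · intro j
      exact j.elim0
  have e2 : φ.comp ψ = MonoidHom.id _ := by
    apply Su.surf_ext
    · intro i
      change φ (ψ (Su.sa g i)) = Su.sa g i
      rw [Su.surfLift_sa, Sg.lift_aa]
    · intro i
      change φ (ψ (Su.sb g i)) = Su.sb g i
      rw [Su.surfLift_sb, Sg.lift_bb]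
  exact ⟨MonoidHom.toMulEquiv φ ψ e1 e2⟩

/-- a torsion free group with a discrete cocompact action is a surface group -/
theorem Lat.surface {G : Type} [Group G] (L : Lat G)
    (htf : ∀ x : G, ∀ n, 0 < n → x ^ n = 1 → x = 1) :
    ∃ g, Nonempty (G ≃* Su.SurfaceGroup g) := by
  obtain ⟨g, k, m, hm, e, ho⟩ := L.structure_theorem
  have hk : k = 0 := by
    by_contra hk
    have hk' : 0 < k := Nat.pos_of_ne_zero hk
    set j : Fin k := ⟨0, hk'⟩
    have h1 : (e.symm (Sg.xx j)) ^ m j = 1 := by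
      rw [← map_pow, Sg.xx_pow, map_one]
    have h2 := htf _ _ (by have := hm j; omega) h1
    have h3 : (Sg.xx j : Sg.SigGroup g k m) = 1 := by
      rw [← e.apply_symm_apply (Sg.xx j), h2, map_one]
    have h4 := ho j
    rw [h3, orderOf_one] at h4
    have := hm j
    omega
  subst hk
  obtain ⟨f⟩ := sig_zero g m
  exact ⟨g, ⟨e.trans f⟩⟩

end Pool.Agent.ToST
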