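import Pool.Agent.Lib.MP_305fdd_al.To.ST.Cmb
import Mathlib.Tactic.Group
import Mathlib.GroupTheory.Commutator.Basic

/-!
# MP_305fdd_al, normal form of one-vertex presentations, part 1: merging the words

`St1`: a group with a presentation given by cyclic words in letters (with an involution `ι`) and
cone tokens (fixed points of `ι`).  `exists_single`: one word is enough.
-/

set_option autoImplicit false

namespace Pool.Agent.ToST

variable {X : Type}

/-- the colour path condition: `c p` is the colour of the corner before `p`, `c (ι p)` the one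
behind `p` -/
def Lk (ι : X → X) (c : X → Prop) : Prop → List X → Prop → Prop
  | a, [], b => a = b
  | a, p :: w, b => a = c p ∧ Lk ι c (c (ι p)) w b

theorem Lk_append (ι : X → X) (c : X → Prop) (u w : List X) (a b : Prop) :
    Lk ι c a (u ++ w) b ↔ ∃ d, Lk ι c a u d ∧ Lk ι c d w b := by
  induction u generalizing a with
  | nil =>
    constructor
    · intro h
      exact ⟨a, rfl, h⟩
    · rintro ⟨d, hd, h⟩
      have hd' : a = d := hd
      subst hd'
      exact h
  | cons p u ih =>
    simp only [List.cons_append, Lk, ih]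
    constructor
    · rintro ⟨h1, d, h2, h3⟩
      exact ⟨d, ⟨h1, h2⟩, h3⟩
    · rintro ⟨d, ⟨h1, h2⟩, h3⟩
      exact ⟨h1, d, h2, h3⟩

theorem Lk_congr (ι : X → X) (c c' : X → Prop) (w : List X) (a b : Prop)
    (h : ∀ p ∈ w, c p = c' p ∧ c (ι p) = c' (ι p)) : Lk ι c a w b ↔ Lk ι c' a w b := by
  induction w generalizing a with
  | nil => simp [Lk]
  | cons p w ih =>
    have h1 := h p (by simp)
    have h2 := ih (c' (ι p)) (fun q hq => h q (by simp [hq]))
    simp only [Lk, h1.1, h1.2, h2]

theorem Lk_const (ι : X → X) (c : X → Prop) (w : List X) (s : Prop)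
    (h : ∀ p ∈ w, c p = s ∧ c (ι p) = s) : Lk ι c s w s := by
  induction w with
  | nil => simp [Lk]
  | cons p w ih =>
    have h1 := h p (by simp)
    simp only [Lk, h1.1, h1.2, true_and]
    exact ih (fun q hq => h q (by simp [hq]))

/-- a group given by cyclic words in the tokens -/
structure St1 (ι : X → X) (m : X → ℕ) (ws : List (List X)) {G : Type} [Group G] (v : X → G) :
    Prop where
  nodup : ws.flatten.Nodup
  cone : ∀ w ∈ ws, ∃ p ∈ w, ι p = p
  cl : ∀ p ∈ ws.flatten, ι p ∈ ws.flatten
  inv : ∀ p ∈ ws.flatten, ι p ≠ p → v (ι p) = (v p)⁻¹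
  pow : ∀ p ∈ ws.flatten, ι p = p → v p ^ m p = 1
  rel : ∀ w ∈ ws, (w.map v).prod = 1
  univ : ∀ (H : Type) [Group H] (x : X → H), (∀ p ∈ ws.flatten, ι p ≠ p → x (ι p) = (x p)⁻¹) →
    (∀ p ∈ ws.flatten, ι p = p → x p ^ m p = 1) → (∀ w ∈ ws, (w.map x).prod = 1) →
    ∃ φ : G →* H, ∀ p ∈ ws.flatten, φ (v p) = x p
  gen : Subgroup.closure (v '' {p | p ∈ ws.flatten}) = ⊤
  mono : ∀ c : X → Prop, (∀ w ∈ ws, ∃ a, Lk ι c a w a) →
    ∀ p ∈ ws.flatten, ∀ q ∈ ws.flatten, c p → c q

variable {ι : X → X} {m : X → ℕ} {G : Type} [Group G] {v : X → G}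

theorem St1.perm {ws ws' : List (List X)} (h : St1 ι m ws v) (p : ws.Perm ws') :
    St1 ι m ws' v := by
  have pf : ws.flatten.Perm ws'.flatten := p.flatten
  have mf : ∀ z, z ∈ ws'.flatten ↔ z ∈ ws.flatten := fun z => pf.symm.mem_iff
  have mw : ∀ z, z ∈ ws' ↔ z ∈ ws := fun z => p.symm.mem_iff
  refine ⟨pf.nodup_iff.1 h.nodup, fun w hw => h.cone w ((mw w).1 hw), ?_, ?_, ?_, ?_, ?_, ?_, ?_⟩
  · intro z hz
    exact (mf _).2 (h.cl z ((mf z).1 hz))
  · intro z hz
    exact h.inv z ((mf z).1 hz)
  · intro z hz
    exact h.pow z ((mf z).1 hz)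
  · intro w hw
    exact h.rel w ((mw w).1 hw)
  · intro H _ x h1 h2 h3
    obtain ⟨φ, hφ⟩ := h.univ H x (fun z hz => h1 z ((mf z).2 hz)) (fun z hz => h2 z ((mf z).2 hz))
      (fun w hw => h3 w ((mw w).2 hw))
    exact ⟨φ, fun z hz => hφ z ((mf z).1 hz)⟩
  · have : {z | z ∈ ws'.flatten} = {z | z ∈ ws.flatten} := Set.ext mf
    rw [this]
    exact h.gen
  · intro c hc z hz z' hz'
    exact h.mono c (fun w hw => hc w ((mw w).2 hw)) z ((mf z).1 hz) z' ((mf z').1 hz')

theorem prod_swap {H : Type} [Group H] {a b : H} (h : a * b = 1) : b * a = 1 := by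
  rw [mul_eq_one_iff_eq_inv] at h
  rw [h]
  simp

theorem St1.rot {u w : List X} {rs : List (List X)} (h : St1 ι m ((u ++ w) :: rs) v) :
    St1 ι m ((w ++ u) :: rs) v := by
  have pf : ((u ++ w) :: rs).flatten.Perm ((w ++ u) :: rs).flatten := by
    simp only [List.flatten_cons]
    exact List.Perm.append_right _ List.perm_append_comm
  have mf : ∀ z, z ∈ ((w ++ u) :: rs).flatten ↔ z ∈ ((u ++ w) :: rs).flatten :=
    fun z => pf.symm.mem_iff
  refine ⟨pf.nodup_iff.1 h.nodup, ?_, ?_, ?_, ?_, ?_, ?_, ?_, ?_⟩
  · intro z hz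
    rcases List.mem_cons.1 hz with rfl | hz
    · obtain ⟨p, hp, hp'⟩ := h.cone (u ++ w) (by simp)
      exact ⟨p, (List.perm_append_comm.mem_iff).1 hp, hp'⟩
    · exact h.cone z (by simp [hz])
  · intro z hz
    exact (mf _).2 (h.cl z ((mf z).1 hz))
  · intro z hz
    exact h.inv z ((mf z).1 hz)
  · intro z hz
    exact h.pow z ((mf z).1 hz)
  · intro z hz
    rcases List.mem_cons.1 hz with rfl | hz
    · have := h.rel (u ++ w) (by simp)
      rw [List.map_append, List.prod_append] at this ⊢
      exact prod_swap this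
    · exact h.rel z (by simp [hz])
  · intro H _ x h1 h2 h3
    obtain ⟨φ, hφ⟩ := h.univ H x (fun z hz => h1 z ((mf z).2 hz)) (fun z hz => h2 z ((mf z).2 hz))
      (fun z hz => by
        rcases List.mem_cons.1 hz with rfl | hz
        · have := h3 (w ++ u) (by simp)
          rw [List.map_append, List.prod_append] at this ⊢
          exact prod_swap this
        · exact h3 z (by simp [hz]))
    exact ⟨φ, fun z hz => hφ z ((mf z).1 hz)⟩
  · have : {z | z ∈ ((w ++ u) :: rs).flatten} = {z | z ∈ ((u ++ w) :: rs).flatten} := Set.ext mf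
    rw [this]
    exact h.gen
  · intro c hc z hz z' hz'
    refine h.mono c (fun y hy => ?_) z ((mf z).1 hz) z' ((mf z').1 hz')
    rcases List.mem_cons.1 hy with rfl | hy
    · obtain ⟨a, ha⟩ := hc (w ++ u) (by simp)
      obtain ⟨d, h1, h2⟩ := (Lk_append _ _ _ _ _ _).1 ha
      exact ⟨d, (Lk_append _ _ _ _ _ _).2 ⟨a, h2, h1⟩⟩
    · exact hc y (by simp [hy])

open Classical in
/-- two words with a letter `e` in one and `ι e` in the other are merged -/
theorem St1.merge (hι : ∀ p, ι (ι p) = p) {e : X} {u w : List X} {rs : List (List X)}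
    (h : St1 ι m ((e :: u) :: (ι e :: w) :: rs) v) :
    St1 ι m ((w ++ u) :: rs) v := by
  have hnd := h.nodup
  have hee : ι e ≠ e := by
    intro h0
    simp [h0] at hnd
  have he1 : e ∉ u ++ (w ++ rs.flatten) := by
    simp only [List.flatten_cons, List.cons_append, List.nodup_cons, List.mem_append,
      List.mem_cons] at hnd ⊢
    tauto
  have he2 : ι e ∉ u ++ (w ++ rs.flatten) := by
    have h1 : (ι e :: (u ++ (w ++ rs.flatten))).Nodup := by
      have h2 : (u ++ (ι e :: (w ++ rs.flatten))).Nodup := by
        simp only [List.flatten_cons, List.cons_append] at hnd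
        exact (List.nodup_cons.1 hnd).2
      exact (List.perm_middle.nodup_iff).1 h2
    exact (List.nodup_cons.1 h1).1
  have hnd2 : (u ++ (w ++ rs.flatten)).Nodup := by
    have h2 : (u ++ (ι e :: (w ++ rs.flatten))).Nodup := by
      simp only [List.flatten_cons, List.cons_append] at hnd
      exact (List.nodup_cons.1 hnd).2
    exact (List.nodup_cons.1 ((List.perm_middle.nodup_iff).1 h2)).2
  have mem_new : ∀ z, z ∈ ((w ++ u) :: rs).flatten ↔ z ∈ u ++ (w ++ rs.flatten) := by
    intro z
    simp only [List.flatten_cons, List.mem_append]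
    tauto
  have mem_old : ∀ z, z ∈ ((e :: u) :: (ι e :: w) :: rs).flatten ↔
      z = e ∨ z = ι e ∨ z ∈ u ++ (w ++ rs.flatten) := by
    intro z
    simp only [List.flatten_cons, List.cons_append, List.mem_append, List.mem_cons]
    tauto
  have hmo : ∀ z, z ∈ ((w ++ u) :: rs).flatten → z ∈ ((e :: u) :: (ι e :: w) :: rs).flatten :=
    fun z hz => (mem_old z).2 (Or.inr (Or.inr ((mem_new z).1 hz)))
  have hze : ∀ z, z ∈ ((w ++ u) :: rs).flatten → z ≠ e ∧ z ≠ ι e ∧ ι z ≠ e ∧ ι z ≠ ι e := by
    intro z hz
    have hz' := (mem_new z).1 hz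
    refine ⟨fun h0 => he1 (h0 ▸ hz'), fun h0 => he2 (h0 ▸ hz'), fun h0 => he2 ?_, fun h0 => he1 ?_⟩
    · rw [← h0, hι]
      exact hz'
    · have : z = e := by rw [← hι z, h0, hι]
      exact this ▸ hz'
  have hre : v e * (u.map v).prod = 1 := by
    simpa using h.rel (e :: u) (by simp)
  have hrw : v (ι e) * (w.map v).prod = 1 := by
    simpa using h.rel (ι e :: w) (by simp)
  have hie : v (ι e) = (v e)⁻¹ := h.inv e ((mem_old e).2 (Or.inl rfl)) hee
  have hW : (w.map v).prod = v e := by
    rw [hie] at hrw
    exact (inv_mul_eq_one.1 hrw).symm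
  refine ⟨?_, ?_, ?_, ?_, ?_, ?_, ?_, ?_, ?_⟩
  · have : ((w ++ u) :: rs).flatten.Perm (u ++ (w ++ rs.flatten)) := by
      simp only [List.flatten_cons, ← List.append_assoc]
      exact List.Perm.append_right _ List.perm_append_comm
    exact this.nodup_iff.2 hnd2
  · intro z hz
    rcases List.mem_cons.1 hz with rfl | hz
    · obtain ⟨p, hp, hp'⟩ := h.cone (e :: u) (by simp)
      rcases List.mem_cons.1 hp with rfl | hp
      · exact absurd hp' hee
      · exact ⟨p, by simp [hp], hp'⟩
    · exact h.cone z (by simp [hz])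
  · intro z hz
    have h1 := (mem_old _).1 (h.cl z (hmo z hz))
    have h2 := hze z hz
    rcases h1 with h1 | h1 | h1
    · exact absurd h1 h2.2.2.1
    · exact absurd h1 h2.2.2.2
    · exact (mem_new _).2 h1
  · exact fun z hz => h.inv z (hmo z hz)
  · exact fun z hz => h.pow z (hmo z hz)
  · intro z hz
    rcases List.mem_cons.1 hz with rfl | hz
    · rw [List.map_append, List.prod_append, hW]
      exact hre
    · exact h.rel z (by simp [hz])
  · intro H _ x h1 h2 h3
    have hxwu : (w.map x).prod * (u.map x).prod = 1 := by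
      have := h3 (w ++ u) (by simp)
      rwa [List.map_append, List.prod_append] at this
    set x' : X → H := fun z => if z = e then (w.map x).prod else
      if z = ι e then ((w.map x).prod)⁻¹ else x z with hx'
    have hx1 : ∀ z, z ∈ ((w ++ u) :: rs).flatten → x' z = x z := by
      intro z hz
      have := hze z hz
      simp only [hx', this.1, this.2.1, if_false]
    have hxm : ∀ l : List X, (∀ z ∈ l, z ∈ ((w ++ u) :: rs).flatten) → l.map x' = l.map x :=
      fun l hl => List.map_congr_left (fun z hz => hx1 z (hl z hz))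
    have hxe : x' e = (w.map x).prod := by simp [hx']
    have hxe' : x' (ι e) = ((w.map x).prod)⁻¹ := by simp [hx', hee]
    have hu : ∀ z ∈ u, z ∈ ((w ++ u) :: rs).flatten := fun z hz => by simp [hz]
    have hw : ∀ z ∈ w, z ∈ ((w ++ u) :: rs).flatten := fun z hz => by simp [hz]
    obtain ⟨φ, hφ⟩ := h.univ H x' (by
        intro z hz hzz
        rcases (mem_old z).1 hz with rfl | rfl | hz
        · rw [hxe, hxe']
        · rw [hι, hxe, hxe']
          simp
        · have hz' := (mem_new z).2 hz
          rw [hx1 z hz', ← h1 z hz' hzz]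
          have := hze z hz'
          simp only [hx', this.2.2.1, this.2.2.2, if_false]) (by
        intro z hz hzz
        rcases (mem_old z).1 hz with rfl | rfl | hz
        · exact absurd hzz hee
        · rw [hι] at hzz
          exact absurd hzz.symm hee
        · have hz' := (mem_new z).2 hz
          rw [hx1 z hz']
          exact h2 z hz' hzz) (by
        intro z hz
        rcases List.mem_cons.1 hz with rfl | hz
        · rw [List.map_cons, List.prod_cons, hxe, hxm u hu]
          exact hxwu
        · rcases List.mem_cons.1 hz with rfl | hz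
          · rw [List.map_cons, List.prod_cons, hxe', hxm w hw]
            simp
          · rw [hxm z (fun y hy => by
              rw [List.flatten_cons, List.mem_append]
              exact Or.inr (List.mem_flatten.2 ⟨z, hz, hy⟩))]
            exact h3 z (by simp [hz]))
    exact ⟨φ, fun z hz => by rw [hφ z (hmo z hz), hx1 z hz]⟩
  · rw [eq_top_iff, ← h.gen, Subgroup.closure_le]
    have hsub : ∀ z, z ∈ ((w ++ u) :: rs).flatten →
        v z ∈ Subgroup.closure (v '' {p | p ∈ ((w ++ u) :: rs).flatten}) :=
      fun z hz => Subgroup.subset_closure ⟨z, hz, rfl⟩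
    have hve : v e ∈ Subgroup.closure (v '' {p | p ∈ ((w ++ u) :: rs).flatten}) := by
      rw [← hW]
      apply Subgroup.list_prod_mem
      intro y hy
      obtain ⟨z, hz, rfl⟩ := List.mem_map.1 hy
      exact hsub z (by simp [hz])
    rintro _ ⟨z, hz, rfl⟩
    rcases (mem_old z).1 hz with rfl | rfl | hz
    · exact hve
    · rw [hie]
      exact Subgroup.inv_mem _ hve
    · exact hsub z ((mem_new z).2 hz)
  · intro c hc z hz z' hz' hcz
    obtain ⟨a, ha⟩ := hc (w ++ u) (by simp)
    obtain ⟨d, h1, h2⟩ := (Lk_append _ _ _ _ _ _).1 ha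
    set c' : X → Prop := fun z => if z = e then a else if z = ι e then d else c z with hc'
    have hce : c' e = a := by simp [hc']
    have hce' : c' (ι e) = d := by simp [hc', hee]
    have hcz' : ∀ y, y ∈ ((w ++ u) :: rs).flatten → c' y = c y ∧ c' (ι y) = c (ι y) := by
      intro y hy
      have := hze y hy
      simp only [hc', this.1, this.2.1, this.2.2.1, this.2.2.2, if_false, and_self]
    have hmn := h.mono c' (by
      intro y hy
      rcases List.mem_cons.1 hy with rfl | hy
      · refine ⟨a, ?_⟩
        simp only [Lk, hce, hce', true_and]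
        exact (Lk_congr ι c c' u d a (fun q hq => by
          have := hcz' q (by simp [hq])
          exact ⟨this.1.symm, this.2.symm⟩)).1 h2
      · rcases List.mem_cons.1 hy with rfl | hy
        · refine ⟨d, ?_⟩
          simp only [Lk, hι, hce, hce', true_and]
          exact (Lk_congr ι c c' w a d (fun q hq => by
            have := hcz' q (by simp [hq])
            exact ⟨this.1.symm, this.2.symm⟩)).1 h1
        · obtain ⟨s, hs⟩ := hc y (by simp [hy])
          refine ⟨s, (Lk_congr ι c c' y s s (fun q hq => by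
            have := hcz' q (by
              rw [List.flatten_cons, List.mem_append]
              exact Or.inr (List.mem_flatten.2 ⟨y, hy, hq⟩))
            exact ⟨this.1.symm, this.2.symm⟩)).1 hs⟩) z (hmo z hz) z' (hmo z' hz')
    rw [(hcz' z hz).1, (hcz' z' hz').1] at hmn
    exact hmn hcz

/-- one word is enough -/
theorem exists_single (hι : ∀ p, ι (ι p) = p) {ws : List (List X)} (h : St1 ι m ws v) :
    ∃ ws' : List (List X), ws'.length ≤ 1 ∧ St1 ι m ws' v := by
  induction hn : ws.length using Nat.strong_induction_on generalizing ws with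
  | _ n ih =>
    match ws, h, hn with
    | [], h, _ => exact ⟨[], by simp, h⟩
    | [w], h, _ => exact ⟨[w], by simp, h⟩
    | w0 :: w1 :: rs, h, hn =>
      have hnd := h.nodup
      rw [List.flatten_cons, List.nodup_append'] at hnd
      obtain ⟨hnd0, hnd1, hdis⟩ := hnd
      -- a letter of `w0` whose partner is outside
      obtain ⟨e, he, hie⟩ : ∃ e ∈ w0, ι e ∉ w0 := by
        by_contra hcon
        push Not at hcon
        obtain ⟨p, hp, -⟩ := h.cone w0 (by simp)
        obtain ⟨q, hq, -⟩ := h.cone w1 (by simp)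
        have hq0 : q ∉ w0 := fun hq' => hdis hq' (by simp [hq])
        apply hq0
        refine h.mono (fun z => z ∈ w0) (fun w hw => ?_) p (by simp [hp]) q (by simp [hq]) hp
        rcases List.mem_cons.1 hw with rfl | hw
        · exact ⟨True, Lk_const _ _ _ _ (fun z hz => ⟨by simp [hz], by simp [hcon z hz]⟩)⟩
        · refine ⟨False, Lk_const _ _ _ _ (fun z hz => ?_)⟩
          have hz0 : z ∉ w0 := fun hz' => hdis hz' (List.mem_flatten.2 ⟨w, hw, hz⟩)
          have hz1 : ι z ∉ w0 := fun hz' => hz0 (by
            have := hcon _ hz'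
            rwa [hι] at this)
          simp [hz0, hz1]
      -- the word of the partner
      have h1 := h.cl e (by simp [he])
      rw [List.flatten_cons, List.mem_append] at h1
      have h2 : ι e ∈ (w1 :: rs).flatten := h1.resolve_left hie
      obtain ⟨w, hw, hew⟩ := List.mem_flatten.1 h2
      obtain ⟨r1, r2, hr⟩ := List.append_of_mem hw
      obtain ⟨a, b, hab⟩ := List.append_of_mem he
      obtain ⟨a', b', hab'⟩ := List.append_of_mem hew
      have hp1 : (w0 :: w1 :: rs).Perm (w0 :: w :: (r1 ++ r2)) := by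
        rw [hr]
        exact List.Perm.cons _ List.perm_middle
      have s1 := h.perm hp1
      rw [hab] at s1
      have s2 := s1.rot
      have s3 := s2.perm (List.Perm.swap _ _ _)
      rw [hab'] at s3
      have s4 := (s3.rot).perm (List.Perm.swap _ _ _)
      rw [List.cons_append, List.cons_append] at s4
      have s5 := s4.merge hι
      refine ih _ ?_ s5 rfl
      have := hp1.length_eq
      simp only [List.length_cons] at this hn ⊢
      omega

end Pool.Agent.ToST
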