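import Pool.Agent.Lib.MP_305fdd_al.To.ST.NF1
import Pool.Agent.Lib.MP_305fdd_al.Su.Sig.Defs

/-!
# MP_305fdd_al, normal form of one-vertex presentations, part 2: handles

`St2`: a group with one word and a list of finished handles.
-/

set_option autoImplicit false

namespace Pool.Agent.ToST

open scoped commutatorElement

variable {X : Type}

/-- simultaneous conjugation of a pair -/
def cj {H : Type} [Group H] (g : H) (p : H × H) : H × H := (g * p.1 * g⁻¹, g * p.2 * g⁻¹)

/-- the commutator of a pair -/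
def cm {H : Type} [Group H] (p : H × H) : H := ⁅p.1, p.2⁆

section

variable {H K : Type} [Group H] [Group K]

theorem cm_cj (g : H) (p : H × H) : cm (cj g p) = g * cm p * g⁻¹ := by
  simp only [cm, cj, commutatorElement_def]
  group

theorem prod_cj (g : H) (hs : List (H × H)) :
    ((hs.map (cj g)).map cm).prod = g * (hs.map cm).prod * g⁻¹ := by
  induction hs with
  | nil => simp
  | cons p hs ih =>
    simp only [List.map_cons, List.prod_cons, ih, cm_cj]
    group

theorem cj_cj (g h : H) (p : H × H) : cj g (cj h p) = cj (g * h) p := by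
  simp only [cj, Prod.mk.injEq]
  constructor <;> group

theorem cj_one (p : H × H) : cj 1 p = p := by
  simp [cj]

theorem map_cj (φ : H →* K) (g : H) (p : H × H) :
    Prod.map φ φ (cj g p) = cj (φ g) (Prod.map φ φ p) := by
  simp [cj]

theorem map_map_cj (φ : H →* K) (g : H) (hs : List (H × H)) :
    (hs.map (cj g)).map (Prod.map φ φ) = (hs.map (Prod.map φ φ)).map (cj (φ g)) := by
  rw [List.map_map, List.map_map]
  exact List.map_congr_left (fun p _ => map_cj φ g p)

theorem cj_cancel (g : H) (hs : List (H × H)) : (hs.map (cj g)).map (cj g⁻¹) = hs := by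
  rw [List.map_map]
  conv_rhs => rw [← List.map_id hs]
  exact List.map_congr_left (fun p _ => by
    simp only [Function.comp, cj_cj, inv_mul_cancel, cj_one, id])

theorem cj_cancel' (g : H) (hs : List (H × H)) : (hs.map (cj g⁻¹)).map (cj g) = hs := by
  have := cj_cancel g⁻¹ hs
  rwa [inv_inv] at this

end

/-- one word, with finished handles -/
structure St2 (ι : X → X) (m : X → ℕ) (w : List X) {G : Type} [Group G] (hs : List (G × G))
    (v : X → G) : Prop where
  nodup : w.Nodup
  cl : ∀ p ∈ w, ι p ∈ w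
  inv : ∀ p ∈ w, ι p ≠ p → v (ι p) = (v p)⁻¹
  pow : ∀ p ∈ w, ι p = p → v p ^ m p = 1
  rel : (hs.map cm).prod * (w.map v).prod = 1
  univ : ∀ (H : Type) [Group H] (ks : List (H × H)) (x : X → H), ks.length = hs.length →
    (∀ p ∈ w, ι p ≠ p → x (ι p) = (x p)⁻¹) → (∀ p ∈ w, ι p = p → x p ^ m p = 1) →
    (ks.map cm).prod * (w.map x).prod = 1 →
    ∃ φ : G →* H, hs.map (Prod.map φ φ) = ks ∧ ∀ p ∈ w, φ (v p) = x p
  gen : ∀ K : Subgroup G, (∀ p ∈ w, v p ∈ K) → (∀ h ∈ hs, h.1 ∈ K ∧ h.2 ∈ K) → K = ⊤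
  mono : ∀ c : X → Prop, (∃ a, Lk ι c a w a) → ∀ p ∈ w, ∀ q ∈ w, c p → c q

variable {ι : X → X} {m : X → ℕ} {G : Type} [Group G] {v : X → G}

theorem St1.toSt2 {ws : List (List X)} (h : St1 ι m ws v) (hl : ws.length ≤ 1) :
    St2 ι m ws.flatten [] v := by
  have hprod : ∀ {H : Type} [Group H] (x : X → H), (∀ w ∈ ws, (w.map x).prod = 1) ↔
      (ws.flatten.map x).prod = 1 := by
    intro H _ x
    match ws, hl with
    | [], _ => simp
    | [w], _ => simp
  refine ⟨h.nodup, h.cl, h.inv, h.pow, ?_, ?_, ?_, ?_⟩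
  · simpa using (hprod v).1 h.rel
  · intro H _ ks x hks h1 h2 h3
    have hk : ks = [] := List.length_eq_zero_iff.1 hks
    subst hk
    obtain ⟨φ, hφ⟩ := h.univ H x h1 h2 ((hprod x).2 (by simpa using h3))
    exact ⟨φ, rfl, hφ⟩
  · intro K h1 _
    rw [eq_top_iff, ← h.gen, Subgroup.closure_le]
    rintro _ ⟨p, hp, rfl⟩
    exact h1 p hp
  · intro c hc
    refine h.mono c ?_
    match ws, hl, hc with
    | [], _, _ => simp
    | [w], _, hc => simpa using hc

theorem St2.rot {u w : List X} {hs : List (G × G)} (h : St2 ι m (u ++ w) hs v) :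
    St2 ι m (w ++ u) (hs.map (cj (w.map v).prod)) v := by
  have pf : (u ++ w).Perm (w ++ u) := List.perm_append_comm
  have mf : ∀ z, z ∈ w ++ u ↔ z ∈ u ++ w := fun z => pf.symm.mem_iff
  refine ⟨pf.nodup_iff.1 h.nodup, ?_, ?_, ?_, ?_, ?_, ?_, ?_⟩
  · intro z hz
    exact (mf _).2 (h.cl z ((mf z).1 hz))
  · intro z hz
    exact h.inv z ((mf z).1 hz)
  · intro z hz
    exact h.pow z ((mf z).1 hz)
  · have h1 := h.rel
    rw [List.map_append, List.prod_append] at h1 ⊢
    rw [prod_cj]
    have h2 := prod_swap (a := (hs.map cm).prod * (u.map v).prod) (b := (w.map v).prod)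
      (by rw [mul_assoc]; exact h1)
    rw [← h2]
    group
  · intro H _ ks x hks h1 h2 h3
    rw [List.length_map] at hks
    set W := (w.map x).prod with hW
    obtain ⟨φ, hφ1, hφ2⟩ := h.univ H (ks.map (cj W⁻¹)) x (by rw [List.length_map, hks])
      (fun z hz => h1 z ((mf z).2 hz)) (fun z hz => h2 z ((mf z).2 hz)) (by
        rw [List.map_append, List.prod_append] at h3 ⊢
        rw [prod_cj, ← hW]
        rw [← hW] at h3
        have h4 : (W⁻¹) * ((ks.map cm).prod * (W * (u.map x).prod)) * W = 1 := by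
          rw [h3]
          simp
        rw [← h4]
        group)
    refine ⟨φ, ?_, fun z hz => hφ2 z ((mf z).1 hz)⟩
    have hWφ : φ (w.map v).prod = W := by
      rw [map_list_prod, List.map_map, hW]
      congr 1
      exact List.map_congr_left (fun z hz => hφ2 z (by simp [hz]))
    rw [map_map_cj, hφ1, hWφ, cj_cancel']
  · intro K h1 h2
    have hWK : (w.map v).prod ∈ K := by
      apply Subgroup.list_prod_mem
      intro y hy
      obtain ⟨z, hz, rfl⟩ := List.mem_map.1 hy
      exact h1 z (by simp [hz])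
    refine h.gen K (fun z hz => h1 z ((mf z).2 hz)) (fun q hq => ?_)
    have h3 := h2 _ (List.mem_map_of_mem (f := cj (w.map v).prod) hq)
    simp only [cj] at h3
    constructor
    · have := K.mul_mem (K.mul_mem (K.inv_mem hWK) h3.1) hWK
      have e : ((w.map v).prod)⁻¹ * ((w.map v).prod * q.1 * ((w.map v).prod)⁻¹) * (w.map v).prod
        = q.1 := by group
      rwa [e] at this
    · have := K.mul_mem (K.mul_mem (K.inv_mem hWK) h3.2) hWK
      have e : ((w.map v).prod)⁻¹ * ((w.map v).prod * q.2 * ((w.map v).prod)⁻¹) * (w.map v).prod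
        = q.2 := by group
      rwa [e] at this
  · rintro c ⟨a, ha⟩ z hz z' hz'
    obtain ⟨d, h1, h2⟩ := (Lk_append _ _ _ _ _ _).1 ha
    exact h.mono c ⟨d, (Lk_append _ _ _ _ _ _).2 ⟨a, h2, h1⟩⟩ z ((mf z).1 hz) z' ((mf z').1 hz')

open Classical in
/-- an interlaced pair of letters is made into a handle -/
theorem St2.handle (hι : ∀ p, ι (ι p) = p) {e f : X} {A B C D : List X} {hs : List (G × G)}
    (h : St2 ι m (e :: (A ++ f :: (B ++ ι e :: (C ++ ι f :: D)))) hs v) :
    St2 ι m (A ++ (D ++ (C ++ B)))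
      (hs.map (cj ((C.map v).prod * (B.map v).prod)⁻¹) ++
        [(((C.map v).prod * (B.map v).prod)⁻¹ * v e, (A.map v).prod * v f * (B.map v).prod)]) v := by
  have hnd := h.nodup
  -- the old word as a permutation
  have pf : (e :: (A ++ f :: (B ++ ι e :: (C ++ ι f :: D)))).Perm
      (e :: f :: ι e :: ι f :: (A ++ (D ++ (C ++ B)))) := by
    refine List.Perm.cons _ ?_
    refine (List.perm_middle).trans (List.Perm.cons _ ?_)
    have p1 : (A ++ (B ++ ι e :: (C ++ ι f :: D))).Perm (ι e :: ((A ++ B) ++ (C ++ ι f :: D))) := by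
      rw [← List.append_assoc]
      exact List.perm_middle
    refine p1.trans (List.Perm.cons _ ?_)
    have p2 : ((A ++ B) ++ (C ++ ι f :: D)).Perm (ι f :: (((A ++ B) ++ C) ++ D)) := by
      rw [← List.append_assoc]
      exact List.perm_middle
    refine p2.trans (List.Perm.cons _ ?_)
    rw [List.append_assoc, List.append_assoc]
    refine List.Perm.append_left _ ?_
    -- B ++ (C ++ D) ~ D ++ (C ++ B)
    have p3 : (B ++ (C ++ D)).Perm ((C ++ D) ++ B) := List.perm_append_comm
    have p4 : ((C ++ D) ++ B).Perm ((D ++ C) ++ B) :=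
      List.Perm.append_right _ List.perm_append_comm
    have p5 : (D ++ C) ++ B = D ++ (C ++ B) := List.append_assoc _ _ _
    rw [p5] at p4
    exact p3.trans p4
  have hnd' := pf.nodup_iff.1 hnd
  set N : List X := A ++ (D ++ (C ++ B)) with hN
  have hef : e ≠ f := by
    intro h0
    simp [h0] at hnd'
  have hee : ι e ≠ e := by
    intro h0
    simp [h0] at hnd'
  have hff : ι f ≠ f := by
    intro h0
    simp [h0] at hnd'
  have hef' : e ≠ ι f := by
    intro h0
    simp [← h0] at hnd'
  have hfe' : f ≠ ι e := by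
    intro h0
    simp [← h0] at hnd'
  have hief : ι e ≠ ι f := by
    intro h0
    simp [h0] at hnd'
  simp only [List.nodup_cons, List.mem_cons, not_or] at hnd'
  obtain ⟨⟨-, -, -, heN⟩, ⟨-, -, hfN⟩, ⟨-, hieN⟩, hifN, hndN⟩ := hnd'
  have mem_old : ∀ z, z ∈ (e :: (A ++ f :: (B ++ ι e :: (C ++ ι f :: D)))) ↔
      z = e ∨ z = f ∨ z = ι e ∨ z = ι f ∨ z ∈ N := by
    intro z
    rw [pf.mem_iff]
    simp only [List.mem_cons]
  have hmo : ∀ z, z ∈ N → z ∈ (e :: (A ++ f :: (B ++ ι e :: (C ++ ι f :: D)))) :=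
    fun z hz => (mem_old z).2 (Or.inr (Or.inr (Or.inr (Or.inr hz))))
  have hze : ∀ z, z ∈ N → (z ≠ e ∧ z ≠ f ∧ z ≠ ι e ∧ z ≠ ι f) ∧
      (ι z ≠ e ∧ ι z ≠ f ∧ ι z ≠ ι e ∧ ι z ≠ ι f) := by
    intro z hz
    refine ⟨⟨fun h0 => heN (h0 ▸ hz), fun h0 => hfN (h0 ▸ hz), fun h0 => hieN (h0 ▸ hz),
      fun h0 => hifN (h0 ▸ hz)⟩, fun h0 => hieN ?_, fun h0 => hifN ?_, fun h0 => heN ?_,
      fun h0 => hfN ?_⟩
    · rw [← h0, hι]
      exact hz
    · rw [← h0, hι]
      exact hz
    · have : z = e := by rw [← hι z, h0, hι]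
      exact this ▸ hz
    · have : z = f := by rw [← hι z, h0, hι]
      exact this ▸ hz
  have hAN : ∀ z ∈ A, z ∈ N := fun z hz => by simp [hN, hz]
  have hBN : ∀ z ∈ B, z ∈ N := fun z hz => by simp [hN, hz]
  have hCN : ∀ z ∈ C, z ∈ N := fun z hz => by simp [hN, hz]
  have hDN : ∀ z ∈ D, z ∈ N := fun z hz => by simp [hN, hz]
  have hie : v (ι e) = (v e)⁻¹ := h.inv e ((mem_old e).2 (by simp)) hee
  have hif : v (ι f) = (v f)⁻¹ := h.inv f ((mem_old f).2 (by simp)) hff
  have hprodO : ∀ {H : Type} [Group H] (x : X → H),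
      ((e :: (A ++ f :: (B ++ ι e :: (C ++ ι f :: D)))).map x).prod =
        x e * ((A.map x).prod * (x f * ((B.map x).prod * (x (ι e) * ((C.map x).prod *
          (x (ι f) * (D.map x).prod)))))) := by
    intro H _ x
    simp only [List.map_cons, List.map_append, List.prod_cons, List.prod_append]
  have hprodN : ∀ {H : Type} [Group H] (x : X → H), (N.map x).prod =
      (A.map x).prod * ((D.map x).prod * ((C.map x).prod * (B.map x).prod)) := by
    intro H _ x
    simp only [hN, List.map_append, List.prod_append]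
  refine ⟨hndN, ?_, ?_, ?_, ?_, ?_, ?_, ?_⟩
  · intro z hz
    have h1 := (mem_old _).1 (h.cl z (hmo z hz))
    obtain ⟨-, g1, g2, g3, g4⟩ := hze z hz
    rcases h1 with h1 | h1 | h1 | h1 | h1
    · exact absurd h1 g1
    · exact absurd h1 g2
    · exact absurd h1 g3
    · exact absurd h1 g4
    · exact h1
  · exact fun z hz => h.inv z (hmo z hz)
  · exact fun z hz => h.pow z (hmo z hz)
  · -- the new relation
    have h1 := h.rel
    rw [hprodO, hie, hif] at h1
    rw [hprodN, List.map_append, List.prod_append, prod_cj]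
    simp only [List.map_cons, List.map_nil, List.prod_cons, List.prod_nil, mul_one, cm]
    set P := (hs.map cm).prod
    set a := (A.map v).prod
    set b := (B.map v).prod
    set c := (C.map v).prod
    set d := (D.map v).prod
    have h2 : (c * b)⁻¹ * (P * (v e * (a * (v f * (b * ((v e)⁻¹ * (c * ((v f)⁻¹ * d)))))))) *
        (c * b) = 1 := by
      rw [h1]
      simp
    rw [← h2, commutatorElement_def]
    group
  · -- the universal property
    intro H _ ks x hks h1 h2 h3
    obtain ⟨k0, r, s, rfl⟩ : ∃ (k0 : List (H × H)) (r s : H), ks = k0 ++ [(r, s)] := by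
      have hne : ks ≠ [] := by
        intro h0
        rw [h0] at hks
        simp at hks
      exact ⟨ks.dropLast, (ks.getLast hne).1, (ks.getLast hne).2,
        (List.dropLast_append_getLast hne).symm⟩
    have hk0 : k0.length = hs.length := by
      simpa using hks
    set a := (A.map x).prod with ha
    set b := (B.map x).prod with hb
    set c := (C.map x).prod with hc
    set d := (D.map x).prod with hd
    set Q := c * b with hQ
    set x' : X → H := fun z => if z = e then Q * r else if z = f then a⁻¹ * s * b⁻¹ else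
      if z = ι e then (Q * r)⁻¹ else if z = ι f then (a⁻¹ * s * b⁻¹)⁻¹ else x z with hx'
    have hx1 : ∀ z, z ∈ N → x' z = x z := by
      intro z hz
      obtain ⟨⟨g1, g2, g3, g4⟩, -⟩ := hze z hz
      simp only [hx', g1, g2, g3, g4, if_false]
    have hx2 : ∀ z, z ∈ N → x' (ι z) = x (ι z) := by
      intro z hz
      obtain ⟨-, g1, g2, g3, g4⟩ := hze z hz
      simp only [hx', g1, g2, g3, g4, if_false]
    have hxe : x' e = Q * r := by simp [hx']
    have hxf : x' f = a⁻¹ * s * b⁻¹ := by simp [hx', hef.symm]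
    have hxie : x' (ι e) = (Q * r)⁻¹ := by simp [hx', hee, hfe'.symm]
    have hxif : x' (ι f) = (a⁻¹ * s * b⁻¹)⁻¹ := by simp [hx', hff, hef'.symm, hief.symm]
    have hxm : ∀ l : List X, (∀ z ∈ l, z ∈ N) → l.map x' = l.map x :=
      fun l hl => List.map_congr_left (fun z hz => hx1 z (hl z hz))
    obtain ⟨φ, hφ1, hφ2⟩ := h.univ H (k0.map (cj Q)) x' (by rw [List.length_map, hk0]) (by
        intro z hz hzz
        rcases (mem_old z).1 hz with rfl | rfl | rfl | rfl | hz
        · rw [hxe, hxie]
        · rw [hxf, hxif]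
        · rw [hι, hxe, hxie, inv_inv]
        · rw [hι, hxf, hxif, inv_inv]
        · rw [hx1 z hz, hx2 z hz]
          exact h1 z hz hzz) (by
        intro z hz hzz
        rcases (mem_old z).1 hz with rfl | rfl | rfl | rfl | hz
        · exact absurd hzz hee
        · exact absurd hzz hff
        · rw [hι] at hzz
          exact absurd hzz.symm hee
        · rw [hι] at hzz
          exact absurd hzz.symm hff
        · rw [hx1 z hz]
          exact h2 z hz hzz) (by
        rw [hprodO, hxm A hAN, hxm B hBN, hxm C hCN, hxm D hDN, hxe, hxf, hxie, hxif,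
          ← ha, ← hb, ← hc, ← hd, prod_cj]
        rw [hprodN, ← ha, ← hb, ← hc, ← hd, List.map_append, List.prod_append] at h3
        simp only [List.map_cons, List.map_nil, List.prod_cons, List.prod_nil, mul_one, cm] at h3
        have h4 : Q * ((k0.map fun p => ⁅p.1, p.2⁆).prod * ⁅r, s⁆ * (a * (d * (c * b)))) * Q⁻¹ = 1 := by
          have h5 : (k0.map fun p => ⁅p.1, p.2⁆) = k0.map cm := rfl
          rw [h5, h3]
          simp
        have h5 : (k0.map fun p => ⁅p.1, p.2⁆) = k0.map cm := rfl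
        rw [h5, commutatorElement_def] at h4
        rw [← h4, hQ]
        group)
    have hφl : ∀ l : List X, (∀ z ∈ l, z ∈ N) → φ (l.map v).prod = (l.map x).prod := by
      intro l hl
      rw [map_list_prod, List.map_map]
      congr 1
      exact List.map_congr_left (fun z hz => by
        rw [Function.comp, hφ2 z (hmo z (hl z hz)), hx1 z (hl z hz)])
    refine ⟨φ, ?_, fun z hz => by rw [hφ2 z (hmo z hz), hx1 z hz]⟩
    rw [List.map_append, map_map_cj, hφ1]
    simp only [List.map_cons, List.map_nil, Prod.map, map_mul, map_inv, hφl A hAN, hφl B hBN,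
      hφl C hCN]
    rw [hφ2 e ((mem_old e).2 (by simp)), hφ2 f ((mem_old f).2 (by simp)), hxe, hxf,
      ← ha, ← hb, ← hc, ← hQ, cj_cancel]
    have e1 : Q⁻¹ * (Q * r) = r := by group
    have e2 : a * (a⁻¹ * s * b⁻¹) * b = s := by group
    rw [e1, e2]
  · -- generation
    intro K g1 g2
    have hl : ∀ l : List X, (∀ z ∈ l, z ∈ N) → (l.map v).prod ∈ K := by
      intro l hl
      apply Subgroup.list_prod_mem
      intro y hy
      obtain ⟨z, hz, rfl⟩ := List.mem_map.1 hy
      exact g1 z (hl z hz)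
    have hA := hl A hAN
    have hB := hl B hBN
    have hC := hl C hCN
    set Q := (C.map v).prod * (B.map v).prod with hQ
    have hQK : Q ∈ K := K.mul_mem hC hB
    have hlast := g2 (Q⁻¹ * v e, (A.map v).prod * v f * (B.map v).prod) (by simp)
    have hve : v e ∈ K := by
      have := K.mul_mem hQK hlast.1
      simpa using this
    have hvf : v f ∈ K := by
      have := K.mul_mem (K.mul_mem (K.inv_mem hA) hlast.2) (K.inv_mem hB)
      have e1 : ((A.map v).prod)⁻¹ * ((A.map v).prod * v f * (B.map v).prod) *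
        ((B.map v).prod)⁻¹ = v f := by group
      rwa [e1] at this
    refine h.gen K ?_ ?_
    · intro z hz
      rcases (mem_old z).1 hz with rfl | rfl | rfl | rfl | hz
      · exact hve
      · exact hvf
      · rw [hie]
        exact K.inv_mem hve
      · rw [hif]
        exact K.inv_mem hvf
      · exact g1 z hz
    · intro q hq
      have h3 := g2 (cj Q⁻¹ q) (by
        rw [List.mem_append]
        exact Or.inl (List.mem_map_of_mem hq))
      simp only [cj] at h3
      constructor
      · have := K.mul_mem (K.mul_mem hQK h3.1) (K.inv_mem hQK)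
        have e1 : Q * (Q⁻¹ * q.1 * Q⁻¹⁻¹) * Q⁻¹ = q.1 := by group
        rwa [e1] at this
      · have := K.mul_mem (K.mul_mem hQK h3.2) (K.inv_mem hQK)
        have e1 : Q * (Q⁻¹ * q.2 * Q⁻¹⁻¹) * Q⁻¹ = q.2 := by group
        rwa [e1] at this
  · -- colourings
    rintro c ⟨a1, ha⟩ z hz z' hz' hcz
    obtain ⟨a2, h1, ha⟩ := (Lk_append _ _ _ _ _ _).1 ha
    obtain ⟨a3, h2, ha⟩ := (Lk_append _ _ _ _ _ _).1 ha
    obtain ⟨a4, h3, h4⟩ := (Lk_append _ _ _ _ _ _).1 ha
    set c' : X → Prop := fun z => if z = e then a3 else if z = f then a2 else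
      if z = ι e then a1 else if z = ι f then a4 else c z with hc'
    have hce : c' e = a3 := by simp [hc']
    have hcf : c' f = a2 := by simp [hc', hef.symm]
    have hcie : c' (ι e) = a1 := by simp [hc', hee, hfe'.symm]
    have hcif : c' (ι f) = a4 := by simp [hc', hff, hef'.symm, hief.symm]
    have hcz' : ∀ y, y ∈ N → c' y = c y ∧ c' (ι y) = c (ι y) := by
      intro y hy
      obtain ⟨⟨g1, g2, g3, g4⟩, g5, g6, g7, g8⟩ := hze y hy
      simp only [hc', g1, g2, g3, g4, g5, g6, g7, g8, if_false, and_self]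
    have hcg : ∀ (l : List X) (s t : Prop), (∀ y ∈ l, y ∈ N) → Lk ι c s l t → Lk ι c' s l t :=
      fun l s t hl hh => (Lk_congr ι c c' l s t (fun q hq => by
        have := hcz' q (hl q hq)
        exact ⟨this.1.symm, this.2.symm⟩)).1 hh
    have hmn := h.mono c' ⟨a3, by
      refine ⟨hce.symm, ?_⟩
      rw [hcie]
      refine (Lk_append _ _ _ _ _ _).2 ⟨a2, hcg A _ _ hAN h1, hcf.symm, ?_⟩
      rw [hcif]
      refine (Lk_append _ _ _ _ _ _).2 ⟨a1, hcg B _ _ hBN h4, hcie.symm, ?_⟩
      rw [hι, hce]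
      refine (Lk_append _ _ _ _ _ _).2 ⟨a4, hcg C _ _ hCN h3, hcif.symm, ?_⟩
      rw [hι, hcf]
      exact hcg D _ _ hDN h2⟩ z (hmo z hz) z' (hmo z' hz')
    rw [(hcz' z hz).1, (hcz' z' hz').1] at hmn
    exact hmn hcz

end Pool.Agent.ToST
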