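import Pool.Agent.Lib.MP_305fdd_al.To.ST.NF2

/-!
# MP_305fdd_al, normal form of one-vertex presentations, part 3: the group of a signature
-/

set_option autoImplicit false

namespace Pool.Agent.ToST

open scoped commutatorElement

variable {X : Type} {ι : X → X} {m : X → ℕ} {G : Type} [Group G] {v : X → G}

theorem prod_filter_of_one {H : Type} [Group H] (x : X → H) (P : X → Bool) (w : List X)
    (h : ∀ p ∈ w, P p = false → x p = 1) : ((w.filter P).map x).prod = (w.map x).prod := by
  induction w with
  | nil => rfl
  | cons p w ih =>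
    have ih' := ih (fun q hq => h q (by simp [hq]))
    rw [List.filter_cons]
    by_cases hp : P p
    · simp only [hp, if_true, List.map_cons, List.prod_cons, ih']
    · have h1 := h p (by simp) (by simpa using hp)
      simp only [hp, Bool.false_eq_true, if_false, List.map_cons, List.prod_cons, ih', h1, one_mul]

theorem ofFn_get_map {A B : Type} (l : List A) (f : A → B) :
    List.ofFn (fun i : Fin l.length => f (l.get i)) = l.map f := by
  conv_rhs => rw [← List.ofFn_get l]
  rw [List.map_ofFn]
  rfl

open Classical in
/-- all tokens are cone tokens: the group of a signature -/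
theorem St2.sig {w : List X} {hs : List (G × G)} (h : St2 ι m w hs v) (hm : ∀ p, 0 < m p)
    (hc : ∀ p ∈ w, ι p = p) :
    ∃ (g k : ℕ) (m' : Fin k → ℕ), (∀ j, 2 ≤ m' j) ∧ ∃ e : G ≃* Sg.SigGroup g k m',
      ∀ j, ∃ p, ι p = p ∧ m p = m' j ∧ e (v p) = Sg.xx j := by
  set w1 : List X := w.filter (fun p => decide (m p ≠ 1)) with hw1
  have hnd1 : w1.Nodup := h.nodup.filter _
  have hinj : Function.Injective w1.get := List.nodup_iff_injective_get.1 hnd1
  have mw1 : ∀ p, p ∈ w1 ↔ p ∈ w ∧ m p ≠ 1 := by
    intro p
    simp [hw1]
  set g := hs.length with hg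
  set k := w1.length with hk
  set m' : Fin k → ℕ := fun j => m (w1.get j) with hm'
  have hget : ∀ j : Fin k, w1.get j ∈ w ∧ m (w1.get j) ≠ 1 := fun j =>
    (mw1 _).1 (List.get_mem _ _)
  -- the homomorphism to `G`
  have hvp : ((w1.map v).prod) = (w.map v).prod := by
    refine prod_filter_of_one v _ w (fun p hp hpp => ?_)
    have h1 : m p = 1 := by simpa using hpp
    have := h.pow p hp (hc p hp)
    rwa [h1, pow_one] at this
  have hlong : (List.ofFn fun i : Fin g => ⁅(hs.get i).1, (hs.get i).2⁆).prod *
      (List.ofFn fun j : Fin k => v (w1.get j)).prod = 1 := by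
    have e1 : (List.ofFn fun i : Fin g => ⁅(hs.get i).1, (hs.get i).2⁆) = hs.map cm :=
      ofFn_get_map hs cm
    have e2 : (List.ofFn fun j : Fin k => v (w1.get j)) = w1.map v := ofFn_get_map w1 v
    rw [e1, e2, hvp]
    exact h.rel
  set fw : Sg.SigGroup g k m' →* G := Sg.lift (fun i => (hs.get i).1) (fun i => (hs.get i).2)
    (fun j => v (w1.get j)) hlong (fun j => h.pow _ (hget j).1 (hc _ (hget j).1)) with hfw
  -- the homomorphism from `G`
  set x : X → Sg.SigGroup g k m' := fun p => if hp : ∃ j : Fin k, w1.get j = p then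
    Sg.xx (Classical.choose hp) else 1 with hx
  have hxg : ∀ j : Fin k, x (w1.get j) = Sg.xx j := by
    intro j
    have hp : ∃ j' : Fin k, w1.get j' = w1.get j := ⟨j, rfl⟩
    have h1 := Classical.choose_spec hp
    simp only [hx, hp, dif_pos]
    congr 1
    exact hinj h1
  have hx1 : ∀ p, p ∉ w1 → x p = 1 := by
    intro p hp
    have : ¬ ∃ j : Fin k, w1.get j = p := by
      rintro ⟨j, rfl⟩
      exact hp (List.get_mem _ _)
    simp only [hx, this, dif_neg, not_false_iff]
  have hxp : (w.map x).prod = (List.ofFn fun j : Fin k => (Sg.xx j : Sg.SigGroup g k m')).prod := by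
    rw [← prod_filter_of_one x (fun p => decide (m p ≠ 1)) w (fun p hp hpp => hx1 p (by
      rw [mw1]
      simp at hpp
      simp [hpp]))]
    congr 1
    rw [← hw1, ← ofFn_get_map w1 x]
    congr 1
    funext j
    exact hxg j
  obtain ⟨φ, hφ1, hφ2⟩ := h.univ (Sg.SigGroup g k m')
    (List.ofFn fun i : Fin g => ((Sg.aa i : Sg.SigGroup g k m'), Sg.bb i)) x
    (by simp [hg]) (fun p hp hpp => absurd (hc p hp) hpp) (by
      intro p hp _
      by_cases hp1 : p ∈ w1
      · obtain ⟨j, rfl⟩ := List.mem_iff_get.1 hp1
        rw [hxg j]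
        exact Sg.xx_pow j
      · rw [hx1 p hp1, one_pow]) (by
      rw [hxp, List.map_ofFn]
      exact Sg.long)
  have hφa : ∀ i : Fin g, (φ (hs.get i).1, φ (hs.get i).2) =
      ((Sg.aa i : Sg.SigGroup g k m'), Sg.bb i) := by
    have e1 : hs.map (Prod.map φ φ) =
        List.ofFn fun i : Fin g => (Prod.map φ φ (hs.get i)) := (ofFn_get_map hs _).symm
    rw [e1] at hφ1
    have e2 := List.ofFn_injective hφ1
    intro i
    exact congrFun e2 i
  have hbij : Function.Bijective fw := by
    have hl : ∀ z, φ (fw z) = z := by
      have : φ.comp fw = MonoidHom.id _ := by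
        apply Sg.hom_ext
        · intro i
          simp only [MonoidHom.comp_apply, hfw, Sg.lift_aa, MonoidHom.id_apply]
          exact congrArg Prod.fst (hφa i)
        · intro i
          simp only [MonoidHom.comp_apply, hfw, Sg.lift_bb, MonoidHom.id_apply]
          exact congrArg Prod.snd (hφa i)
        · intro j
          simp only [MonoidHom.comp_apply, hfw, Sg.lift_xx, MonoidHom.id_apply]
          rw [hφ2 _ (hget j).1, hxg j]
      intro z
      exact DFunLike.congr_fun this z
    have hr : ∀ z, fw (φ z) = z := by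
      have h1 : (fw.comp φ).eqLocus (MonoidHom.id G) = ⊤ := by
        apply h.gen
        · intro p hp
          change fw (φ (v p)) = v p
          rw [hφ2 p hp]
          by_cases hp1 : p ∈ w1
          · obtain ⟨j, rfl⟩ := List.mem_iff_get.1 hp1
            rw [hxg j, hfw, Sg.lift_xx]
          · rw [hx1 p hp1, map_one]
            have h2 : m p = 1 := by
              by_contra h3
              exact hp1 ((mw1 p).2 ⟨hp, h3⟩)
            have := h.pow p hp (hc p hp)
            rw [h2, pow_one] at this
            exact this.symm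
        · intro q hq
          obtain ⟨i, rfl⟩ := List.mem_iff_get.1 hq
          have h2 := hφa i
          constructor
          · change fw (φ (hs.get i).1) = (hs.get i).1
            have h3 : φ (hs.get i).1 = Sg.aa i := congrArg Prod.fst h2
            rw [h3, hfw, Sg.lift_aa]
          · change fw (φ (hs.get i).2) = (hs.get i).2
            have h3 : φ (hs.get i).2 = Sg.bb i := congrArg Prod.snd h2
            rw [h3, hfw, Sg.lift_bb]
      intro z
      have : z ∈ (fw.comp φ).eqLocus (MonoidHom.id G) := by
        rw [h1]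
        trivial
      exact this
    exact ⟨fun a b hab => by rw [← hl a, ← hl b, hab], fun z => ⟨φ z, hr z⟩⟩
  refine ⟨g, k, m', ?_, MulEquiv.symm (MulEquiv.ofBijective fw hbij), ?_⟩
  · intro j
    have h1 := (hget j).2
    have h2 := hm (w1.get j)
    have h3 : m' j = m (w1.get j) := rfl
    omega
  · intro j
    refine ⟨w1.get j, hc _ (hget j).1, rfl, ?_⟩
    rw [MulEquiv.symm_apply_eq]
    have h1 : fw (Sg.xx j) = v (w1.get j) := by
      rw [hfw, Sg.lift_xx]
    exact h1.symm

/-- one word: the group of a signature -/
theorem St2.final (hι : ∀ p, ι (ι p) = p) (hm : ∀ p, 0 < m p) {w : List X} {hs : List (G × G)}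
    (h : St2 ι m w hs v) :
    ∃ (g k : ℕ) (m' : Fin k → ℕ), (∀ j, 2 ≤ m' j) ∧ ∃ e : G ≃* Sg.SigGroup g k m',
      ∀ j, ∃ p, ι p = p ∧ m p = m' j ∧ e (v p) = Sg.xx j := by
  induction hn : w.length using Nat.strong_induction_on generalizing w hs with
  | _ n ih =>
    by_cases hc : ∀ p ∈ w, ι p = p
    · exact h.sig hm hc
    push Not at hc
    obtain ⟨e, he, hee⟩ := hc
    obtain ⟨a, b, hab⟩ := List.append_of_mem he
    rw [hab] at h
    have h1 := h.rot
    rw [List.cons_append] at h1
    set w' := b ++ a with hw'
    have hlw : w.length = w'.length + 1 := by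
      rw [hab, hw']
      simp
      omega
    have hie : ι e ∈ w' := by
      have := h1.cl e (by simp)
      rcases List.mem_cons.1 this with h0 | h0
      · exact absurd h0 hee
      · exact h0
    obtain ⟨A', B', hAB⟩ := List.append_of_mem hie
    rw [hAB] at h1
    have hnd := h1.nodup
    have hnd' : (e :: ι e :: (A' ++ B')).Nodup :=
      (List.Perm.cons e List.perm_middle).nodup_iff.1 hnd
    simp only [List.nodup_cons, List.mem_cons, List.mem_append, not_or] at hnd'
    obtain ⟨⟨-, heA, heB⟩, ⟨hieA, hieB⟩, hndAB⟩ := hnd'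
    rw [List.nodup_append'] at hndAB
    obtain ⟨-, -, hdis⟩ := hndAB
    -- an interlaced letter
    obtain ⟨f, hf, hff⟩ : ∃ f ∈ A', ι f ∉ A' := by
      by_contra hcon
      push Not at hcon
      set c0 : X → Prop := fun z => z ∈ A' ∨ z = ι e with hc0
      have e1 : c0 (ι e) = True := by simp [hc0]
      have e2 : c0 e = False := by simp [hc0, heA, Ne.symm hee]
      have hkey := h1.mono c0 ⟨False, by
        refine ⟨e2.symm, ?_⟩
        rw [e1]
        refine (Lk_append _ _ _ _ _ _).2 ⟨True, Lk_const _ _ _ _ (fun z hz => ?_), e1.symm, ?_⟩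
        · simp [hc0, hz, hcon z hz]
        · rw [hι, e2]
          refine Lk_const _ _ _ _ (fun z hz => ?_)
          have hzA : z ∉ A' := fun h0 => hdis h0 hz
          have hze : z ≠ ι e := fun h0 => hieB (h0 ▸ hz)
          have hzA' : ι z ∉ A' := fun h0 => hzA (by
            have := hcon _ h0
            rwa [hι] at this)
          have hze' : ι z ≠ ι e := fun h0 => heB (by
            have : z = e := by rw [← hι z, h0, hι]
            exact this ▸ hz)
          simp [hc0, hzA, hze, hzA', hze']⟩ (ι e) (by simp) e (by simp) (Or.inr rfl)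
      rcases hkey with h0 | h0
      · exact heA h0
      · exact hee h0.symm
    have hfB : ι f ∈ B' := by
      have h2 := h1.cl f (by simp [hf])
      simp only [List.mem_cons, List.mem_append] at h2
      rcases h2 with h2 | h2 | h2 | h2
      · exfalso
        apply hieA
        have : f = ι e := by rw [← hι f, h2]
        exact this ▸ hf
      · exact absurd h2 hff
      · exfalso
        apply heA
        have : f = e := by rw [← hι f, h2, hι]
        exact this ▸ hf
      · exact h2
    obtain ⟨A, B, hA⟩ := List.append_of_mem hf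
    obtain ⟨C, D, hB⟩ := List.append_of_mem hfB
    rw [hA, hB, List.append_assoc, List.cons_append] at h1
    refine ih _ ?_ (h1.handle hι) rfl
    rw [hAB, hA, hB] at hlw
    simp only [List.length_append, List.length_cons] at hlw ⊢
    omega

end Pool.Agent.ToST
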