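import Pool.Agent.Lib.MP_305fdd_al.To.ST.Sym

/-!
# MP_305fdd_al, torsion room (ST), Part E: from `PSL(2, ℝ)` to `Lat`
-/

set_option autoImplicit false

namespace Pool.Agent.ToST

open Matrix

/-- `PSL(2, ℝ)` -/
abbrev PSL2R : Type :=
  SpecialLinearGroup (Fin 2) ℝ ⧸ Subgroup.center (SpecialLinearGroup (Fin 2) ℝ)

/-- a base point avoiding countably many proper subspaces -/
theorem exists_base {ι : Type} [Countable ι] (W : ι → Submodule ℝ V) (h : ∀ i, W i ≠ ⊤) :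
    ∃ P ∈ Om, B P P = 1 ∧ ∀ i, P ∉ W i := by
  have hnull : MeasureTheory.volume (⋃ i, (W i : Set V)) = 0 := by
    rw [MeasureTheory.measure_iUnion_null_iff]
    intro i
    exact MeasureTheory.Measure.addHaar_submodule _ _ (h i)
  have hpos : 0 < MeasureTheory.volume Om := by
    refine Om_open.measure_pos MeasureTheory.volume ⟨![1, 0, 0], ?_, ?_⟩
    · simp [B]
    · simp
  have hex : ∃ Z ∈ Om, Z ∉ ⋃ i, (W i : Set V) := by
    by_contra hn
    push Not at hn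
    have h1 : MeasureTheory.volume Om ≤ MeasureTheory.volume (⋃ i, (W i : Set V)) :=
      MeasureTheory.measure_mono hn
    rw [hnull] at h1
    exact absurd hpos (not_lt.mpr h1)
  obtain ⟨Z, hZ, hn⟩ := hex
  have hs : 0 < √(B Z Z) := Real.sqrt_pos.mpr hZ.1
  refine ⟨(√(B Z Z))⁻¹ • Z, Om_smul (by positivity) hZ, ?_, ?_⟩
  · rw [B_smul_left, B_smul_right]
    have h2 : √(B Z Z) * √(B Z Z) = B Z Z := Real.mul_self_sqrt hZ.1.le
    field_simp
    nlinarith
  · intro i hi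
    apply hn
    rw [Set.mem_iUnion]
    refine ⟨i, ?_⟩
    have h3 : Z = √(B Z Z) • ((√(B Z Z))⁻¹ • Z) := by
      rw [smul_smul, mul_inv_cancel₀ hs.ne', one_smul]
    rw [h3]
    exact (W i).smul_mem _ hi

theorem symRep_center (A : SpecialLinearGroup (Fin 2) ℝ)
    (hA : A ∈ Subgroup.center (SpecialLinearGroup (Fin 2) ℝ)) : symRep A = 1 := by
  rw [Matrix.SpecialLinearGroup.mem_center_iff] at hA
  obtain ⟨r, h1, h2⟩ := hA
  have h00 : A 0 0 = r := by rw [← h2]; simp [Matrix.scalar]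
  have h01 : A 0 1 = 0 := by rw [← h2]; simp [Matrix.scalar]
  have h10 : A 1 0 = 0 := by rw [← h2]; simp [Matrix.scalar]
  have h11 : A 1 1 = r := by rw [← h2]; simp [Matrix.scalar]
  have hr : r ^ 2 = 1 := by simpa using h1
  apply LinearMap.ext
  intro Z
  rw [symRep_apply, symLin_apply, h00, h01, h10, h11]
  ext i
  fin_cases i
  · simp [symFun, hr]
  · simp [symFun, hr]
    ring
  · simp [symFun]
    linear_combination Z 2 * hr

/-- the action of `PSL(2, ℝ)` -/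
noncomputable def symQ : PSL2R →* (V →ₗ[ℝ] V) :=
  QuotientGroup.lift _ symRep symRep_center

theorem symQ_mk (A : SpecialLinearGroup (Fin 2) ℝ) : symQ (A : PSL2R) = symRep A := rfl

theorem symQ_faithful (x : PSL2R) (h : ∀ Z : V, symQ x Z = Z) : x = 1 := by
  induction x using QuotientGroup.induction_on with
  | H A =>
    rw [symQ_mk] at h
    rcases eq_of_symLin_trivial A h with h1 | h1
    · rw [h1]
      rfl
    · rw [QuotientGroup.eq_one_iff, h1, Matrix.SpecialLinearGroup.mem_center_iff]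
      refine ⟨-1, by simp, ?_⟩
      ext i j
      fin_cases i <;> fin_cases j <;> simp [Matrix.scalar]

/-- the bound of a matrix of `SL(2, ℝ)` by its displacement -/
theorem entries_le_of_B {P : V} (hP : P ∈ Om) :
    ∃ C : ℝ, ∀ A : SpecialLinearGroup (Fin 2) ℝ,
      A 0 0 ^ 2 + A 0 1 ^ 2 + A 1 0 ^ 2 + A 1 1 ^ 2 ≤ C * B P (symLin A P) := by
  obtain ⟨δ, h1, h2, h3⟩ := exists_delta hP
  refine ⟨2 / δ ^ 2, fun A => ?_⟩
  have h4 := symLin_zero_ge A P h3 h2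
  have h5 : δ * symLin A P 0 ≤ B P (symLin A P) := by
    have hO := symLin_Om A hP
    obtain ⟨k1, k2⟩ := hO
    generalize symLin A P = Z at *
    unfold B at k1 ⊢
    have e2 : (P 1 * Z 1 + P 2 * Z 2) ^ 2 ≤ ((P 0 - δ) * Z 0) ^ 2 := by
      calc (P 1 * Z 1 + P 2 * Z 2) ^ 2
          ≤ (P 1 ^ 2 + P 2 ^ 2) * (Z 1 ^ 2 + Z 2 ^ 2) := by
            nlinarith [sq_nonneg (P 1 * Z 2 - P 2 * Z 1)]
        _ ≤ (P 0 - δ) ^ 2 * (Z 0) ^ 2 := by
            apply mul_le_mul h3 (by nlinarith) (by positivity) (sq_nonneg _)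
        _ = _ := by ring
    have e3 := abs_le.mp (abs_le_of_sq_le_sq e2 (mul_nonneg (by linarith) k2.le))
    nlinarith [e3.1, e3.2]
  rw [div_mul_eq_mul_div, le_div_iff₀ (by positivity)]
  nlinarith

/-- the bound of the displacement by the entries -/
theorem B_le_of_entries (P : V) (r : ℝ) :
    ∃ C : ℝ, ∀ A : SpecialLinearGroup (Fin 2) ℝ, (∀ i j, |A i j| ≤ r) → symLin A P 0 ≤ C := by
  refine ⟨(2 * r ^ 2 * |P 0 + P 1| + 2 * (2 * r ^ 2) * |P 2| + 2 * r ^ 2 * |P 0 - P 1|) / 2,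
    fun A hA => ?_⟩
  rw [symLin_apply, symFun_zero]
  have hr : 0 ≤ r := le_trans (abs_nonneg _) (hA 0 0)
  have q : ∀ i j, A i j ^ 2 ≤ r ^ 2 := by
    intro i j
    rw [← sq_abs (A i j)]
    exact pow_le_pow_left₀ (abs_nonneg _) (hA i j) 2
  have p : ∀ i j k l, |A i j * A k l| ≤ r ^ 2 := by
    intro i j k l
    rw [abs_mul, sq]
    exact mul_le_mul (hA i j) (hA k l) (abs_nonneg _) hr
  apply div_le_div_of_nonneg_right _ (by norm_num)
  have t1 : (A 0 0 ^ 2 + A 1 0 ^ 2) * (P 0 + P 1) ≤ 2 * r ^ 2 * |P 0 + P 1| := by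
    calc (A 0 0 ^ 2 + A 1 0 ^ 2) * (P 0 + P 1) ≤ (A 0 0 ^ 2 + A 1 0 ^ 2) * |P 0 + P 1| :=
          mul_le_mul_of_nonneg_left (le_abs_self _) (by positivity)
      _ ≤ _ := by
          apply mul_le_mul_of_nonneg_right _ (abs_nonneg _)
          linarith [q 0 0, q 1 0]
  have t2 : (A 0 1 ^ 2 + A 1 1 ^ 2) * (P 0 - P 1) ≤ 2 * r ^ 2 * |P 0 - P 1| := by
    calc (A 0 1 ^ 2 + A 1 1 ^ 2) * (P 0 - P 1) ≤ (A 0 1 ^ 2 + A 1 1 ^ 2) * |P 0 - P 1| :=
          mul_le_mul_of_nonneg_left (le_abs_self _) (by positivity)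
      _ ≤ _ := by
          apply mul_le_mul_of_nonneg_right _ (abs_nonneg _)
          linarith [q 0 1, q 1 1]
  have t3 : 2 * (A 0 0 * A 0 1 + A 1 0 * A 1 1) * P 2 ≤ 2 * (2 * r ^ 2) * |P 2| := by
    calc 2 * (A 0 0 * A 0 1 + A 1 0 * A 1 1) * P 2
        ≤ |2 * (A 0 0 * A 0 1 + A 1 0 * A 1 1) * P 2| := le_abs_self _
      _ = 2 * |A 0 0 * A 0 1 + A 1 0 * A 1 1| * |P 2| := by
          rw [abs_mul, abs_mul]
          norm_num
      _ ≤ _ := by
          apply mul_le_mul_of_nonneg_right _ (abs_nonneg _)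
          apply mul_le_mul_of_nonneg_left _ (by norm_num)
          calc |A 0 0 * A 0 1 + A 1 0 * A 1 1| ≤ |A 0 0 * A 0 1| + |A 1 0 * A 1 1| := abs_add_le _ _
            _ ≤ _ := by linarith [p 0 0 0 1, p 1 0 1 1]
  linarith

/-- transitivity: every `Z` in the cone is a multiple of `A · (1, 0, 0)` -/
theorem exists_symLin {Z : V} (hZ : Z ∈ Om) :
    ∃ A : SpecialLinearGroup (Fin 2) ℝ, Z = √(B Z Z) • symLin A ![1, 0, 0] := by
  obtain ⟨h1, h2⟩ := hZ
  set s := √(B Z Z) with hs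
  have hs0 : 0 < s := Real.sqrt_pos.mpr h1
  have hss : s * s = B Z Z := Real.mul_self_sqrt h1.le
  have hα : 0 < Z 0 + Z 1 := by
    unfold B at h1
    nlinarith [sq_nonneg (Z 2), sq_nonneg (Z 1)]
  set t := √((Z 0 + Z 1) / s) with ht
  have ht0 : 0 < t := Real.sqrt_pos.mpr (by positivity)
  have htt : t ^ 2 = (Z 0 + Z 1) / s := Real.sq_sqrt (by positivity)
  have htt' : Z 0 + Z 1 = s * t ^ 2 := by
    rw [htt]
    field_simp
  have hdet : (!![t, 0; Z 2 / s / t, 1 / t] : Matrix (Fin 2) (Fin 2) ℝ).det = 1 := by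
    rw [Matrix.det_fin_two_of]
    field_simp
    ring
  have k : (Z 0 + Z 1) * (Z 0 - Z 1) = s * s + Z 2 ^ 2 := by
    rw [hss]
    unfold B
    ring
  have k2 : Z 0 - Z 1 = (s * s + Z 2 ^ 2) / (s * t ^ 2) := by
    rw [eq_div_iff (by positivity), ← k, htt']
    ring
  have z0 : Z 0 = ((Z 0 + Z 1) + (Z 0 - Z 1)) / 2 := by ring
  have z1 : Z 1 = ((Z 0 + Z 1) - (Z 0 - Z 1)) / 2 := by ring
  rw [htt', k2] at z0 z1
  obtain ⟨A, hA00, hA01, hA10, hA11⟩ : ∃ A : SpecialLinearGroup (Fin 2) ℝ, A 0 0 = t ∧ A 0 1 = 0 ∧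
      A 1 0 = Z 2 / s / t ∧ A 1 1 = 1 / t :=
    ⟨⟨!![t, 0; Z 2 / s / t, 1 / t], hdet⟩, rfl, rfl, rfl, rfl⟩
  refine ⟨A, ?_⟩
  ext i
  rw [symLin_apply, hA00, hA01, hA10, hA11]
  fin_cases i
  · show Z 0 = s * (symFun _ _ _ _ ![1, 0, 0] 0)
    rw [symFun_zero, z0]
    simp
    field_simp
    ring
  · show Z 1 = s * (symFun _ _ _ _ ![1, 0, 0] 1)
    rw [symFun_one, z1]
    simp
    field_simp
    ring
  · show Z 2 = s * (symFun _ _ _ _ ![1, 0, 0] 2)
    rw [symFun_two]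
    simp
    field_simp

/-- **Part E, main theorem**: a discrete cocompact faithful representation in `PSL(2, ℝ)` gives a
structure `Lat`. -/
theorem Lat.of_PSL {G : Type} [Group G] (R : G →* PSL2R) (hR : Function.Injective R)
    (hfin : ∀ r : ℝ, {g : G | ∃ A : SpecialLinearGroup (Fin 2) ℝ, (A : PSL2R) = R g ∧
      ∀ i j, |A i j| ≤ r}.Finite)
    (hcoc : ∃ r : ℝ, ∀ A : SpecialLinearGroup (Fin 2) ℝ, ∃ g : G,
      ∃ A' : SpecialLinearGroup (Fin 2) ℝ, (A' : PSL2R) = R g ∧ ∀ i j, |(A⁻¹ * A') i j| ≤ r) :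
    Nonempty (Lat G) := by
  -- lifts
  have hlift : ∀ g : G, ∃ A : SpecialLinearGroup (Fin 2) ℝ, (A : PSL2R) = R g :=
    fun g => QuotientGroup.mk_surjective (R g)
  -- countability
  have hcount : Countable G := by
    rw [← Set.countable_univ_iff]
    have : (Set.univ : Set G) = ⋃ n : ℕ, {g : G | ∃ A : SpecialLinearGroup (Fin 2) ℝ,
        (A : PSL2R) = R g ∧ ∀ i j, |A i j| ≤ (n : ℝ)} := by
      apply Set.eq_of_subset_of_subset _ (Set.subset_univ _)
      intro g _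
      obtain ⟨A, hA⟩ := hlift g
      obtain ⟨n, hn⟩ := exists_nat_ge (|A 0 0| + |A 0 1| + |A 1 0| + |A 1 1|)
      rw [Set.mem_iUnion]
      refine ⟨n, A, hA, ?_⟩
      intro i j
      fin_cases i <;> fin_cases j
      · show |A 0 0| ≤ n
        linarith [abs_nonneg (A 0 0), abs_nonneg (A 0 1), abs_nonneg (A 1 0), abs_nonneg (A 1 1)]
      · show |A 0 1| ≤ n
        linarith [abs_nonneg (A 0 0), abs_nonneg (A 0 1), abs_nonneg (A 1 0), abs_nonneg (A 1 1)]
      · show |A 1 0| ≤ n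
        linarith [abs_nonneg (A 0 0), abs_nonneg (A 0 1), abs_nonneg (A 1 0), abs_nonneg (A 1 1)]
      · show |A 1 1| ≤ n
        linarith [abs_nonneg (A 0 0), abs_nonneg (A 0 1), abs_nonneg (A 1 0), abs_nonneg (A 1 1)]
    rw [this]
    exact Set.countable_iUnion fun n => (hfin n).countable
  -- the base point
  let ac : G →* (V →ₗ[ℝ] V) := symQ.comp R
  have hac : ∀ (g : G) (A : SpecialLinearGroup (Fin 2) ℝ), (A : PSL2R) = R g →
      ∀ Z : V, ac g Z = symLin A Z := by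
    intro g A hA Z
    show symQ (R g) Z = _
    rw [← hA]
    rfl
  obtain ⟨P, hP, hP1, hP2⟩ := exists_base
    (fun g : {g : G // g ≠ 1} => LinearMap.ker (ac g.1 - LinearMap.id)) (by
      intro g hg
      apply g.2
      apply hR
      rw [map_one]
      apply symQ_faithful
      intro Z
      have h1 : Z ∈ LinearMap.ker (ac g.1 - LinearMap.id) := by
        rw [hg]
        trivial
      rw [LinearMap.mem_ker, LinearMap.sub_apply, LinearMap.id_apply, sub_eq_zero] at h1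
      exact h1)
  obtain ⟨C, hC⟩ := entries_le_of_B hP
  obtain ⟨r, hr⟩ := hcoc
  obtain ⟨C', hC'⟩ := B_le_of_entries P r
  refine ⟨⟨ac, ?_, ?_, ?_, P, hP, hP1, ?_, ?_, ?_⟩⟩
  · intro g u v
    obtain ⟨A, hA⟩ := hlift g
    rw [hac g A hA, hac g A hA, B_symLin]
  · intro g u v w
    obtain ⟨A, hA⟩ := hlift g
    rw [hac g A hA, hac g A hA, hac g A hA, det3_symLin]
  · intro g Z hZ
    obtain ⟨A, hA⟩ := hlift g
    rw [hac g A hA]
    exact symLin_Om A hZ
  · intro g hg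
    by_contra hne
    apply hP2 ⟨g, hne⟩
    rw [LinearMap.mem_ker, LinearMap.sub_apply, LinearMap.id_apply, sub_eq_zero]
    exact hg
  · intro s
    apply (hfin (√(C * s))).subset
    intro g hg
    obtain ⟨A, hA⟩ := hlift g
    refine ⟨A, hA, ?_⟩
    have hg' : B P (symLin A P) ≤ s := by
      rw [← hac g A hA]
      exact hg
    have h1 := hC A
    have hCpos : 0 ≤ C := by
      by_contra hn
      push Not at hn
      have h2 : 0 < B P (symLin A P) := B_pos hP (symLin_Om A hP)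
      nlinarith [sq_nonneg (A 0 0), sq_nonneg (A 0 1), sq_nonneg (A 1 0), sq_nonneg (A 1 1)]
    have h2 : A 0 0 ^ 2 + A 0 1 ^ 2 + A 1 0 ^ 2 + A 1 1 ^ 2 ≤ C * s :=
      h1.trans (mul_le_mul_of_nonneg_left hg' hCpos)
    intro i j
    apply Real.abs_le_sqrt
    fin_cases i <;> fin_cases j
    · show A 0 0 ^ 2 ≤ _
      nlinarith [sq_nonneg (A 0 0), sq_nonneg (A 0 1), sq_nonneg (A 1 0), sq_nonneg (A 1 1)]
    · show A 0 1 ^ 2 ≤ _
      nlinarith [sq_nonneg (A 0 0), sq_nonneg (A 0 1), sq_nonneg (A 1 0), sq_nonneg (A 1 1)]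
    · show A 1 0 ^ 2 ≤ _
      nlinarith [sq_nonneg (A 0 0), sq_nonneg (A 0 1), sq_nonneg (A 1 0), sq_nonneg (A 1 1)]
    · show A 1 1 ^ 2 ≤ _
      nlinarith [sq_nonneg (A 0 0), sq_nonneg (A 0 1), sq_nonneg (A 1 0), sq_nonneg (A 1 1)]
  · refine ⟨C' ^ 2, ?_⟩
    intro Z hZ
    obtain ⟨A, hA⟩ := exists_symLin hZ
    obtain ⟨g, A', hA', hb⟩ := hr A
    refine ⟨g, ?_⟩
    rw [hac g A' hA']
    have h1 : B Z (symLin A' P) = √(B Z Z) * symLin (A⁻¹ * A') P 0 := by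
      conv_lhs => rw [hA]
      rw [B_smul_left]
      congr 1
      have h2 : symLin A' P = symLin A (symLin (A⁻¹ * A') P) := by
        rw [← symLin_mul]
        congr 2
        group
      rw [h2, B_symLin]
      simp [B]
    have h3 := hC' (A⁻¹ * A') hb
    have h4 : 0 < symLin (A⁻¹ * A') P 0 := (symLin_Om (A⁻¹ * A') hP).2
    rw [h1, mul_pow, Real.sq_sqrt hZ.1.le, mul_comm]
    apply mul_le_mul_of_nonneg_right _ hZ.1.le
    exact pow_le_pow_left₀ h4.le h3 2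

end Pool.Agent.ToST
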