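import Pool.Agent.Lib.MP_305fdd_al.To.ST.PSL
import Mathlib.Topology.Algebra.Group.Matrix
import Mathlib.Topology.Algebra.IsUniformGroup.Basic
import Mathlib.Topology.Algebra.Group.Quotient

/-!
# MP_305fdd_al, torsion room (ST), Part E: topological forms of the hypotheses
-/

set_option autoImplicit false

namespace Pool.Agent.ToST

open Matrix Topology Filter

/-- the matrices of `SL(2, ℝ)` with bounded entries form a compact set -/
theorem isCompact_entries (r : ℝ) :
    IsCompact {A : SpecialLinearGroup (Fin 2) ℝ | ∀ i j, |A i j| ≤ r} := by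
  have h := Matrix.SpecialLinearGroup.isClosedEmbedding_val (n := Fin 2) (R := ℝ)
  have hK : IsCompact {M : Matrix (Fin 2) (Fin 2) ℝ | ∀ i j, |M i j| ≤ r} := by
    have e : {M : Matrix (Fin 2) (Fin 2) ℝ | ∀ i j, |M i j| ≤ r} =
        Set.univ.pi fun _ : Fin 2 => Set.univ.pi fun _ : Fin 2 => Set.Icc (-r) r := by
      ext M
      constructor
      · intro hM i _ j _
        exact abs_le.mp (hM i j)
      · intro hM i j
        exact abs_le.mpr (hM i (Set.mem_univ i) j (Set.mem_univ j))
    rw [e]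
    exact isCompact_univ_pi fun i => isCompact_univ_pi fun j => isCompact_Icc
  exact h.isCompact_preimage hK

/-- the matrices of `SL(2, ℝ)` with entries smaller than `r` form an open set -/
theorem isOpen_entries (r : ℝ) :
    IsOpen {A : SpecialLinearGroup (Fin 2) ℝ | ∀ i j, |A i j| < r} := by
  have e : {A : SpecialLinearGroup (Fin 2) ℝ | ∀ i j, |A i j| < r} =
      ⋂ i, ⋂ j, {A : SpecialLinearGroup (Fin 2) ℝ | |A i j| < r} := by
    ext A
    simp only [Set.mem_ofPred_eq, Set.mem_iInter]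
  rw [e]
  refine isOpen_iInter_of_finite fun i => isOpen_iInter_of_finite fun j => ?_
  apply isOpen_lt _ continuous_const
  have h1 : Continuous fun A : SpecialLinearGroup (Fin 2) ℝ => A i :=
    Matrix.SpecialLinearGroup.continuous_apply id continuous_id i
  exact ((continuous_apply j).comp h1).abs

instance t2_PSL2R : T2Space PSL2R := by
  have hc : IsClosed (Subgroup.center (SpecialLinearGroup (Fin 2) ℝ) :
      Set (SpecialLinearGroup (Fin 2) ℝ)) := by
    have e : (Subgroup.center (SpecialLinearGroup (Fin 2) ℝ) :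
        Set (SpecialLinearGroup (Fin 2) ℝ)) = ⋂ B, {A | B * A = A * B} := by
      ext A
      simp only [SetLike.mem_coe, Subgroup.mem_center_iff, Set.mem_iInter, Set.mem_ofPred_eq]
    rw [e]
    refine isClosed_iInter fun B => ?_
    exact isClosed_eq (continuous_const.mul continuous_id) (continuous_id.mul continuous_const)
  have : IsClosed (Subgroup.center (SpecialLinearGroup (Fin 2) ℝ) :
      Set (SpecialLinearGroup (Fin 2) ℝ)) := hc
  infer_instance

theorem entries_inv (A : SpecialLinearGroup (Fin 2) ℝ) (r : ℝ) (h : ∀ i j, |A i j| ≤ r) :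
    ∀ i j, |A⁻¹ i j| ≤ r := by
  intro i j
  rw [Matrix.SpecialLinearGroup.SL2_inv_expl]
  fin_cases i <;> fin_cases j
  · simpa using h 1 1
  · simpa using h 0 1
  · simpa using h 1 0
  · simpa using h 0 0

theorem entries_mul (A A' : SpecialLinearGroup (Fin 2) ℝ) (r s : ℝ) (h : ∀ i j, |A i j| ≤ r)
    (h' : ∀ i j, |A' i j| ≤ s) : ∀ i j, |(A * A') i j| ≤ 2 * (r * s) := by
  intro i j
  have hr : 0 ≤ r := le_trans (abs_nonneg _) (h 0 0)
  rw [Matrix.SpecialLinearGroup.coe_mul, Matrix.mul_apply, Fin.sum_univ_two]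
  calc |A i 0 * A' 0 j + A i 1 * A' 1 j| ≤ |A i 0 * A' 0 j| + |A i 1 * A' 1 j| := abs_add_le _ _
    _ = |A i 0| * |A' 0 j| + |A i 1| * |A' 1 j| := by rw [abs_mul, abs_mul]
    _ ≤ r * s + r * s := by
        apply add_le_add
        · exact mul_le_mul (h i 0) (h' 0 j) (abs_nonneg _) hr
        · exact mul_le_mul (h i 1) (h' 1 j) (abs_nonneg _) hr
    _ = 2 * (r * s) := by ring

/-- two lifts of an element of `PSL(2, ℝ)` have the same entries up to sign -/
theorem entries_lift (A A' : SpecialLinearGroup (Fin 2) ℝ) (h : (A : PSL2R) = (A' : PSL2R)) :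
    ∀ i j, |A i j| = |A' i j| := by
  rw [QuotientGroup.eq, Matrix.SpecialLinearGroup.mem_center_iff] at h
  obtain ⟨r, h1, h2⟩ := h
  have hr : r ^ 2 = 1 := by simpa using h1
  have hr' : |r| = 1 := by
    have h4 : (|r| - 1) * (|r| + 1) = 0 := by
      have := sq_abs r
      nlinarith
    rcases mul_eq_zero.mp h4 with h5 | h5
    · linarith
    · linarith [abs_nonneg r]
  have h3 : (A' : Matrix (Fin 2) (Fin 2) ℝ) = (A : Matrix (Fin 2) (Fin 2) ℝ) *
      Matrix.scalar (Fin 2) r := by
    rw [h2, ← Matrix.SpecialLinearGroup.coe_mul, mul_inv_cancel_left]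
  intro i j
  have h4 : A' i j = A i j * r := by
    rw [h3]
    simp [Matrix.scalar]
  rw [h4, abs_mul, hr', mul_one]

/-- discrete image ==> finitely many elements with bounded entries -/
theorem fin_of_discrete {G : Type} [Group G] (R : G →* PSL2R) (hR : Function.Injective R)
    (hd : IsDiscrete (R.range : Set PSL2R)) (r : ℝ) :
    {g : G | ∃ A : SpecialLinearGroup (Fin 2) ℝ, (A : PSL2R) = R g ∧
      ∀ i j, |A i j| ≤ r}.Finite := by
  have h1 := R.tendsto_coe_cofinite_of_discrete hR hd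
  have hK : IsCompact ((fun A : SpecialLinearGroup (Fin 2) ℝ => (A : PSL2R)) ''
      {A | ∀ i j, |A i j| ≤ r}) :=
    (isCompact_entries r).image QuotientGroup.continuous_mk
  have h2 := h1 hK.compl_mem_cocompact
  rw [Filter.mem_map, Filter.mem_cofinite] at h2
  apply h2.subset
  rintro g ⟨A, hA, hb⟩ hg
  exact hg ⟨A, hb, hA⟩

/-- compact quotient ==> the cocompactness condition -/
theorem coc_of_compact {G : Type} [Group G] (R : G →* PSL2R)
    (hc : CompactSpace (PSL2R ⧸ R.range)) :
    ∃ r : ℝ, ∀ A : SpecialLinearGroup (Fin 2) ℝ, ∃ g : G,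
      ∃ A' : SpecialLinearGroup (Fin 2) ℝ, (A' : PSL2R) = R g ∧ ∀ i j, |(A⁻¹ * A') i j| ≤ r := by
  let q : SpecialLinearGroup (Fin 2) ℝ → PSL2R ⧸ R.range := fun A => ((A : PSL2R) : PSL2R ⧸ R.range)
  have hq : IsOpenMap q := by
    apply IsOpenMap.comp
    · exact QuotientGroup.isOpenMap_coe
    · exact QuotientGroup.isOpenMap_coe
  have hcover : (Set.univ : Set (PSL2R ⧸ R.range)) ⊆
      ⋃ n : ℕ, q '' {A | ∀ i j, |A i j| < (n : ℝ)} := by
    intro x _
    induction x using QuotientGroup.induction_on with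
    | H y =>
      induction y using QuotientGroup.induction_on with
      | H A =>
        obtain ⟨n, hn⟩ := exists_nat_gt (|A 0 0| + |A 0 1| + |A 1 0| + |A 1 1|)
        rw [Set.mem_iUnion]
        refine ⟨n, A, ?_, rfl⟩
        intro i j
        have := abs_nonneg (A 0 0)
        have := abs_nonneg (A 0 1)
        have := abs_nonneg (A 1 0)
        have := abs_nonneg (A 1 1)
        fin_cases i <;> fin_cases j
        · show |A 0 0| < n
          linarith
        · show |A 0 1| < n
          linarith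
        · show |A 1 0| < n
          linarith
        · show |A 1 1| < n
          linarith
  obtain ⟨t, ht⟩ := isCompact_univ.elim_finite_subcover
    (fun n : ℕ => q '' {A | ∀ i j, |A i j| < (n : ℝ)})
    (fun n => hq _ (isOpen_entries n)) hcover
  refine ⟨(t.sup id : ℕ), fun A => ?_⟩
  have h1 := ht (Set.mem_univ (q A⁻¹))
  simp only [Set.mem_iUnion] at h1
  obtain ⟨n, hn, B, hB, hBA⟩ := h1
  have h2 : ((B : PSL2R))⁻¹ * ((A⁻¹ : SpecialLinearGroup (Fin 2) ℝ) : PSL2R) ∈ R.range :=
    QuotientGroup.eq.mp hBA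
  obtain ⟨g, hg⟩ := h2
  refine ⟨g⁻¹, A * B, ?_, ?_⟩
  · rw [map_inv, hg, _root_.mul_inv_rev, inv_inv, QuotientGroup.mk_mul, QuotientGroup.mk_inv, inv_inv]
  · intro i j
    rw [inv_mul_cancel_left]
    have h3 : (n : ℝ) ≤ ((t.sup id : ℕ) : ℝ) := by
      exact_mod_cast Finset.le_sup (f := id) hn
    exact (hB i j).le.trans h3

/-- the cocompactness condition passes to overgroups; the finiteness condition passes to
overgroups of finite index -/
theorem fin_of_finiteIndex {G : Type} [Group G] (R : G →* PSL2R) (N : Subgroup G) [N.FiniteIndex]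
    (hfin : ∀ r : ℝ, {g : G | g ∈ N ∧ ∃ A : SpecialLinearGroup (Fin 2) ℝ, (A : PSL2R) = R g ∧
      ∀ i j, |A i j| ≤ r}.Finite) (r : ℝ) :
    {g : G | ∃ A : SpecialLinearGroup (Fin 2) ℝ, (A : PSL2R) = R g ∧
      ∀ i j, |A i j| ≤ r}.Finite := by
  have key : ∀ t : G, {g : G | g * t ∈ N ∧ ∃ A : SpecialLinearGroup (Fin 2) ℝ,
      (A : PSL2R) = R g ∧ ∀ i j, |A i j| ≤ r}.Finite := by
    intro t
    obtain ⟨T, hT⟩ := QuotientGroup.mk_surjective (R t)
    have h1 : ((fun g : G => g * t) '' {g : G | g * t ∈ N ∧ ∃ A : SpecialLinearGroup (Fin 2) ℝ,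
        (A : PSL2R) = R g ∧ ∀ i j, |A i j| ≤ r}).Finite := by
      apply (hfin (2 * (r * (|T 0 0| + |T 0 1| + |T 1 0| + |T 1 1|)))).subset
      rintro _ ⟨g, ⟨hg, A, hA, hb⟩, rfl⟩
      refine ⟨hg, A * T, ?_, entries_mul A T r _ hb ?_⟩
      · rw [QuotientGroup.mk_mul, hA, map_mul]
        congr 1
      · intro i j
        have := abs_nonneg (T 0 0)
        have := abs_nonneg (T 0 1)
        have := abs_nonneg (T 1 0)
        have := abs_nonneg (T 1 1)
        fin_cases i <;> fin_cases j
        · show |T 0 0| ≤ _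
          linarith
        · show |T 0 1| ≤ _
          linarith
        · show |T 1 0| ≤ _
          linarith
        · show |T 1 1| ≤ _
          linarith
    exact h1.of_finite_image (mul_left_injective t).injOn
  have hfq : Finite (G ⧸ N) := Subgroup.finite_quotient_of_finiteIndex
  apply (Set.finite_iUnion fun q : G ⧸ N => key q.out).subset
  rintro g ⟨A, hA, hb⟩
  rw [Set.mem_iUnion]
  refine ⟨((g⁻¹ : G) : G ⧸ N), ?_, A, hA, hb⟩
  have h1 : ((g⁻¹ : G) : G ⧸ N) = (((g⁻¹ : G) : G ⧸ N).out : G ⧸ N) :=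
    (QuotientGroup.out_eq' _).symm
  rw [QuotientGroup.eq, inv_inv] at h1
  exact h1

/-- the topological form: an injective homomorphism with discrete and cocompact image -/
theorem Lat.of_discrete_cocompact {G : Type} [Group G] (R : G →* PSL2R)
    (hR : Function.Injective R) (hd : IsDiscrete (R.range : Set PSL2R))
    (hc : CompactSpace (PSL2R ⧸ R.range)) : Nonempty (Lat G) :=
  Lat.of_PSL R hR (fin_of_discrete R hR hd) (coc_of_compact R hc)

/-- the form with a subgroup of finite index -/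
theorem Lat.of_finiteIndex {G : Type} [Group G] (R : G →* PSL2R) (hR : Function.Injective R)
    (N : Subgroup G) [N.FiniteIndex]
    (hfin : ∀ r : ℝ, {g : G | g ∈ N ∧ ∃ A : SpecialLinearGroup (Fin 2) ℝ, (A : PSL2R) = R g ∧
      ∀ i j, |A i j| ≤ r}.Finite)
    (hcoc : ∃ r : ℝ, ∀ A : SpecialLinearGroup (Fin 2) ℝ, ∃ g ∈ N,
      ∃ A' : SpecialLinearGroup (Fin 2) ℝ, (A' : PSL2R) = R g ∧ ∀ i j, |(A⁻¹ * A') i j| ≤ r) :
    Nonempty (Lat G) := by
  apply Lat.of_PSL R hR (fin_of_finiteIndex R N hfin)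
  obtain ⟨r, hr⟩ := hcoc
  refine ⟨r, fun A => ?_⟩
  obtain ⟨g, _, A', h1, h2⟩ := hr A
  exact ⟨g, A', h1, h2⟩

/-- a subgroup of `PSL(2, ℝ)` -/
theorem Lat.of_subgroup (H : Subgroup PSL2R) [DiscreteTopology H] (hc : CompactSpace (PSL2R ⧸ H)) :
    Nonempty (Lat H) := by
  have e : H.subtype.range = H := H.range_subtype
  apply Lat.of_discrete_cocompact H.subtype H.subtype_injective
  · rw [e]
    exact isDiscrete_iff_discreteTopology.mpr inferInstance
  · rw [e]
    exact hc

/-- a discrete cocompact subgroup of `SL(2, ℝ)`, modulo its centre -/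
theorem Lat.of_subgroup_SL (Γ : Subgroup (SpecialLinearGroup (Fin 2) ℝ)) [DiscreteTopology Γ]
    (hc : CompactSpace (SpecialLinearGroup (Fin 2) ℝ ⧸ Γ)) :
    Nonempty (Lat (Γ.map (QuotientGroup.mk'
      (Subgroup.center (SpecialLinearGroup (Fin 2) ℝ))))) := by
  set H := Γ.map (QuotientGroup.mk' (Subgroup.center (SpecialLinearGroup (Fin 2) ℝ))) with hH
  apply Lat.of_PSL H.subtype H.subtype_injective
  · intro r
    have h1 := Γ.tendsto_coe_cofinite_of_discrete
      (isDiscrete_iff_discreteTopology.mpr inferInstance)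
    have h2 := h1 (isCompact_entries r).compl_mem_cocompact
    rw [Filter.mem_map, Filter.mem_cofinite] at h2
    have h3 := h2.image (fun γ : Γ => (⟨((γ : SpecialLinearGroup (Fin 2) ℝ) : PSL2R),
      γ.1, γ.2, rfl⟩ : H))
    apply h3.subset
    rintro ⟨x, γ, hγ, rfl⟩ ⟨A, hA, hb⟩
    refine ⟨⟨γ, hγ⟩, ?_, rfl⟩
    intro hn
    apply hn
    intro i j
    have h4 := entries_lift A γ hA i j
    show |γ i j| ≤ r
    rw [← h4]
    exact hb i j
  · let q : SpecialLinearGroup (Fin 2) ℝ → SpecialLinearGroup (Fin 2) ℝ ⧸ Γ := fun A => A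
    have hq : IsOpenMap q := QuotientGroup.isOpenMap_coe
    have hcover : (Set.univ : Set (SpecialLinearGroup (Fin 2) ℝ ⧸ Γ)) ⊆
        ⋃ n : ℕ, q '' {A | ∀ i j, |A i j| < (n : ℝ)} := by
      intro x _
      induction x using QuotientGroup.induction_on with
      | H A =>
        obtain ⟨n, hn⟩ := exists_nat_gt (|A 0 0| + |A 0 1| + |A 1 0| + |A 1 1|)
        rw [Set.mem_iUnion]
        refine ⟨n, A, ?_, rfl⟩
        intro i j
        have := abs_nonneg (A 0 0)
        have := abs_nonneg (A 0 1)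
        have := abs_nonneg (A 1 0)
        have := abs_nonneg (A 1 1)
        fin_cases i <;> fin_cases j
        · show |A 0 0| < n
          linarith
        · show |A 0 1| < n
          linarith
        · show |A 1 0| < n
          linarith
        · show |A 1 1| < n
          linarith
    obtain ⟨t, ht⟩ := isCompact_univ.elim_finite_subcover
      (fun n : ℕ => q '' {A | ∀ i j, |A i j| < (n : ℝ)})
      (fun n => hq _ (isOpen_entries n)) hcover
    refine ⟨(t.sup id : ℕ), fun A => ?_⟩
    have h1 := ht (Set.mem_univ (q A⁻¹))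
    simp only [Set.mem_iUnion] at h1
    obtain ⟨n, hn, B, hB, hBA⟩ := h1
    have h2 : B⁻¹ * A⁻¹ ∈ Γ := QuotientGroup.eq.mp hBA
    have h3 : A * B ∈ Γ := by
      have := Γ.inv_mem h2
      simpa using this
    refine ⟨⟨((A * B : SpecialLinearGroup (Fin 2) ℝ) : PSL2R), A * B, h3, rfl⟩, A * B, rfl, ?_⟩
    intro i j
    rw [inv_mul_cancel_left]
    have h4 : (n : ℝ) ≤ ((t.sup id : ℕ) : ℝ) := by
      exact_mod_cast Finset.le_sup (f := id) hn
    exact (hB i j).le.trans h4

end Pool.Agent.ToST
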