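import Pool.Agent.Lib.MP_305fdd_al.To.ST.Vert
import Pool.Agent.Lib.MP_305fdd_al.To.ST.Mac
import Mathlib.GroupTheory.OrderOfElement

/-!
# MP_305fdd_al, torsion room (ST): the presentation by side letters and vertex cycles
-/

set_option autoImplicit false

namespace Pool.Agent.ToST

open Filter Topology

namespace Lat

variable {G : Type} [Group G] (L : Lat G)

/-- the inverse letter -/
def inv (e : L.S) : L.S := ⟨(e : G)⁻¹, L.Sd_inv e.2⟩

theorem inv_inv (e : L.S) : L.inv (L.inv e) = e := Subtype.ext (_root_.inv_inv (e : G))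

/-- the inclusion of the letters in the group -/
abbrev yy : L.S → G := Subtype.val

/-- the length of the vertex cycle -/
noncomputable def len (e : L.S) : ℕ := Function.minimalPeriod L.F e

/-- the order of the rotation of a vertex cycle -/
noncomputable def mm (e : L.S) : ℕ := orderOf (wk L.F L.yy e (L.len e))

section finperm

theorem iterate_len (e : L.S) : (⇑L.F)^[L.len e] e = e := Function.iterate_minimalPeriod

theorem len_F (e : L.S) : L.len (L.F e) = L.len e := by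
  unfold len
  have h : e ∈ Function.periodicPts L.F := by
    have h1 : IsOfFinOrder L.F := isOfFinOrder_of_finite L.F
    refine ⟨orderOf L.F, h1.orderOf_pos, ?_⟩
    change (⇑L.F)^[orderOf L.F] e = e
    rw [← Equiv.Perm.coe_pow, pow_orderOf_eq_one]
    rfl
  exact Function.minimalPeriod_apply h

/-- the cycle product of the next letter is a conjugate -/
theorem wk_len_F {H : Type} [Group H] (x : L.S → H) (e : L.S) :
    wk L.F x (L.F e) (L.len (L.F e)) = (x e)⁻¹ * wk L.F x e (L.len e) * x e := by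
  rw [L.len_F]
  have h1 : wk L.F x e (L.len e + 1) = wk L.F x e (L.len e) * x e := by
    rw [wk_succ, L.iterate_len]
  have h2 : wk L.F x e (1 + L.len e) = x e * wk L.F x (L.F e) (L.len e) := by
    rw [wk_add, wk_succ, wk_zero, one_mul]
    rfl
  rw [add_comm, h1] at h2
  rw [mul_assoc, h2, inv_mul_cancel_left]

theorem mm_F (e : L.S) : L.mm (L.F e) = L.mm e := by
  unfold mm
  rw [L.wk_len_F]
  have h : (L.yy e)⁻¹ * wk L.F L.yy e (L.len e) * L.yy e =
      MulAut.conj (L.yy e)⁻¹ (wk L.F L.yy e (L.len e)) := by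
    rw [MulAut.conj_apply, _root_.inv_inv]
  rw [h]
  exact MulEquiv.orderOf_eq _ _

end finperm

/-- the successor permutation at a vertex in terms of the walk -/
theorem sigma_iter {Z : V} (hZ : L.Ver Z) (σ : Equiv.Perm (L.T Z))
    (hσ : ∀ a : L.T Z, IsSc (L.T Z) L.Rr a (σ a)) (a0 : L.T Z) (e0 : L.S)
    (he0 : (σ a0 : G) = a0 * e0) (i : ℕ) :
    (((σ^[i]) a0 : L.T Z) : G) = a0 * wk L.F L.yy e0 i ∧
      ((σ^[i]) a0 : G)⁻¹ * (σ ((σ^[i]) a0) : G) = ((L.F^[i]) e0 : G) := by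
  have h0 : L.Sc Z a0 (a0 * e0) := by
    have := hσ a0
    rwa [he0] at this
  have key : ∀ i, (((σ^[i]) a0 : L.T Z) : G) = a0 * wk L.F L.yy e0 i := by
    intro i
    induction i with
    | zero => rw [wk_zero, mul_one]; rfl
    | succ i ih =>
      rw [Function.iterate_succ_apply']
      have h1 := hσ ((σ^[i]) a0)
      rw [ih] at h1
      have h2 := L.walk hZ h0 i
      exact (L.co hZ.1).sc_unique h1 h2
  refine ⟨key i, ?_⟩
  have h1 : (σ ((σ^[i]) a0) : G) = a0 * wk L.F L.yy e0 (i + 1) := by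
    rw [← key (i + 1), Function.iterate_succ_apply']
  rw [h1, key i, wk_succ]
  group

theorem len_dvd {Z : V} (hZ : L.Ver Z) (σ : Equiv.Perm (L.T Z))
    (hσ : ∀ a : L.T Z, IsSc (L.T Z) L.Rr a (σ a)) (a0 : L.T Z) (e0 : L.S)
    (he0 : (σ a0 : G) = a0 * e0) (N : ℕ) (hN : (σ^[N]) a0 = a0) :
    ∃ q, N = L.len e0 * q ∧ wk L.F L.yy e0 (L.len e0) ^ q = 1 := by
  have h1 : (L.F^[N]) e0 = e0 := by
    have h2 := (L.sigma_iter hZ σ hσ a0 e0 he0 N).2
    rw [hN, he0, inv_mul_cancel_left] at h2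
    exact Subtype.ext h2.symm
  have h3 : L.len e0 ∣ N := Function.IsPeriodicPt.minimalPeriod_dvd h1
  obtain ⟨q, hq⟩ := h3
  refine ⟨q, hq, ?_⟩
  rw [← wk_mul L.F L.yy e0 (L.iterate_len e0) q, ← hq]
  have h4 := (L.sigma_iter hZ σ hσ a0 e0 he0 N).1
  rw [hN] at h4
  exact (mul_eq_left.mp h4.symm)

theorem mm_pos (e : L.S) : 0 < L.mm e := by
  obtain ⟨Z, hZ, h1⟩ := L.exists_ver e.2
  have hfin := L.T_finite hZ.1
  have hnt : (L.T Z).Nontrivial := ⟨1, h1.1, e, h1.2.1, h1.2.2.1⟩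
  obtain ⟨σ, hσ, -⟩ := (L.co hZ.1).exists_perm hfin hnt
  have : Finite (L.T Z) := hfin
  have he : (σ ⟨1, h1.1⟩ : G) = ((⟨1, h1.1⟩ : L.T Z) : G) * e := by
    rw [one_mul]
    exact (L.co hZ.1).sc_unique (hσ ⟨1, h1.1⟩) h1
  have hfo : IsOfFinOrder σ := isOfFinOrder_of_finite σ
  obtain ⟨q, hq, hq1⟩ := L.len_dvd hZ σ hσ ⟨1, h1.1⟩ e he (orderOf σ) (by
    rw [← Equiv.Perm.coe_pow, pow_orderOf_eq_one]
    rfl)
  have hq0 : 0 < q := by
    rcases Nat.eq_zero_or_pos q with h | h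
    · rw [h, mul_zero] at hq
      have := hfo.orderOf_pos
      omega
    · exact h
  have hd : orderOf (wk L.F L.yy e (L.len e)) ∣ q := orderOf_dvd_of_pow_eq_one hq1
  exact Nat.pos_of_dvd_of_pos hd hq0

variable {H : Type} [Group H]

open Classical in
/-- extension of a function on the letters to the group -/
noncomputable def ext (x : L.S → H) (g : G) : H := if h : L.Sd g then x ⟨g, h⟩ else 1

theorem ext_apply (x : L.S → H) {g : G} (h : L.Sd g) : L.ext x g = x ⟨g, h⟩ := by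
  unfold ext
  rw [dif_pos h]

theorem ext_coe (x : L.S → H) (e : L.S) : L.ext x e = x e := L.ext_apply x e.2

/-- `p` is a potential at `Z` -/
def IsPot (x : L.S → H) (Z : V) (p : G → H) : Prop :=
  ∀ a b, L.Sc Z a b → p b = p a * L.ext x (a⁻¹ * b)

theorem pot_unique (x : L.S → H) {Z : V} (hZ : Z ∈ Om) {p p' : G → H} (h : L.IsPot x Z p)
    (h' : L.IsPot x Z p') {a b : G} (ha : a ∈ L.T Z) (hb : b ∈ L.T Z) :
    (p a)⁻¹ * p b = (p' a)⁻¹ * p' b := by
  refine (L.co hZ).const (L.T_finite hZ) (c := fun y => (p a)⁻¹ * p y = (p' a)⁻¹ * p' y) ?_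
    ha hb (by simp)
  intro y z hyz e
  rw [h y z hyz, h' y z hyz, ← mul_assoc, ← mul_assoc, e]

theorem pot_act (x : L.S → H) {Z : V} {p : G → H} (h : L.IsPot x Z p) (g : G) :
    L.IsPot x (L.act g Z) (fun y => p (g⁻¹ * y)) := by
  intro a b hab
  have h1 : L.Sc Z (g⁻¹ * a) (g⁻¹ * b) := by
    rw [← L.Sc_act (g := g), mul_inv_cancel_left, mul_inv_cancel_left]
    exact hab
  have h2 := h _ _ h1
  change p (g⁻¹ * b) = p (g⁻¹ * a) * _
  rw [h2]
  congr 2
  group

variable {x : L.S → H}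

theorem ext_inv (hinv : ∀ e, x (L.inv e) = (x e)⁻¹) {g : G} (hg : L.Sd g) :
    L.ext x g⁻¹ = (L.ext x g)⁻¹ := by
  rw [L.ext_apply x hg, L.ext_apply x (L.Sd_inv hg), ← hinv]
  rfl

/-- existence of potentials -/
theorem exists_isPot (hinv : ∀ e, x (L.inv e) = (x e)⁻¹)
    (hrel : ∀ e, wk L.F x e (L.len e) ^ L.mm e = 1) {Z : V} (hZ : Z ∈ Om) :
    ∃ p : G → H, L.IsPot x Z p := by
  classical
  have hfin := L.T_finite hZ
  by_cases hnt : (L.T Z).Nontrivial
  swap
  · refine ⟨fun _ => 1, ?_⟩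
    intro a b hab
    exact absurd ⟨a, hab.1, b, hab.2.1, hab.2.2.1⟩ hnt
  obtain ⟨σ, hσ, hcyc⟩ := (L.co hZ).exists_perm hfin hnt
  obtain ⟨a0, ha0⟩ := hnt.nonempty
  set a : L.T Z := ⟨a0, ha0⟩ with ha
  have hs := hσ a
  by_cases hV : ∃ y ∈ L.T Z, y ≠ a0 ∧ y ≠ (σ a : G)
  · obtain ⟨y, hy, hy1, hy2⟩ := hV
    have hVer : L.Ver Z := L.ver_of hZ ha0 (σ a).2 hy hs.2.2.1 hy2.symm hy1.symm
    set e0 : L.S := ⟨a0⁻¹ * (σ a : G), L.Sd_of_Sc hZ hs⟩ with he0
    have he0' : (σ a : G) = (a : G) * e0 := by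
      change (σ a : G) = a0 * (a0⁻¹ * (σ a : G))
      rw [mul_inv_cancel_left]
    have : Fintype (L.T Z) := hfin.fintype
    set f : L.T Z → H := fun b => L.ext x ((b : G)⁻¹ * (σ b : G)) with hf
    have hN : (σ^[Fintype.card (L.T Z)]) a = a := by
      have hσ' : σ.IsCycleOn (Finset.univ : Finset (L.T Z)) := by
        rw [Finset.coe_univ]
        exact hcyc
      rw [← Equiv.Perm.coe_pow]
      exact hσ'.pow_card_apply (Finset.mem_univ a)
    have hwk : ∀ k, wk σ f a k = wk L.F x e0 k := by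
      intro k
      unfold wk
      congr 1
      apply List.map_congr_left
      intro i _
      change L.ext x (((σ^[i]) a : G)⁻¹ * (σ ((σ^[i]) a) : G)) = x ((L.F^[i]) e0)
      rw [(L.sigma_iter hVer σ hσ a e0 he0' i).2, L.ext_coe]
    obtain ⟨q, hq, hq1⟩ := L.len_dvd hVer σ hσ a e0 he0' _ hN
    obtain ⟨p, hp⟩ := exists_pot σ hcyc f a (by
      rw [hwk, hq, wk_mul L.F x e0 (L.iterate_len e0)]
      obtain ⟨r, hr⟩ : L.mm e0 ∣ q := orderOf_dvd_of_pow_eq_one hq1
      rw [hr, pow_mul, hrel, one_pow])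
    refine ⟨fun g => if h : g ∈ L.T Z then p ⟨g, h⟩ else 1, ?_⟩
    intro b c hbc
    have h1 : c = (σ ⟨b, hbc.1⟩ : G) := (L.co hZ).sc_unique hbc (hσ ⟨b, hbc.1⟩)
    have h2 : (⟨c, hbc.2.1⟩ : L.T Z) = σ ⟨b, hbc.1⟩ := Subtype.ext h1
    change (if h : c ∈ L.T Z then p ⟨c, h⟩ else 1) =
      (if h : b ∈ L.T Z then p ⟨b, h⟩ else 1) * _
    rw [dif_pos hbc.2.1, dif_pos hbc.1, h2, hp, hf]
    change p ⟨b, hbc.1⟩ * L.ext x (b⁻¹ * (σ ⟨b, hbc.1⟩ : G)) = _
    rw [← h1]
  · push Not at hV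
    have hSd : L.Sd (a0⁻¹ * (σ a : G)) := L.Sd_of_Sc hZ hs
    have hne : a0 ≠ (σ a : G) := hs.2.2.1
    refine ⟨fun g => if g = a0 then 1 else L.ext x (a0⁻¹ * (σ a : G)), ?_⟩
    intro b c hbc
    have hb : b = a0 ∨ b = (σ a : G) := by
      by_cases h : b = a0
      · exact Or.inl h
      · exact Or.inr (hV b hbc.1 h)
    have hc : c = a0 ∨ c = (σ a : G) := by
      by_cases h : c = a0
      · exact Or.inl h
      · exact Or.inr (hV c hbc.2.1 h)
    have hbc' : b ≠ c := hbc.2.2.1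
    rcases hb with rfl | hb
    · rcases hc with rfl | hc
      · exact absurd rfl hbc'
      · change (if c = b then 1 else _) = (if b = b then 1 else _) * _
        rw [if_neg hbc'.symm, if_pos rfl, one_mul, hc]
    · rcases hc with rfl | hc
      · change (if c = c then 1 else _) = (if b = c then 1 else _) * _
        rw [if_pos rfl, if_neg hbc', hb]
        have h3 : (σ a : G)⁻¹ * c = (c⁻¹ * (σ a : G))⁻¹ := by group
        rw [h3, L.ext_inv hinv hSd, mul_inv_cancel]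
      · exact absurd (hb.trans hc.symm) hbc'

theorem pot_side (hinv : ∀ e, x (L.inv e) = (x e)⁻¹) {Z : V} (hZ : Z ∈ Om) {p : G → H}
    (hp : L.IsPot x Z p) {g : G} (hg : L.Sd g) (h1 : 1 ∈ L.T Z) (h2 : g ∈ L.T Z) :
    (p 1)⁻¹ * p g = L.ext x g := by
  rcases L.Sc_of_side hZ hg h1 h2 with h | h
  · have := hp _ _ h
    rw [inv_one, one_mul] at this
    rw [this, inv_mul_cancel_left]
  · have := hp _ _ h
    rw [mul_one, L.ext_inv hinv hg] at this
    rw [this]
    group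

/-- the value at a neighbour does not depend on the point -/
theorem val_unique (hinv : ∀ e, x (L.inv e) = (x e)⁻¹) {Z Z' : V} (hZ : Z ∈ Om) (hZ' : Z' ∈ Om)
    {p p' : G → H} (hp : L.IsPot x Z p) (hp' : L.IsPot x Z' p') {g : G} (h1 : 1 ∈ L.T Z)
    (h2 : g ∈ L.T Z) (h1' : 1 ∈ L.T Z') (h2' : g ∈ L.T Z') :
    (p 1)⁻¹ * p g = (p' 1)⁻¹ * p' g := by
  by_cases hg : g = 1
  · rw [hg]; simp
  obtain ⟨c, t, hc, e⟩ := L.wall hZ hZ' (fun h => hg h.symm) h1 h2 h1' h2'
  by_cases ht : t = 0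
  · rw [ht, zero_smul, add_zero] at e
    rw [e] at hp'
    have hp'' : L.IsPot x Z p' := by
      intro a b hab
      exact hp' a b ((L.Sc_smul hc).mpr hab)
    exact L.pot_unique x hZ hp hp'' h1 h2
  · have hSd : L.Sd g := by
      refine ⟨fun h => hg h.symm, Z + Z', Om_add hZ hZ', ?_⟩
      have hW1 : (1 : G) ∈ L.T (Z + Z') := by
        intro y
        rw [L.lam_add, L.lam_add]
        exact add_le_add (h1 y) (h1' y)
      ext y
      simp only [Set.mem_insert_iff, Set.mem_singleton_iff]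
      constructor
      · intro hy
        by_contra hn
        push Not at hn
        have h3 := hy 1
        rw [L.lam_add, L.lam_add] at h3
        have h4 := h1 y
        have h5 := h1' y
        have hyZ : y ∈ L.T Z := L.mem_T_of_eq h1 (by linarith)
        have hyZ' : y ∈ L.T Z' := L.mem_T_of_eq h1' (by linarith)
        have h6 := L.T_eq hyZ' h1'
        rw [e, L.lam_add, L.lam_add, L.lam_smul, L.lam_smul, L.lam_smul, L.lam_smul,
          L.lam_crs, L.lam_crs_left, L.T_eq hyZ h1] at h6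
        have h7 : t * det3 (L.pt 1) (L.pt g) (L.pt y) = 0 := by linarith
        have h8 : det3 (L.pt 1) (L.pt g) (L.pt y) = 0 := by
          rcases mul_eq_zero.mp h7 with h | h
          · exact absurd h ht
          · exact h
        rcases (L.co hZ).total 1 h1 g h2 y hyZ (fun h => hg h.symm) hn.2.symm hn.1.symm with h | h
        · unfold Rr at h
          rw [h8] at h
          exact lt_irrefl _ h
        · unfold Rr at h
          rw [det3_swap', h8, neg_zero] at h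
          exact lt_irrefl _ h
      · rintro (rfl | rfl)
        · exact hW1
        · apply L.mem_T_of_eq hW1
          rw [L.lam_add, L.lam_add, L.T_eq h2 h1, L.T_eq h2' h1']
    rw [L.pot_side hinv hZ hp hSd h1 h2, L.pot_side hinv hZ' hp' hSd h1' h2']

/-- possible values at neighbours -/
def Val (x : L.S → H) (g : G) (v : H) : Prop :=
  ∃ Z ∈ Om, 1 ∈ L.T Z ∧ g ∈ L.T Z ∧ ∃ p : G → H, L.IsPot x Z p ∧ v = (p 1)⁻¹ * p g

open Classical in
/-- the extension to the neighbours -/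
noncomputable def xt (x : L.S → H) (g : G) : H := if h : ∃ v, L.Val x g v then h.choose else 1

theorem xt_eq (hinv : ∀ e, x (L.inv e) = (x e)⁻¹) {g : G} {v : H} (h : L.Val x g v) :
    L.xt x g = v := by
  have h0 : ∃ v, L.Val x g v := ⟨v, h⟩
  unfold xt
  rw [dif_pos h0]
  obtain ⟨Z, hZ, h1, h2, p, hp, e⟩ := h0.choose_spec
  obtain ⟨Z', hZ', h1', h2', p', hp', e'⟩ := h
  rw [e, e']
  exact L.val_unique hinv hZ hZ' hp hp' h1 h2 h1' h2'

/-- the universal property -/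
theorem univ (hinv : ∀ e, x (L.inv e) = (x e)⁻¹)
    (hrel : ∀ e, wk L.F x e (L.len e) ^ L.mm e = 1) : ∃ φ : G →* H, ∀ e : L.S, φ e = x e := by
  have hcoc : L.Coc (L.xt x) := by
    intro Z hZ a ha b hb c hc
    obtain ⟨p, hp⟩ := L.exists_isPot hinv hrel hZ
    have key : ∀ a ∈ L.T Z, ∀ b ∈ L.T Z, L.xt x (a⁻¹ * b) = (p a)⁻¹ * p b := by
      intro a ha b hb
      apply L.xt_eq hinv
      refine ⟨L.act a⁻¹ Z, L.Om_act _ _ hZ, ?_, ?_, _, L.pot_act x hp a⁻¹, ?_⟩
      · rw [mem_T_act']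
        simpa using ha
      · rw [mem_T_act']
        simpa using hb
      · simp
    rw [key a ha b hb, key b hb c hc, key a ha c hc]
    group
  obtain ⟨φ, hφ⟩ := L.exists_hom hcoc
  refine ⟨φ, ?_⟩
  intro e
  rw [hφ e (L.Sd_Nb e.2)]
  apply L.xt_eq hinv
  obtain ⟨h1, Z, hZ, hT⟩ := e.2
  have m1 : (1 : G) ∈ L.T Z := by rw [hT]; exact Set.mem_insert _ _
  have me : (e : G) ∈ L.T Z := by rw [hT]; exact Set.mem_insert_of_mem _ rfl
  obtain ⟨p, hp⟩ := L.exists_isPot hinv hrel hZ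
  refine ⟨Z, hZ, m1, me, p, hp, ?_⟩
  rw [L.pot_side hinv hZ hp e.2 m1 me, L.ext_coe]

/-- the letters generate -/
theorem gen : Subgroup.closure (Set.range L.yy) = ⊤ := by
  rw [eq_top_iff, ← L.closure_Nb, Subgroup.closure_le]
  rintro g ⟨Z, hZ, h1, h2⟩
  refine (L.co hZ).const (L.T_finite hZ)
    (c := fun y => y ∈ Subgroup.closure (Set.range L.yy)) ?_ h1 h2 (Subgroup.one_mem _)
  intro a b hab ha
  have h3 : a⁻¹ * b ∈ Subgroup.closure (Set.range L.yy) :=
    Subgroup.subset_closure ⟨⟨a⁻¹ * b, L.Sd_of_Sc hZ hab⟩, rfl⟩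
  have := Subgroup.mul_mem _ ha h3
  rwa [mul_inv_cancel_left] at this

end Lat

end Pool.Agent.ToST
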