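import Pool.Agent.Lib.MP_305fdd_al.To.ST.Lat
import Mathlib.LinearAlgebra.Matrix.SpecialLinearGroup
import Mathlib.MeasureTheory.Measure.Haar.NormedSpace
import Mathlib.MeasureTheory.Constructions.Pi

/-!
# MP_305fdd_al, torsion room (ST), Part E: the action of `SL(2, ℝ)` on symmetric matrices

A vector `Z = (z₀, z₁, z₂)` of `ℝ³` stands for the symmetric matrix `[[z₀+z₁, z₂], [z₂, z₀-z₁]]`,
whose determinant is `z₀² - z₁² - z₂²`; a matrix `A` of `SL(2, ℝ)` acts by `Z ↦ A Z Aᵀ`.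
-/

set_option autoImplicit false

namespace Pool.Agent.ToST

open Matrix

/-- the three coordinates of `A Z Aᵀ` -/
noncomputable def symFun (a b c d : ℝ) (Z : V) : V :=
  ![((a ^ 2 + c ^ 2) * (Z 0 + Z 1) + 2 * (a * b + c * d) * Z 2 + (b ^ 2 + d ^ 2) * (Z 0 - Z 1)) / 2,
    ((a ^ 2 - c ^ 2) * (Z 0 + Z 1) + 2 * (a * b - c * d) * Z 2 + (b ^ 2 - d ^ 2) * (Z 0 - Z 1)) / 2,
    a * c * (Z 0 + Z 1) + (a * d + b * c) * Z 2 + b * d * (Z 0 - Z 1)]

theorem symFun_zero (a b c d : ℝ) (Z : V) : symFun a b c d Z 0 =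
    ((a ^ 2 + c ^ 2) * (Z 0 + Z 1) + 2 * (a * b + c * d) * Z 2 +
      (b ^ 2 + d ^ 2) * (Z 0 - Z 1)) / 2 := rfl

theorem symFun_one (a b c d : ℝ) (Z : V) : symFun a b c d Z 1 =
    ((a ^ 2 - c ^ 2) * (Z 0 + Z 1) + 2 * (a * b - c * d) * Z 2 +
      (b ^ 2 - d ^ 2) * (Z 0 - Z 1)) / 2 := rfl

theorem symFun_two (a b c d : ℝ) (Z : V) : symFun a b c d Z 2 =
    a * c * (Z 0 + Z 1) + (a * d + b * c) * Z 2 + b * d * (Z 0 - Z 1) := rfl

/-- the action as a linear map -/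
noncomputable def symLin (A : SpecialLinearGroup (Fin 2) ℝ) : V →ₗ[ℝ] V where
  toFun Z := symFun (A 0 0) (A 0 1) (A 1 0) (A 1 1) Z
  map_add' Z W := by
    ext i
    fin_cases i <;> simp [symFun] <;> ring
  map_smul' r Z := by
    ext i
    fin_cases i <;> simp [symFun] <;> ring

theorem symLin_apply (A : SpecialLinearGroup (Fin 2) ℝ) (Z : V) :
    symLin A Z = symFun (A 0 0) (A 0 1) (A 1 0) (A 1 1) Z := rfl

theorem SL2_det_eq (A : SpecialLinearGroup (Fin 2) ℝ) : A 0 0 * A 1 1 - A 0 1 * A 1 0 = 1 := by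
  have h := A.det_coe
  rw [Matrix.det_fin_two] at h
  exact h

theorem symLin_mul (A A' : SpecialLinearGroup (Fin 2) ℝ) (Z : V) :
    symLin (A * A') Z = symLin A (symLin A' Z) := by
  have h00 : (A * A') 0 0 = A 0 0 * A' 0 0 + A 0 1 * A' 1 0 := by
    simp [Matrix.SpecialLinearGroup.coe_mul, Matrix.mul_apply, Fin.sum_univ_two]
  have h01 : (A * A') 0 1 = A 0 0 * A' 0 1 + A 0 1 * A' 1 1 := by
    simp [Matrix.SpecialLinearGroup.coe_mul, Matrix.mul_apply, Fin.sum_univ_two]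
  have h10 : (A * A') 1 0 = A 1 0 * A' 0 0 + A 1 1 * A' 1 0 := by
    simp [Matrix.SpecialLinearGroup.coe_mul, Matrix.mul_apply, Fin.sum_univ_two]
  have h11 : (A * A') 1 1 = A 1 0 * A' 0 1 + A 1 1 * A' 1 1 := by
    simp [Matrix.SpecialLinearGroup.coe_mul, Matrix.mul_apply, Fin.sum_univ_two]
  ext i
  rw [symLin_apply, symLin_apply, symLin_apply, h00, h01, h10, h11]
  fin_cases i
  · simp only [symFun, Fin.zero_eta, Matrix.cons_val_zero, Matrix.cons_val_one, Matrix.cons_val]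
    ring
  · simp only [symFun, Fin.mk_one, Matrix.cons_val_zero, Matrix.cons_val_one, Matrix.cons_val]
    ring
  · simp only [symFun, Fin.reduceFinMk, Matrix.cons_val_zero, Matrix.cons_val_one, Matrix.cons_val]
    ring

theorem symLin_one (Z : V) : symLin 1 Z = Z := by
  ext i
  rw [symLin_apply]
  fin_cases i
  · simp [symFun]
  · simp [symFun]
    ring
  · simp [symFun]

/-- the action as a representation of `SL(2, ℝ)` -/
noncomputable def symRep : SpecialLinearGroup (Fin 2) ℝ →* (V →ₗ[ℝ] V) where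
  toFun := symLin
  map_one' := by
    apply LinearMap.ext
    intro Z
    rw [symLin_one]
    rfl
  map_mul' A A' := by
    apply LinearMap.ext
    intro Z
    rw [symLin_mul]
    rfl

theorem symRep_apply (A : SpecialLinearGroup (Fin 2) ℝ) (Z : V) : symRep A Z = symLin A Z := rfl

theorem B_symLin (A : SpecialLinearGroup (Fin 2) ℝ) (Z W : V) :
    B (symLin A Z) (symLin A W) = B Z W := by
  have h := SL2_det_eq A
  simp only [B, symLin_apply, symFun_zero, symFun_one, symFun_two]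
  generalize A 0 0 = a at *
  generalize A 0 1 = b at *
  generalize A 1 0 = c at *
  generalize A 1 1 = d at *
  have h2 : (a * d - b * c) ^ 2 = 1 := by rw [h]; norm_num
  linear_combination (Z 0 * W 0 - Z 1 * W 1 - Z 2 * W 2) * h2

theorem det3_symLin (A : SpecialLinearGroup (Fin 2) ℝ) (Z W X : V) :
    det3 (symLin A Z) (symLin A W) (symLin A X) = det3 Z W X := by
  have h := SL2_det_eq A
  simp only [det3, symLin_apply, symFun_zero, symFun_one, symFun_two]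
  generalize A 0 0 = a at *
  generalize A 0 1 = b at *
  generalize A 1 0 = c at *
  generalize A 1 1 = d at *
  have h2 : (a * d - b * c) ^ 3 = 1 := by rw [h]; norm_num
  linear_combination (Z 0 * (W 1 * X 2 - W 2 * X 1) - Z 1 * (W 0 * X 2 - W 2 * X 0) +
    Z 2 * (W 0 * X 1 - W 1 * X 0)) * h2

/-- the main estimate: the time coordinate of `A Z Aᵀ` bounds the entries of `A` -/
theorem symLin_zero_ge (A : SpecialLinearGroup (Fin 2) ℝ) (Z : V) {δ : ℝ}
    (h : Z 1 ^ 2 + Z 2 ^ 2 ≤ (Z 0 - δ) ^ 2) (h0 : δ ≤ Z 0) :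
    δ / 2 * (A 0 0 ^ 2 + A 0 1 ^ 2 + A 1 0 ^ 2 + A 1 1 ^ 2) ≤ symLin A Z 0 := by
  rw [symLin_apply, symFun_zero]
  generalize A 0 0 = a at *
  generalize A 0 1 = b at *
  generalize A 1 0 = c at *
  generalize A 1 1 = d at *
  have key : ∀ x y : ℝ, δ * (x ^ 2 + y ^ 2) ≤
      x ^ 2 * (Z 0 + Z 1) + 2 * (x * y) * Z 2 + y ^ 2 * (Z 0 - Z 1) := by
    intro x y
    have e1 : x ^ 2 * (Z 0 + Z 1) + 2 * (x * y) * Z 2 + y ^ 2 * (Z 0 - Z 1) =
        Z 0 * (x ^ 2 + y ^ 2) + (Z 1 * (x ^ 2 - y ^ 2) + Z 2 * (2 * (x * y))) := by ring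
    rw [e1]
    have e2 : (Z 1 * (x ^ 2 - y ^ 2) + Z 2 * (2 * (x * y))) ^ 2 ≤
        ((Z 0 - δ) * (x ^ 2 + y ^ 2)) ^ 2 := by
      calc (Z 1 * (x ^ 2 - y ^ 2) + Z 2 * (2 * (x * y))) ^ 2
          ≤ (Z 1 ^ 2 + Z 2 ^ 2) * (x ^ 2 + y ^ 2) ^ 2 := by
            nlinarith [sq_nonneg (Z 1 * (2 * (x * y)) - Z 2 * (x ^ 2 - y ^ 2))]
        _ ≤ (Z 0 - δ) ^ 2 * (x ^ 2 + y ^ 2) ^ 2 :=
            mul_le_mul_of_nonneg_right h (sq_nonneg _)
        _ = _ := by ring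
    have e3 := abs_le.mp (abs_le_of_sq_le_sq e2 (mul_nonneg (by linarith) (by positivity)))
    nlinarith [e3.1, e3.2]
  have k1 := key a b
  have k2 := key c d
  linarith

theorem exists_delta {Z : V} (hZ : Z ∈ Om) :
    ∃ δ : ℝ, 0 < δ ∧ δ ≤ Z 0 ∧ Z 1 ^ 2 + Z 2 ^ 2 ≤ (Z 0 - δ) ^ 2 := by
  obtain ⟨h1, h2⟩ := hZ
  unfold B at h1
  refine ⟨(Z 0 * Z 0 - Z 1 * Z 1 - Z 2 * Z 2) / (2 * Z 0), by positivity, ?_, ?_⟩
  · rw [div_le_iff₀ (by positivity)]
    nlinarith [sq_nonneg (Z 1), sq_nonneg (Z 2)]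
  · have e : (Z 0 - (Z 0 * Z 0 - Z 1 * Z 1 - Z 2 * Z 2) / (2 * Z 0)) ^ 2 =
        Z 0 ^ 2 - (Z 0 * Z 0 - Z 1 * Z 1 - Z 2 * Z 2) +
          ((Z 0 * Z 0 - Z 1 * Z 1 - Z 2 * Z 2) / (2 * Z 0)) ^ 2 := by
      field_simp
      ring
    rw [e]
    nlinarith [sq_nonneg ((Z 0 * Z 0 - Z 1 * Z 1 - Z 2 * Z 2) / (2 * Z 0))]

theorem symLin_Om (A : SpecialLinearGroup (Fin 2) ℝ) {Z : V} (hZ : Z ∈ Om) : symLin A Z ∈ Om := by
  refine ⟨?_, ?_⟩
  · rw [B_symLin]
    exact hZ.1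
  · obtain ⟨δ, h1, h2, h3⟩ := exists_delta hZ
    have h4 := symLin_zero_ge A Z h3 h2
    have h5 : 0 < A 0 0 ^ 2 + A 0 1 ^ 2 + A 1 0 ^ 2 + A 1 1 ^ 2 := by
      have h := SL2_det_eq A
      by_contra hn
      push Not at hn
      have p1 : A 0 0 = 0 := by
        nlinarith [sq_nonneg (A 0 0), sq_nonneg (A 0 1), sq_nonneg (A 1 0), sq_nonneg (A 1 1)]
      have p2 : A 0 1 = 0 := by
        nlinarith [sq_nonneg (A 0 0), sq_nonneg (A 0 1), sq_nonneg (A 1 0), sq_nonneg (A 1 1)]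
      rw [p1, p2] at h
      norm_num at h
    exact lt_of_lt_of_le (by positivity) h4

/-- an element acting trivially is `1` or `-1` -/
theorem eq_of_symLin_trivial (A : SpecialLinearGroup (Fin 2) ℝ) (h : ∀ Z : V, symLin A Z = Z) :
    A = 1 ∨ A = -1 := by
  have h1 := h ![1, 1, 0]
  have h2 := h ![1, -1, 0]
  have a0 := congrFun h1 0
  have a1 := congrFun h1 1
  have b0 := congrFun h2 0
  have b1 := congrFun h2 1
  rw [symLin_apply, symFun_zero] at a0 b0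
  rw [symLin_apply, symFun_one] at a1 b1
  simp at a0 a1 b0 b1
  have hd := SL2_det_eq A
  have c0 : A 1 0 = 0 := by nlinarith [sq_nonneg (A 1 0)]
  have c1 : A 0 1 = 0 := by nlinarith [sq_nonneg (A 0 1)]
  have c2 : A 0 0 ^ 2 = 1 := by nlinarith
  have c3 : A 0 0 * A 1 1 = 1 := by rw [c0, c1] at hd; linarith
  have c4 : (A 0 0 - 1) * (A 0 0 + 1) = 0 := by linear_combination c2
  rcases (mul_eq_zero.mp c4).imp (fun h => sub_eq_zero.mp h) (fun h => eq_neg_of_add_eq_zero_left h) with h | h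
  · left
    ext i j
    fin_cases i <;> fin_cases j
    · simpa using h
    · simpa using c1
    · simpa using c0
    · rw [h] at c3
      simpa using c3
  · right
    ext i j
    fin_cases i <;> fin_cases j
    · simpa using h
    · simpa using c1
    · simpa using c0
    · rw [h] at c3
      simp
      linarith

end Pool.Agent.ToST
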