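import Pool.Agent.Lib.MP_305fdd_al.To.ST.Lat

/-!
# MP_305fdd_al, torsion room (ST): the tiles

`Lat.T L Z` = the set of all `g` for which the orbit point `g P` is nearest to `Z`.
-/

set_option autoImplicit false

namespace Pool.Agent.ToST

open Filter Topology

namespace Lat

variable {G : Type} [Group G] (L : Lat G)

/-- the orbit points -/
def pt (g : G) : V := L.act g L.P

theorem act_mul (g h : G) (u : V) : L.act (g * h) u = L.act g (L.act h u) := by
  rw [map_mul]; rfl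

theorem act_one (u : V) : L.act 1 u = u := by
  rw [map_one]; rfl

theorem act_inv_act (g : G) (u : V) : L.act g⁻¹ (L.act g u) = u := by
  rw [← L.act_mul, inv_mul_cancel, L.act_one]

theorem act_act_inv (g : G) (u : V) : L.act g (L.act g⁻¹ u) = u := by
  rw [← L.act_mul, mul_inv_cancel, L.act_one]

theorem act_injective (g : G) : Function.Injective (L.act g) := by
  intro u v h
  rw [← L.act_inv_act g u, h, L.act_inv_act]

theorem B_act_left (g : G) (u v : V) : B (L.act g u) v = B u (L.act g⁻¹ v) := by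
  rw [← L.B_act g u (L.act g⁻¹ v), L.act_act_inv]

theorem mem_Om_iff (g : G) (Z : V) : L.act g Z ∈ Om ↔ Z ∈ Om := by
  constructor
  · intro h
    have := L.Om_act g⁻¹ _ h
    rwa [L.act_inv_act] at this
  · exact L.Om_act g Z

theorem pt_one : L.pt 1 = L.P := L.act_one _

theorem pt_mem (g : G) : L.pt g ∈ Om := L.Om_act g _ L.P_mem

theorem B_pt (g : G) : B (L.pt g) (L.pt g) = 1 := by
  unfold pt
  rw [L.B_act, L.P_one]

theorem act_pt (g h : G) : L.act g (L.pt h) = L.pt (g * h) := by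
  unfold pt
  rw [L.act_mul]

theorem pt_injective : Function.Injective L.pt := by
  intro g h hgh
  have h1 : L.act (h⁻¹ * g) L.P = L.P := by
    rw [L.act_mul]
    change L.act h⁻¹ (L.pt g) = L.P
    rw [hgh]
    unfold pt
    exact L.act_inv_act h L.P
  have h2 := L.free _ h1
  rw [inv_mul_eq_one] at h2
  exact h2.symm

/-- the function `B(g P, Z)` -/
def lam (g : G) (Z : V) : ℝ := B (L.pt g) Z

theorem lam_act (g h : G) (Z : V) : L.lam (g * h) (L.act g Z) = L.lam h Z := by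
  unfold lam
  rw [← L.act_pt, L.B_act]

theorem lam_pos (g : G) {Z : V} (hZ : Z ∈ Om) : 0 < L.lam g Z := B_pos (L.pt_mem g) hZ

theorem continuous_lam (g : G) : Continuous (L.lam g) := continuous_B_right _

theorem lam_add (g : G) (Z W : V) : L.lam g (Z + W) = L.lam g Z + L.lam g W :=
  B_add_right _ _ _

theorem lam_sub (g : G) (Z W : V) : L.lam g (Z - W) = L.lam g Z - L.lam g W :=
  B_sub_right _ _ _

theorem lam_smul (g : G) (c : ℝ) (Z : V) : L.lam g (c • Z) = c * L.lam g Z :=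
  B_smul_right _ _ _

/-- the height of `g` -/
def ht (g : G) : ℝ := L.lam g L.P

theorem ht_one : L.ht 1 = 1 := by
  unfold ht lam
  rw [L.pt_one, L.P_one]

theorem one_le_ht (g : G) : 1 ≤ L.ht g := one_le_B (L.pt_mem g) L.P_mem (L.B_pt g) L.P_one

theorem one_lt_ht {g : G} (hg : g ≠ 1) : 1 < L.ht g := by
  apply one_lt_B (L.pt_mem g) L.P_mem (L.B_pt g) L.P_one
  intro h
  exact hg (L.free g h)

theorem ht_fin (r : ℝ) : {g : G | L.ht g ≤ r}.Finite := by
  have := L.fin r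
  refine this.subset ?_
  intro g hg
  change B (L.pt g) L.P ≤ r at hg
  change B L.P (L.pt g) ≤ r
  rwa [B_comm]

/-- the closed convex cone of the points nearest to `g P` -/
def Cl (g : G) : Set V := {Z | ∀ h, L.lam g Z ≤ L.lam h Z}

/-- the set of the nearest orbit points -/
def T (Z : V) : Set G := {g | Z ∈ L.Cl g}

theorem mem_T {Z : V} {g : G} : g ∈ L.T Z ↔ ∀ h, L.lam g Z ≤ L.lam h Z := Iff.rfl

theorem Cl_closed (g : G) : IsClosed (L.Cl g) := by
  have : L.Cl g = ⋂ h, {Z | L.lam g Z ≤ L.lam h Z} := by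
    ext Z
    simp [Cl]
  rw [this]
  apply isClosed_iInter
  intro h
  exact isClosed_le (L.continuous_lam g) (L.continuous_lam h)

theorem Cl_convex (g : G) : Convex ℝ (L.Cl g) := by
  intro x hx y hy a b ha hb _ h
  rw [L.lam_add, L.lam_add, L.lam_smul, L.lam_smul, L.lam_smul, L.lam_smul]
  have h1 := mul_le_mul_of_nonneg_left (hx h) ha
  have h2 := mul_le_mul_of_nonneg_left (hy h) hb
  linarith

theorem T_eq {Z : V} {g h : G} (hg : g ∈ L.T Z) (hh : h ∈ L.T Z) : L.lam g Z = L.lam h Z :=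
  le_antisymm (hg h) (hh g)

theorem mem_T_of_eq {Z : V} {g h : G} (hg : g ∈ L.T Z) (hh : L.lam h Z ≤ L.lam g Z) :
    h ∈ L.T Z := fun k => hh.trans (hg k)

theorem lt_of_not_mem {Z : V} {g h : G} (hg : g ∈ L.T Z) (hh : h ∉ L.T Z) :
    L.lam g Z < L.lam h Z := by
  by_contra hn
  exact hh (L.mem_T_of_eq hg (not_lt.mp hn))

theorem T_smul {Z : V} {c : ℝ} (hc : 0 < c) : L.T (c • Z) = L.T Z := by
  ext g
  rw [mem_T, mem_T]
  constructor
  · intro h k
    have := h k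
    rw [L.lam_smul, L.lam_smul] at this
    exact le_of_mul_le_mul_left this hc
  · intro h k
    rw [L.lam_smul, L.lam_smul]
    exact mul_le_mul_of_nonneg_left (h k) hc.le

theorem mem_T_act {Z : V} {g h : G} : g * h ∈ L.T (L.act g Z) ↔ h ∈ L.T Z := by
  rw [mem_T, mem_T]
  constructor
  · intro H k
    have := H (g * k)
    rwa [L.lam_act, L.lam_act] at this
  · intro H k
    have := H (g⁻¹ * k)
    rw [L.lam_act]
    refine this.trans (le_of_eq ?_)
    rw [← L.lam_act g, mul_inv_cancel_left]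

theorem mem_T_act' {Z : V} {g h : G} : h ∈ L.T (L.act g Z) ↔ g⁻¹ * h ∈ L.T Z := by
  have := L.mem_T_act (Z := Z) (g := g) (h := g⁻¹ * h)
  rwa [mul_inv_cancel_left] at this

theorem one_mem_T_P : (1 : G) ∈ L.T L.P := by
  intro h
  change L.ht 1 ≤ L.ht h
  rw [L.ht_one]
  exact L.one_le_ht h

/-! ### finiteness -/

/-- near a point of `Om`, the heights are bounded by the distances -/
theorem exists_c {Z : V} (hZ : Z ∈ Om) : ∃ c : ℝ, 0 < c ∧ ∀ᶠ W in 𝓝 Z, W - c • L.P ∈ Om := by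
  have h1 : Tendsto (fun q : ℝ × V => q.2 - q.1 • L.P) (𝓝 ((0 : ℝ), Z)) (𝓝 Z) := by
    have : Continuous fun q : ℝ × V => q.2 - q.1 • L.P := by fun_prop
    have h2 := this.tendsto ((0 : ℝ), Z)
    simpa using h2
  have h2 : ∀ᶠ q : ℝ × V in 𝓝 ((0 : ℝ), Z), q.2 - q.1 • L.P ∈ Om :=
    h1.eventually (Om_open.mem_nhds hZ)
  rw [nhds_prod_eq] at h2
  obtain ⟨p, hp, q, hq, hpq⟩ := Filter.eventually_prod_iff.mp h2
  have h3 : ∀ᶠ c in 𝓝[>] (0 : ℝ), p c := nhdsWithin_le_nhds hp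
  have h4 : ∀ᶠ c in 𝓝[>] (0 : ℝ), 0 < c := self_mem_nhdsWithin
  obtain ⟨c, hc1, hc2⟩ := (h3.and h4).exists
  exact ⟨c, hc2, hq.mono fun W hW => hpq hc1 hW⟩

theorem ht_le_of {W : V} {c : ℝ} (h : W - c • L.P ∈ Om) (g : G) :
    c * L.ht g < L.lam g W := by
  have h1 := L.lam_pos g h
  rw [L.lam_sub, L.lam_smul] at h1
  change 0 < L.lam g W - c * L.ht g at h1
  linarith

theorem lam_fin {Z : V} (hZ : Z ∈ Om) (r : ℝ) : {g : G | L.lam g Z ≤ r}.Finite := by
  obtain ⟨c, hc, h⟩ := L.exists_c hZ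
  have h1 := h.self_of_nhds
  refine (L.ht_fin (r / c)).subset ?_
  intro g hg
  have h2 := L.ht_le_of h1 g
  change L.lam g Z ≤ r at hg
  change L.ht g ≤ r / c
  rw [le_div_iff₀ hc]
  linarith

theorem T_finite {Z : V} (hZ : Z ∈ Om) : (L.T Z).Finite :=
  (L.lam_fin hZ (L.lam 1 Z)).subset fun _ hg => hg 1

theorem T_nonempty {Z : V} (hZ : Z ∈ Om) : (L.T Z).Nonempty := by
  have h1 := L.lam_fin hZ (L.lam 1 Z)
  obtain ⟨g, hg, hmin⟩ := Set.exists_min_image _ (fun g => L.lam g Z) h1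
    ⟨1, le_refl (L.lam 1 Z)⟩
  refine ⟨g, fun h => ?_⟩
  by_cases hh : L.lam h Z ≤ L.lam 1 Z
  · exact hmin h hh
  · have : L.lam g Z ≤ L.lam 1 Z := hg
    linarith [not_le.mp hh]

/-- local finiteness: near `Z` there are no new nearest points -/
theorem T_local {Z : V} (hZ : Z ∈ Om) : ∀ᶠ W in 𝓝 Z, W ∈ Om ∧ L.T W ⊆ L.T Z := by
  obtain ⟨g, hg⟩ := L.T_nonempty hZ
  obtain ⟨c, hc, h⟩ := L.exists_c hZ
  have h1 : ∀ᶠ W in 𝓝 Z, L.lam g W < L.lam g Z + 1 := by
    apply (L.continuous_lam g).continuousAt.eventually_lt continuousAt_const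
    linarith
  set J : Set G := {k | L.ht k ≤ (L.lam g Z + 1) / c} with hJ
  have hJf : J.Finite := L.ht_fin _
  have h2 : ∀ᶠ W in 𝓝 Z, ∀ k ∈ J, k ∉ L.T Z → L.lam g W < L.lam k W := by
    rw [hJf.eventually_all]
    intro k _
    by_cases hk : k ∈ L.T Z
    · exact Filter.Eventually.of_forall fun W hW => absurd hk hW
    · have h3 : L.lam g Z < L.lam k Z := L.lt_of_not_mem hg hk
      have h4 := (L.continuous_lam g).continuousAt.eventually_lt
        (L.continuous_lam k).continuousAt h3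
      exact h4.mono fun W hW _ => hW
  filter_upwards [h, h1, h2, Om_open.mem_nhds hZ] with W w1 w2 w3 w4
  refine ⟨w4, ?_⟩
  intro k hk
  by_contra hn
  have h5 : k ∈ J := by
    change L.ht k ≤ (L.lam g Z + 1) / c
    rw [le_div_iff₀ hc]
    have := L.ht_le_of w1 k
    have := hk g
    linarith
  have h6 := w3 k h5 hn
  have h7 := hk g
  linarith

/-! ### cocompactness -/

theorem coc' : ∃ R : ℝ, 1 ≤ R ∧ ∀ Z ∈ Om, 1 ∈ L.T Z → (L.lam 1 Z) ^ 2 ≤ R * B Z Z := by
  obtain ⟨R, hR⟩ := L.coc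
  refine ⟨max R 1, le_max_right _ _, ?_⟩
  intro Z hZ h1
  obtain ⟨g, hg⟩ := hR Z hZ
  have h2 : L.lam 1 Z ≤ L.lam g Z := h1 g
  have h3 : 0 < L.lam 1 Z := L.lam_pos 1 hZ
  have h4 : L.lam g Z = B Z (L.act g L.P) := by
    unfold lam pt
    rw [B_comm]
  have h5 : (L.lam 1 Z) ^ 2 ≤ (L.lam g Z) ^ 2 := by
    apply pow_le_pow_left₀ h3.le h2
  rw [h4] at h5
  have h6 : R * B Z Z ≤ max R 1 * B Z Z :=
    mul_le_mul_of_nonneg_right (le_max_left _ _) hZ.1.le
  linarith

/-- the set of the neighbours of the tile of `1` -/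
def Nb : Set G := {h | ∃ Z ∈ Om, 1 ∈ L.T Z ∧ h ∈ L.T Z}

theorem Nb_finite : L.Nb.Finite := by
  obtain ⟨R, hR1, hR⟩ := L.coc'
  refine (L.ht_fin (2 * R)).subset ?_
  rintro h ⟨Z, hZ, h1, h2⟩
  have hl : 0 < L.lam 1 Z := L.lam_pos 1 hZ
  set c : ℝ := L.lam 1 Z / (2 * R) with hc
  have hR0 : (0 : ℝ) < 2 * R := by linarith
  have hc0 : 0 < c := div_pos hl hR0
  have e1 : L.lam 1 Z = B Z L.P := by
    unfold lam
    rw [L.pt_one, B_comm]
  have hcR : c * (2 * R) = L.lam 1 Z := by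
    rw [hc]
    field_simp
  have hW : Z - c • L.P ∈ Om := by
    apply mem_Om_of L.P_mem
    · simp only [B_sub_left, B_sub_right, B_smul_left, B_smul_right, L.P_one, B_comm L.P Z, ← e1]
      have h3 := hR Z hZ h1
      have h4 : 0 < B Z Z := hZ.1
      have h5 : L.lam 1 Z * (2 * c) ≤ B Z Z := by
        have h6 : R * (L.lam 1 Z * (2 * c)) = (L.lam 1 Z) ^ 2 := by
          calc R * (L.lam 1 Z * (2 * c)) = L.lam 1 Z * (c * (2 * R)) := by ring
            _ = (L.lam 1 Z) ^ 2 := by rw [hcR]; ring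
        have h7 : R * (L.lam 1 Z * (2 * c)) ≤ R * B Z Z := by rw [h6]; exact h3
        exact le_of_mul_le_mul_left h7 (by linarith)
      nlinarith
    · rw [B_sub_right, B_smul_right, L.P_one, B_comm, ← e1, ← hcR]
      nlinarith
  have h3 := L.ht_le_of hW h
  rw [L.T_eq h2 h1] at h3
  rw [← hcR] at h3
  exact (lt_of_mul_lt_mul_left h3 hc0.le).le

theorem Nb_of_T {Z : V} (hZ : Z ∈ Om) {g h : G} (hg : g ∈ L.T Z) (hh : h ∈ L.T Z) :
    g⁻¹ * h ∈ L.Nb := by
  refine ⟨L.act g⁻¹ Z, L.Om_act _ _ hZ, ?_, ?_⟩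
  · rw [mem_T_act']
    simpa using hg
  · rw [mem_T_act']
    simpa using hh

end Lat

end Pool.Agent.ToST
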