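import Pool.Agent.Lib.MP_305fdd_al.To.ST.Loc

/-!
# MP_305fdd_al, torsion room (ST): the vertices of the tiles; the permutation `F` of the sides
-/

set_option autoImplicit false

namespace Pool.Agent.ToST

open Filter Topology

namespace Lat

variable {G : Type} [Group G] (L : Lat G)

/-- `Z` is a vertex: at least three nearest points -/
def Ver (Z : V) : Prop := Z ∈ Om ∧ ∀ a b : G, ∃ y ∈ L.T Z, y ≠ a ∧ y ≠ b

theorem ver_of {Z : V} (hZ : Z ∈ Om) {a b c : G} (ha : a ∈ L.T Z) (hb : b ∈ L.T Z)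
    (hc : c ∈ L.T Z) (hab : a ≠ b) (hbc : b ≠ c) (hac : a ≠ c) : L.Ver Z := by
  refine ⟨hZ, ?_⟩
  intro x y
  by_cases h1 : a ≠ x ∧ a ≠ y
  · exact ⟨a, ha, h1⟩
  by_cases h2 : b ≠ x ∧ b ≠ y
  · exact ⟨b, hb, h2⟩
  refine ⟨c, hc, ?_⟩
  rw [not_and_or, not_not, not_not] at h1 h2
  refine ⟨?_, ?_⟩
  · rintro rfl
    rcases h1 with h1 | h1
    · exact hac h1
    · rcases h2 with h2 | h2
      · exact hbc h2
      · exact hab (h1.trans h2.symm)
  · rintro rfl
    rcases h1 with h1 | h1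
    · rcases h2 with h2 | h2
      · exact hab (h1.trans h2.symm)
      · exact hbc h2
    · exact hac h1

theorem Ver_act {Z : V} (g : G) (h : L.Ver Z) : L.Ver (L.act g Z) := by
  refine ⟨L.Om_act _ _ h.1, ?_⟩
  intro a b
  obtain ⟨y, hy, h1, h2⟩ := h.2 (g⁻¹ * a) (g⁻¹ * b)
  refine ⟨g * y, L.mem_T_act.mpr hy, ?_, ?_⟩
  · rintro rfl
    exact h1 (by rw [inv_mul_cancel_left])
  · rintro rfl
    exact h2 (by rw [inv_mul_cancel_left])

theorem exists_pert_pos (Z w : V) (hZ : Z ∈ Om) : ∀ᶠ s in 𝓝 (0 : ℝ), Z - s • w ∈ Om ∧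
    L.T (Z - s • w) ⊆ L.T Z := by
  have h1 : Tendsto (fun ε : ℝ => Z - ε • w) (𝓝 0) (𝓝 Z) := by
    have : Continuous fun ε : ℝ => Z - ε • w := by fun_prop
    have h2 := this.tendsto 0
    simpa using h2
  exact h1.eventually (L.T_local hZ)

/-- every side ends in a vertex -/
theorem exists_ver {e : G} (he : L.Sd e) : ∃ Z, L.Ver Z ∧ L.Sc Z 1 e := by
  obtain ⟨h1e, Z0, hZ0, hT0⟩ := he
  obtain ⟨R, hR1, hR⟩ := L.coc'
  set w := crs (L.pt 1) (L.pt e) with hw
  set k := L.lam 1 Z0 with hk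
  have hk0 : 0 < k := L.lam_pos 1 hZ0
  have m1 : (1 : G) ∈ L.T Z0 := by rw [hT0]; exact Set.mem_insert _ _
  have me : e ∈ L.T Z0 := by rw [hT0]; exact Set.mem_insert_of_mem _ rfl
  have hlam : ∀ (y : G) (s : ℝ), L.lam y (Z0 - s • w) =
      L.lam y Z0 - s * det3 (L.pt 1) (L.pt e) (L.pt y) := by
    intro y s
    rw [L.lam_sub, L.lam_smul, hw, L.lam_crs]
  have h1 : ∀ s : ℝ, L.lam 1 (Z0 - s • w) = k := by
    intro s
    rw [hlam, det3_self', mul_zero, sub_zero]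
  have h2 : ∀ s : ℝ, L.lam e (Z0 - s • w) = k := by
    intro s
    rw [hlam, det3_self'', mul_zero, sub_zero, L.T_eq me m1]
  have hw0 : w ≠ 0 := by
    intro h
    apply h1e
    apply L.pt_injective
    have e1 : B Z0 (L.pt 1) = L.lam 1 Z0 := B_comm _ _
    have e2 : B Z0 (L.pt e) = L.lam e Z0 := B_comm _ _
    apply eq_of_crs (Z := Z0) h
    · rw [e1, e2, L.T_eq m1 me]
    · rw [e1]; exact hk0.ne'
  have hwP : B L.P w = 0 := by
    have := L.lam_crs_left 1 e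
    rw [← hw] at this
    unfold lam at this
    rwa [L.pt_one] at this
  have hww : B w w < 0 := B_neg_of_orth L.P_mem hwP hw0
  set A : Set ℝ := {s | 0 ≤ s ∧ k ^ 2 ≤ R * B (Z0 - s • w) (Z0 - s • w) ∧
    Z0 - s • w ∈ L.Cl 1} with hA
  have hmem : ∀ s ∈ A, Z0 - s • w ∈ Om := by
    intro s hs
    apply mem_Om_of L.P_mem
    · have h3 := hs.2.1
      by_contra hn
      push Not at hn
      have : R * B (Z0 - s • w) (Z0 - s • w) ≤ 0 :=
        mul_nonpos_of_nonneg_of_nonpos (by linarith) hn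
      nlinarith
    · have h3 := h1 s
      unfold lam at h3
      rw [L.pt_one] at h3
      rw [h3]
      exact hk0
  have hcont : Continuous fun s : ℝ => Z0 - s • w := by fun_prop
  have hAc : IsClosed A := by
    have e1 : A = {s : ℝ | 0 ≤ s} ∩ ({s : ℝ | k ^ 2 ≤ R * B (Z0 - s • w) (Z0 - s • w)} ∩
      (fun s : ℝ => Z0 - s • w) ⁻¹' L.Cl 1) := by
      ext s
      simp [hA]
    rw [e1]
    refine (isClosed_le continuous_const continuous_id).inter
      (IsClosed.inter ?_ ((L.Cl_closed 1).preimage hcont))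
    apply isClosed_le continuous_const
    exact continuous_const.mul (continuous_B_self.comp hcont)
  have h0A : (0 : ℝ) ∈ A := by
    refine ⟨le_refl _, ?_, ?_⟩
    · rw [zero_smul, sub_zero]
      exact hR Z0 hZ0 m1
    · rw [zero_smul, sub_zero]
      exact m1
  have hbd : BddAbove A := by
    set b0 := B Z0 Z0
    set b1 := B Z0 w
    set q := - B w w with hq
    have hq0 : 0 < q := by linarith
    refine ⟨max 1 ((b0 + 2 * |b1|) / q), ?_⟩
    intro s hs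
    rcases le_or_gt s 1 with hs1 | hs1
    · exact le_max_of_le_left hs1
    · apply le_max_of_le_right
      have h3 := (hmem s hs).1
      have h4 : B (Z0 - s • w) (Z0 - s • w) = b0 - 2 * s * b1 - s ^ 2 * q := by
        simp only [B_sub_left, B_sub_right, B_smul_left, B_smul_right, B_comm w Z0, hq]
        ring
      rw [h4] at h3
      have h5 : 0 < b0 := hZ0.1
      have h6 : -b1 ≤ |b1| := neg_le_abs b1
      rw [le_div_iff₀ hq0]
      have h7 : s ^ 2 * q < s * (b0 + 2 * |b1|) := by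
        have h8 : -(2 * s * b1) ≤ 2 * s * |b1| := by nlinarith
        have h9 : b0 ≤ s * b0 := by nlinarith
        nlinarith
      have h8 : s * (s * q) < s * (b0 + 2 * |b1|) := by
        calc s * (s * q) = s ^ 2 * q := by ring
          _ < _ := h7
      exact (lt_of_mul_lt_mul_left h8 (by linarith)).le
  set s1 := sSup A with hs1
  have hs1A : s1 ∈ A := hAc.csSup_mem ⟨0, h0A⟩ hbd
  have hZ1 := hmem s1 hs1A
  have m1' : (1 : G) ∈ L.T (Z0 - s1 • w) := hs1A.2.2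
  have me' : e ∈ L.T (Z0 - s1 • w) := L.mem_T_of_eq m1' (by rw [h1, h2])
  have hthird : ∃ y ∈ L.T (Z0 - s1 • w), y ≠ 1 ∧ y ≠ e := by
    by_contra hn
    push Not at hn
    have h3 := L.exists_pert_pos (Z0 - s1 • w) w hZ1
    have h4 : ∀ᶠ ε in 𝓝[>] (0 : ℝ), (Z0 - s1 • w) - ε • w ∈ Om ∧
      L.T ((Z0 - s1 • w) - ε • w) ⊆ L.T (Z0 - s1 • w) := nhdsWithin_le_nhds h3
    have h5 : ∀ᶠ c in 𝓝[>] (0 : ℝ), 0 < c := self_mem_nhdsWithin
    obtain ⟨ε, ⟨h6, h7⟩, h8⟩ := (h4.and h5).exists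
    have e1 : (Z0 - s1 • w) - ε • w = Z0 - (s1 + ε) • w := by
      rw [add_smul]
      abel
    rw [e1] at h6 h7
    have h9 : (1 : G) ∈ L.T (Z0 - (s1 + ε) • w) := by
      obtain ⟨y, hy⟩ := L.T_nonempty h6
      by_cases hy1 : y = 1
      · rw [← hy1]; exact hy
      · have hye := hn y (h7 hy) hy1
        rw [hye] at hy
        exact L.mem_T_of_eq hy (by rw [h1, h2])
    have h10 : s1 + ε ∈ A := by
      refine ⟨by linarith [hs1A.1], ?_, h9⟩
      have := hR _ h6 h9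
      rwa [h1] at this
    have h11 : s1 + ε ≤ s1 := le_csSup hbd h10
    linarith
  obtain ⟨y, hy, hy1, hye⟩ := hthird
  have hs0 : 0 < s1 := by
    rcases hs1A.1.lt_or_eq with h | h
    · exact h
    · exfalso
      rw [← h, zero_smul, sub_zero, hT0] at hy
      rcases hy with h' | h'
      · exact hy1 h'
      · exact hye h'
  refine ⟨Z0 - s1 • w, L.ver_of hZ1 m1' me' hy h1e hye.symm hy1.symm, m1', me', h1e, ?_⟩
  intro z hz hz1 hze
  have h3 := L.T_eq hz m1'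
  rw [h1, hlam] at h3
  have h4 : k < L.lam z Z0 := by
    apply L.lt_of_not_mem m1
    rw [hT0]
    simp [hz1, hze]
  have h5 : 0 < s1 * det3 (L.pt 1) (L.pt e) (L.pt z) := by linarith
  exact (mul_pos_iff_of_pos_left hs0).mp h5

/-- the vertex is unique up to scaling -/
theorem ver_unique {Z Z' : V} (hZ : L.Ver Z) (hZ' : L.Ver Z') {a b : G} (h : L.Sc Z a b)
    (h' : L.Sc Z' a b) : ∃ c : ℝ, 0 < c ∧ Z' = c • Z := by
  obtain ⟨c, t, hc, e⟩ := L.wall hZ.1 hZ'.1 h.2.2.1 h.1 h.2.1 h'.1 h'.2.1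
  have key : ∀ y, L.lam y Z' = c * L.lam y Z + t * det3 (L.pt a) (L.pt b) (L.pt y) := by
    intro y
    rw [e, L.lam_add, L.lam_smul, L.lam_smul, L.lam_crs]
  have ka : L.lam a Z' = c * L.lam a Z := by
    rw [key, det3_self', mul_zero, add_zero]
  obtain ⟨y, hy, hya, hyb⟩ := hZ.2 a b
  obtain ⟨y', hy', hya', hyb'⟩ := hZ'.2 a b
  have h1 : 0 < det3 (L.pt a) (L.pt b) (L.pt y) := h.2.2.2 y hy hya hyb
  have h2 : 0 < det3 (L.pt a) (L.pt b) (L.pt y') := h'.2.2.2 y' hy' hya' hyb'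
  have h3 : L.lam a Z' ≤ L.lam y Z' := h'.1 y
  rw [ka, key, L.T_eq hy h.1] at h3
  have h4 : L.lam y' Z' = L.lam a Z' := L.T_eq hy' h'.1
  rw [ka, key] at h4
  have h5 : c * L.lam a Z ≤ c * L.lam y' Z := mul_le_mul_of_nonneg_left (h.1 y') hc.le
  have h6 : 0 ≤ t := by
    by_contra hn
    push Not at hn
    nlinarith
  have h7 : t ≤ 0 := by
    by_contra hn
    push Not at hn
    nlinarith
  have h8 : t = 0 := le_antisymm h7 h6
  refine ⟨c, hc, ?_⟩
  rw [e, h8, zero_smul, add_zero]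

/-- the next side letter in the vertex cycle -/
def NX (e f : G) : Prop := ∃ Z, L.Ver Z ∧ L.Sc Z 1 e ∧ L.Sc Z e (e * f)

theorem nx_exists {e : G} (he : L.Sd e) : ∃ f, L.Sd f ∧ L.NX e f := by
  obtain ⟨Z, hZ, h1⟩ := L.exists_ver he
  obtain ⟨b, hb⟩ := (L.co hZ.1).exists_sc (L.T_finite hZ.1) h1.2.1 ⟨1, h1.1, h1.2.2.1⟩
  have h2 : L.Sc Z e b := hb
  refine ⟨e⁻¹ * b, L.Sd_of_Sc hZ.1 h2, Z, hZ, h1, ?_⟩
  rw [mul_inv_cancel_left]
  exact h2

theorem nx_unique {e f f' : G} (h : L.NX e f) (h' : L.NX e f') : f = f' := by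
  obtain ⟨Z, hZ, h1, h2⟩ := h
  obtain ⟨Z', hZ', h1', h2'⟩ := h'
  obtain ⟨c, hc, e1⟩ := L.ver_unique hZ hZ' h1 h1'
  rw [e1, L.Sc_smul hc] at h2'
  exact mul_left_cancel ((L.co hZ.1).sc_unique h2 h2')

theorem nx_inj {e e' f : G} (h : L.NX e f) (h' : L.NX e' f) : e = e' := by
  obtain ⟨Z, hZ, h1, h2⟩ := h
  obtain ⟨Z', hZ', h1', h2'⟩ := h'
  have k1 : L.Sc (L.act e⁻¹ Z) 1 f := by
    have := (L.Sc_act (g := e⁻¹)).mpr h2
    rwa [inv_mul_cancel, inv_mul_cancel_left] at this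
  have k1' : L.Sc (L.act e'⁻¹ Z') 1 f := by
    have := (L.Sc_act (g := e'⁻¹)).mpr h2'
    rwa [inv_mul_cancel, inv_mul_cancel_left] at this
  have k2 : L.Sc (L.act e⁻¹ Z) e⁻¹ 1 := by
    have := (L.Sc_act (g := e⁻¹)).mpr h1
    rwa [inv_mul_cancel, mul_one] at this
  have k2' : L.Sc (L.act e'⁻¹ Z') e'⁻¹ 1 := by
    have := (L.Sc_act (g := e'⁻¹)).mpr h1'
    rwa [inv_mul_cancel, mul_one] at this
  obtain ⟨c, hc, e1⟩ := L.ver_unique (L.Ver_act e⁻¹ hZ) (L.Ver_act e'⁻¹ hZ') k1 k1'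
  rw [e1, L.Sc_smul hc] at k2'
  have := (L.co (L.Om_act e⁻¹ Z hZ.1)).pr_unique k2 k2'
  exact inv_injective this

/-- the type of the side letters -/
abbrev S : Type := {e : G // L.Sd e}

instance : Finite L.S := (L.Nb_finite.subset fun _ h => L.Sd_Nb h).to_subtype

/-- the next letter -/
noncomputable def F0 (e : L.S) : L.S :=
  ⟨(L.nx_exists e.2).choose, (L.nx_exists e.2).choose_spec.1⟩

theorem F0_spec (e : L.S) : L.NX e (L.F0 e) := (L.nx_exists e.2).choose_spec.2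

theorem F0_inj : Function.Injective L.F0 := by
  intro e e' h
  apply Subtype.ext
  have h1 := L.F0_spec e
  rw [h] at h1
  exact L.nx_inj h1 (L.F0_spec e')

/-- the permutation of the side letters: the vertex cycles -/
noncomputable def F : Equiv.Perm L.S :=
  Equiv.ofBijective L.F0 ⟨L.F0_inj, Finite.surjective_of_injective L.F0_inj⟩

theorem F_spec (e : L.S) : L.NX e (L.F e) := L.F0_spec e

/-- one step of the walk around a vertex -/
theorem walk_step {Z : V} (hZ : L.Ver Z) {a : G} {e : L.S} (h : L.Sc Z a (a * e)) :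
    L.Sc Z (a * e) (a * e * L.F e) := by
  obtain ⟨Z', hZ', h1, h2⟩ := L.F_spec e
  have k1 : L.Sc (L.act a⁻¹ Z) 1 e := by
    have := (L.Sc_act (g := a⁻¹)).mpr h
    rwa [inv_mul_cancel, inv_mul_cancel_left] at this
  obtain ⟨c, hc, e1⟩ := L.ver_unique hZ' (L.Ver_act a⁻¹ hZ) h1 k1
  have k2 : L.Sc (L.act a⁻¹ Z) e (e * L.F e) := by
    rw [e1, L.Sc_smul hc]
    exact h2
  have k3 := (L.Sc_act (g := a)).mpr k2
  rwa [L.act_act_inv, ← mul_assoc] at k3

theorem walk {Z : V} (hZ : L.Ver Z) {a : G} {e : L.S} (h : L.Sc Z a (a * e)) (k : ℕ) :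
    L.Sc Z (a * wk L.F (Subtype.val : L.S → G) e k)
      (a * wk L.F (Subtype.val : L.S → G) e (k + 1)) := by
  induction k with
  | zero =>
    rw [wk_succ, wk_zero, one_mul, mul_one]
    exact h
  | succ k ih =>
    rw [wk_succ L.F _ e k, ← mul_assoc] at ih
    have := L.walk_step hZ ih
    rw [wk_succ L.F _ e (k + 1), wk_succ L.F _ e k, Function.iterate_succ_apply']
    simpa only [mul_assoc] using this

end Lat

end Pool.Agent.ToST
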